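import Pool.Agent.helper15.P2.SpecI
import Pool.Agent.helper53.P2.MSS

/-! Project P2 (MP_063734_an), row IG: integrability and weak subharmonicity of `Gr`. -/

set_option autoImplicit false

open scoped ContDiff Topology ComplexConjugate
open MeasureTheory Filter Set Metric

namespace Pool.Agent.P2I

open Pool.Agent.P2

/-! ### The Laplacian -/

theorem IG_lap_cont {χ : ℂ → ℝ} (h : ContDiff ℝ ∞ χ) : Continuous (lap χ) := by
  have h1 : Continuous (iteratedFDeriv ℝ 2 χ) :=
    h.continuous_iteratedFDeriv (m := 2) (WithTop.coe_le_coe.2 le_top)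
  have h2 : ∀ m : Fin 2 → ℂ, Continuous (fun z => iteratedFDeriv ℝ 2 χ z m) := by
    intro m
    exact (ContinuousMultilinearMap.apply ℝ (fun _ : Fin 2 => ℂ) ℝ m).continuous.comp h1
  unfold lap
  exact continuous_const.mul ((h2 _).add (h2 _))

theorem IG_lap_supp {χ : ℂ → ℝ} {z : ℂ} (hz : z ∉ tsupport χ) : lap χ z = 0 := by
  have h1 : iteratedFDeriv ℝ 2 χ z = 0 := by
    by_contra hne
    exact hz (tsupport_iteratedFDeriv_subset (𝕜 := ℝ) 2 (subset_tsupport _ hne))
  unfold lap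
  rw [h1]
  simp

theorem IG_lap_add {f g : ℂ → ℝ} {z : ℂ} (hf : ContDiffAt ℝ 2 f z) (hg : ContDiffAt ℝ 2 g z) :
    lap (fun x => f x + g x) z = lap f z + lap g z := by
  unfold lap
  have h := iteratedFDeriv_add_apply (i := 2) hf hg
  have h' : iteratedFDeriv ℝ 2 (fun x => f x + g x) z = iteratedFDeriv ℝ 2 f z + iteratedFDeriv ℝ 2 g z := h
  rw [h']
  simp only [add_apply]
  ring

theorem IG_normSq_smooth (e : ℝ) : ContDiff ℝ ∞ (fun z : ℂ => e * Complex.normSq z) := by
  have e1 : (fun z : ℂ => e * Complex.normSq z) = fun z => e * (z.re * z.re + z.im * z.im) := by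
    ext z
    rw [Complex.normSq_apply]
  rw [e1]
  have h1 : ContDiff ℝ ∞ (fun z : ℂ => z.re) := Complex.reCLM.contDiff
  have h2 : ContDiff ℝ ∞ (fun z : ℂ => z.im) := Complex.imCLM.contDiff
  exact contDiff_const.mul ((h1.mul h1).add (h2.mul h2))

theorem IG_lap_normSq (e : ℝ) (z : ℂ) : lap (fun z : ℂ => e * Complex.normSq z) z = e := by
  have hs : ContDiffAt ℝ 2 (fun z : ℂ => e * Complex.normSq z) z :=
    ((IG_normSq_smooth e).of_le (WithTop.coe_le_coe.2 le_top)).contDiffAt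
  rw [MSS_lap hs]
  have hd : ∀ w v : ℂ, fderiv ℝ (fun z : ℂ => e * Complex.normSq z) w v = 2 * e * (w.re * v.re + w.im * v.im) := by
    intro w v
    have e1 : (fun z : ℂ => e * Complex.normSq z) = fun z => e * (z.re * z.re + z.im * z.im) := by
      ext z
      rw [Complex.normSq_apply]
    have h1 : HasFDerivAt (fun z : ℂ => z.re) Complex.reCLM w := Complex.reCLM.hasFDerivAt
    have h2 : HasFDerivAt (fun z : ℂ => z.im) Complex.imCLM w := Complex.imCLM.hasFDerivAt
    have h3 := ((h1.mul h1).add (h2.mul h2)).const_mul e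
    have h4 : fderiv ℝ (fun z : ℂ => e * (z.re * z.re + z.im * z.im)) w = _ := h3.fderiv
    rw [e1, h4]
    simp
    ring
  have h3 : (fun w => fderiv ℝ (fun z : ℂ => e * Complex.normSq z) w 1) = fun w => (2 * e) * w.re := by
    funext w
    rw [hd]
    simp
  have h4 : (fun w => fderiv ℝ (fun z : ℂ => e * Complex.normSq z) w Complex.I) = fun w => (2 * e) * w.im := by
    funext w
    rw [hd]
    simp
  have h1 : HasFDerivAt (fun z : ℂ => z.re) Complex.reCLM z := Complex.reCLM.hasFDerivAt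
  have h2 : HasFDerivAt (fun z : ℂ => z.im) Complex.imCLM z := Complex.imCLM.hasFDerivAt
  rw [h3, h4, (h1.const_mul (2 * e)).fderiv, (h2.const_mul (2 * e)).fderiv]
  simp
  ring

/-! ### The zero set and the size of `W` -/

theorem IG_Wr_diff {P Q : ℂ → ℂ} (hA : Adm P Q) : DifferentiableOn ℂ (Wr P Q) (ball 0 1) := by
  obtain ⟨hP, hQ, -⟩ := hA
  have hP' := hP.deriv isOpen_ball
  have hQ' := hQ.deriv isOpen_ball
  unfold Wr
  exact (hQ.mul hP').sub (hP.mul hQ')

theorem IG_Wr_ae {P Q : ℂ → ℂ} (hA : Adm P Q) (hne : ∃ z ∈ ball (0 : ℂ) 1, Wr P Q z ≠ 0) :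
    ∀ᵐ z ∂(volume.restrict (ball (0 : ℂ) 1)), Wr P Q z ≠ 0 := by
  have h1 : AnalyticOnNhd ℂ (Wr P Q) (ball 0 1) := (IG_Wr_diff hA).analyticOnNhd isOpen_ball
  obtain ⟨z0, hz0, hw0⟩ := hne
  have h2 := h1.preimage_zero_mem_codiscreteWithin hw0 hz0
    ⟨⟨0, mem_ball_self one_pos⟩, (convex_ball (0 : ℂ) 1).isPreconnected⟩
  exact ae_restrict_le_codiscreteWithin measurableSet_ball h2

theorem IG_Wr_bdd {P Q : ℂ → ℂ} (hA : Adm P Q) {R : ℝ} (hR : R < 1) :
    ∃ B : ℝ, 0 < B ∧ ∀ z ∈ closedBall (0 : ℂ) R, ‖Wr P Q z‖ ≤ B := by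
  have h1 : ContinuousOn (Wr P Q) (closedBall 0 R) := (IG_Wr_diff hA).continuousOn.mono (closedBall_subset_ball hR)
  obtain ⟨B, hB⟩ := (isCompact_closedBall (0 : ℂ) R).exists_bound_of_continuousOn h1
  exact ⟨max B 1, lt_of_lt_of_le one_pos (le_max_right _ _), fun z hz => (hB z hz).trans (le_max_left _ _)⟩

theorem IG_bound (hGB : GB_stmt) {P Q : ℂ → ℂ} {E r : ℝ} (hA : Adm P Q) (hE : 1 ≤ E)
    (hU : ∀ z ∈ ball (0 : ℂ) 1, |Up P Q z| ≤ E) (hr : 0 < r) (hr1 : r < 1) {R : ℝ} (hR : R < 1) :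
    ∃ M : ℝ, 0 ≤ M ∧ ∀ z ∈ ball (0 : ℂ) R, Wr P Q z ≠ 0 →
      Gr P Q r z ≤ M ∧ |Gr P Q r z| ≤ M + 4 * |Real.log ‖Wr P Q z‖| := by
  obtain ⟨B, hB0, hB⟩ := IG_Wr_bdd hA hR
  have hlR : 0 ≤ |Real.log (1 - R)| := abs_nonneg _
  refine ⟨60 * E + 3 * |Real.log (1 - R)| + 1 + |Real.log B|, by positivity, ?_⟩
  intro z hz hw
  have hzn : ‖z‖ < R := by simpa using hz
  have hz1 : z ∈ ball (0 : ℂ) 1 := by
    simp only [mem_ball, dist_zero_right]
    linarith
  obtain ⟨-, h1, h2⟩ := hGB P Q E r hA hE hU hr hr1.le z hz1 hw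
  have h3 : Real.log (1 - R) ≤ Real.log (1 - ‖z‖) := Real.log_le_log (by linarith) (by linarith)
  have h4 : Real.log ‖Wr P Q z‖ ≤ Real.log B :=
    Real.log_le_log (norm_pos_iff.2 hw) (hB z (ball_subset_closedBall hz))
  have h5 : -|Real.log (1 - R)| ≤ Real.log (1 - R) := neg_abs_le _
  have h6 := le_abs_self (Real.log B)
  have h7 := le_abs_self (Real.log ‖Wr P Q z‖)
  have h8 := neg_abs_le (Real.log ‖Wr P Q z‖)
  refine ⟨by linarith, ?_⟩
  rw [abs_le]
  have h9 := abs_nonneg (Real.log B)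
  have h10 := abs_nonneg (Real.log ‖Wr P Q z‖)
  constructor
  · linarith
  · linarith

theorem IG_logint (hLGA : LGA_stmt) {P Q : ℂ → ℂ} (hA : Adm P Q) (hne : ∃ z ∈ ball (0 : ℂ) 1, Wr P Q z ≠ 0)
    {R : ℝ} (hR : R < 1) : IntegrableOn (fun z => Real.log ‖Wr P Q z‖) (ball 0 R) := by
  wlog hR0 : 0 < R generalizing R
  · have h1 := this (R := 1 / 2) (by norm_num) (by norm_num)
    refine h1.mono_set ?_
    rw [ball_eq_empty.2 (not_lt.1 hR0)]
    exact empty_subset _
  have hWd := IG_Wr_diff hA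
  set d : ℝ := (1 - R) / 4 with hd
  have hd0 : 0 < d := by rw [hd]; linarith
  obtain ⟨c, hc, hwc⟩ : ∃ c ∈ ball (0 : ℂ) d, Wr P Q c ≠ 0 := by
    by_contra hcon
    push Not at hcon
    have h1 : AnalyticOnNhd ℂ (Wr P Q) (ball 0 1) := hWd.analyticOnNhd isOpen_ball
    have h2 : Wr P Q =ᶠ[𝓝 (0 : ℂ)] 0 := by
      filter_upwards [ball_mem_nhds (0 : ℂ) hd0] with z hz
      exact hcon z hz
    have h3 := h1.eqOn_zero_of_preconnected_of_eventuallyEq_zero (convex_ball (0 : ℂ) 1).isPreconnected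
      (mem_ball_self one_pos) h2
    obtain ⟨z, hz, hz'⟩ := hne
    exact hz' (h3 hz)
  have hcn : ‖c‖ < d := by simpa using hc
  have hR3 : R + 3 * d < 1 := by rw [hd]; linarith
  obtain ⟨B, hB0, hB⟩ := IG_Wr_bdd hA hR3
  have hsub : ∀ z ∈ ball c (R + 2 * d), ‖z‖ ≤ R + 3 * d := by
    intro z hz
    have h1 : ‖z - c‖ < R + 2 * d := by simpa [dist_eq_norm] using hz
    calc ‖z‖ = ‖(z - c) + c‖ := by ring_nf
      _ ≤ ‖z - c‖ + ‖c‖ := norm_add_le _ _
      _ ≤ R + 3 * d := by linarith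
  have h1 := hLGA (Wr P Q) c (R + d) (R + 2 * d) |Real.log B| (by linarith) (by linarith) (abs_nonneg _)
    (hWd.mono (by
      intro z hz
      have := hsub z hz
      simp only [mem_ball, dist_zero_right]
      linarith))
    (by
      intro z hz
      have h2 : ‖Wr P Q z‖ ≤ B := hB z (by simpa using hsub z hz)
      refine h2.trans ?_
      calc B = Real.exp (Real.log B) := (Real.exp_log hB0).symm
        _ ≤ Real.exp |Real.log B| := Real.exp_le_exp.2 (le_abs_self _)) hwc
  have hsub2 : ball (0 : ℂ) R ⊆ ball c (R + d) := by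
    intro z hz
    have h1 : ‖z‖ < R := by simpa using hz
    simp only [mem_ball, dist_eq_norm]
    calc ‖z - c‖ ≤ ‖z‖ + ‖c‖ := norm_sub_le _ _
      _ < R + d := by linarith
  have hball1 : ball (0 : ℂ) R ⊆ ball 0 1 := ball_subset_ball hR.le
  constructor
  · have h2 : ContinuousOn (fun z => ‖Wr P Q z‖) (ball 0 R) := (hWd.continuousOn.mono hball1).norm
    exact (Real.measurable_log.comp_aemeasurable
      (h2.aemeasurable measurableSet_ball)).aestronglyMeasurable
  · rw [hasFiniteIntegral_iff_norm]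
    refine lt_of_le_of_lt ?_ (lt_of_le_of_lt h1 ENNReal.ofReal_lt_top)
    refine (lintegral_mono_set hsub2).trans (le_of_eq ?_)
    simp only [Real.norm_eq_abs]

/-! ### Measurability -/

theorem IG_meas_ind {F : Type*} [NormedAddCommGroup F] [MeasurableSpace F] [BorelSpace F] {f : ℂ → F}
    (hf : ContinuousOn f (ball 0 1)) : Measurable ((ball (0 : ℂ) 1).indicator f) := by
  classical
  have h := hf.measurable_piecewise (g := fun _ => (0 : F)) continuousOn_const measurableSet_ball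
  have e : (ball (0 : ℂ) 1).piecewise f (fun _ => (0 : F)) = (ball (0 : ℂ) 1).indicator f := by
    funext z
    by_cases hz : z ∈ ball (0 : ℂ) 1
    · rw [piecewise_eq_of_mem _ _ _ hz, indicator_of_mem hz]
    · rw [piecewise_eq_of_notMem _ _ _ hz, indicator_of_notMem hz]
  rw [← e]
  exact h

/-- measurable version of `Gr` -/
noncomputable def IG_Gb (P Q : ℂ → ℂ) (r : ℝ) (z : ℂ) : ℝ := (ball (0 : ℂ) 1).indicator (Gr P Q r) z

theorem IG_Gb_meas (hBRO : BRO_stmt) {P Q : ℂ → ℂ} (hA : Adm P Q) (r : ℝ) : Measurable (IG_Gb P Q r) := by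
  have h1 := (hBRO P Q hA).2
  have h2 : Measurable ((ball (0 : ℂ) 1).indicator (fun z => ‖Wr P Q z‖)) :=
    IG_meas_ind (IG_Wr_diff hA).continuousOn.norm
  have e : IG_Gb P Q r = (ball (0 : ℂ) 1).indicator (fun z =>
      -Real.log ((ball (0 : ℂ) 1).indicator (rh P Q) z) +
        (1 / 4) * Real.log (1 + r ^ 2 / (ball (0 : ℂ) 1).indicator (rh P Q) z ^ 2) +
        4 * Real.log ((ball (0 : ℂ) 1).indicator (fun z => ‖Wr P Q z‖) z)) := by
    funext z
    unfold IG_Gb
    by_cases hz : z ∈ ball (0 : ℂ) 1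
    · rw [indicator_of_mem hz, indicator_of_mem hz, indicator_of_mem hz, indicator_of_mem hz]
      rfl
    · rw [indicator_of_notMem hz, indicator_of_notMem hz]
  rw [e]
  refine Measurable.indicator ?_ measurableSet_ball
  have h3 : Measurable (fun z => Real.log ((ball (0 : ℂ) 1).indicator (rh P Q) z)) := Real.measurable_log.comp h1
  have h4 : Measurable (fun z => Real.log (1 + r ^ 2 / (ball (0 : ℂ) 1).indicator (rh P Q) z ^ 2)) :=
    Real.measurable_log.comp (measurable_const.add (measurable_const.div (h1.pow_const 2)))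
  have h5 : Measurable (fun z => Real.log ((ball (0 : ℂ) 1).indicator (fun z => ‖Wr P Q z‖) z)) :=
    Real.measurable_log.comp h2
  exact (h3.neg.add (measurable_const.mul h4)).add (measurable_const.mul h5)

open Classical in
/-- the truncated function -/
noncomputable def IG_phi (P Q : ℂ → ℂ) (r K : ℝ) (z : ℂ) : ℝ :=
  if z ∈ ball (0 : ℂ) 1 ∧ Wr P Q z ≠ 0 then max (Gr P Q r z) (-K) else -K

open Classical in
/-- the truncated density -/
noncomputable def IG_g (P Q : ℂ → ℂ) (r K : ℝ) (z : ℂ) : ℝ :=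
  if z ∈ ball (0 : ℂ) 1 ∧ Wr P Q z ≠ 0 ∧ rh P Q z ≤ r ∧ -K < Gr P Q r z then sph P Q z / (16 * r ^ 2) else 0

theorem IG_Wset {P Q : ℂ → ℂ} (hA : Adm P Q) : MeasurableSet {z : ℂ | z ∈ ball (0 : ℂ) 1 ∧ Wr P Q z ≠ 0} := by
  have h2 : Measurable ((ball (0 : ℂ) 1).indicator (fun z => ‖Wr P Q z‖)) :=
    IG_meas_ind (IG_Wr_diff hA).continuousOn.norm
  have e : {z : ℂ | z ∈ ball (0 : ℂ) 1 ∧ Wr P Q z ≠ 0} =
      {z | (ball (0 : ℂ) 1).indicator (fun z => ‖Wr P Q z‖) z ≠ 0} := by
    ext z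
    simp only [mem_ofPred_eq]
    by_cases hz : z ∈ ball (0 : ℂ) 1
    · rw [indicator_of_mem hz]
      simp [hz]
    · rw [indicator_of_notMem hz]
      simp only [ne_eq, not_true_eq_false, iff_false, not_and]
      intro h
      exact absurd h hz
  rw [e]
  exact h2 (measurableSet_singleton (0 : ℝ)).compl

theorem IG_phi_meas (hBRO : BRO_stmt) {P Q : ℂ → ℂ} (hA : Adm P Q) (r K : ℝ) : Measurable (IG_phi P Q r K) := by
  classical
  have h1 := IG_Gb_meas hBRO hA r
  have e : IG_phi P Q r K = fun z => if z ∈ {z : ℂ | z ∈ ball (0 : ℂ) 1 ∧ Wr P Q z ≠ 0} then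
      max (IG_Gb P Q r z) (-K) else -K := by
    funext z
    unfold IG_phi
    by_cases h : z ∈ ball (0 : ℂ) 1 ∧ Wr P Q z ≠ 0
    · rw [if_pos h, if_pos (show z ∈ {z : ℂ | z ∈ ball (0 : ℂ) 1 ∧ Wr P Q z ≠ 0} from h)]
      unfold IG_Gb
      rw [indicator_of_mem h.1]
    · rw [if_neg h, if_neg (show z ∉ {z : ℂ | z ∈ ball (0 : ℂ) 1 ∧ Wr P Q z ≠ 0} from h)]
  rw [e]
  exact Measurable.ite (IG_Wset hA) (h1.max measurable_const) measurable_const

theorem IG_g_meas (hBRO : BRO_stmt) {P Q : ℂ → ℂ} (hA : Adm P Q) (r K : ℝ) : Measurable (IG_g P Q r K) := by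
  classical
  have h1 := IG_Gb_meas hBRO hA r
  have h2 := (hBRO P Q hA).2
  have h3 : Measurable ((ball (0 : ℂ) 1).indicator (sph P Q)) := by
    refine IG_meas_ind ?_
    obtain ⟨hP, hQ, hPQ⟩ := hA
    have hW := (IG_Wr_diff ⟨hP, hQ, hPQ⟩).continuousOn
    unfold sph
    refine ContinuousOn.div (Complex.continuous_normSq.comp_continuousOn hW) ?_ ?_
    · exact ((Complex.continuous_normSq.comp_continuousOn hP.continuousOn).add
        (Complex.continuous_normSq.comp_continuousOn hQ.continuousOn)).pow 2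
    · intro z hz
      have h := hPQ z hz
      have a := Complex.normSq_nonneg (P z)
      have b := Complex.normSq_nonneg (Q z)
      rcases h with h | h
      · have := Complex.normSq_pos.2 h
        positivity
      · have := Complex.normSq_pos.2 h
        positivity
  set S : Set ℂ := {z : ℂ | z ∈ ball (0 : ℂ) 1 ∧ Wr P Q z ≠ 0} ∩
    ({z | (ball (0 : ℂ) 1).indicator (rh P Q) z ≤ r} ∩ {z | -K < IG_Gb P Q r z}) with hS
  have hSm : MeasurableSet S :=
    (IG_Wset hA).inter ((measurableSet_le h2 measurable_const).inter (measurableSet_lt measurable_const h1))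
  have e : IG_g P Q r K = fun z => if z ∈ S then (ball (0 : ℂ) 1).indicator (sph P Q) z / (16 * r ^ 2) else 0 := by
    funext z
    unfold IG_g
    by_cases hz : z ∈ ball (0 : ℂ) 1
    · have hiff : z ∈ S ↔ (z ∈ ball (0 : ℂ) 1 ∧ Wr P Q z ≠ 0 ∧ rh P Q z ≤ r ∧ -K < Gr P Q r z) := by
        rw [hS]
        unfold IG_Gb
        simp only [mem_inter_iff, mem_ofPred_eq, indicator_of_mem hz]
        tauto
      by_cases h : z ∈ S
      · rw [if_pos h, if_pos (hiff.1 h), indicator_of_mem hz]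
      · rw [if_neg h, if_neg (fun h' => h (hiff.2 h'))]
    · have h : z ∉ S := fun h => hz h.1.1
      rw [if_neg h, if_neg (fun h' => hz h'.1)]
  rw [e]
  exact Measurable.ite hSm (h3.div_const _) measurable_const

/-! ### Touching functions -/

theorem IG_phi_bdd (hGB : GB_stmt) {P Q : ℂ → ℂ} {E r : ℝ} (hA : Adm P Q) (hE : 1 ≤ E)
    (hU : ∀ z ∈ ball (0 : ℂ) 1, |Up P Q z| ≤ E) (hr : 0 < r) (hr1 : r < 1) {R : ℝ} (hR : R < 1) {K : ℝ} (hK : 0 ≤ K) :
    ∃ M : ℝ, 0 ≤ M ∧ ∀ z ∈ ball (0 : ℂ) R, |IG_phi P Q r K z| ≤ M := by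
  obtain ⟨M, hM0, hM⟩ := IG_bound hGB hA hE hU hr hr1 hR
  refine ⟨M + K, by linarith, ?_⟩
  intro z hz
  unfold IG_phi
  split_ifs with h
  · have h1 := (hM z hz h.2).1
    rw [abs_le]
    constructor
    · have := le_max_right (Gr P Q r z) (-K)
      linarith
    · exact max_le (by linarith) (by linarith)
  · rw [abs_neg, abs_of_nonneg hK]
    linarith

theorem IG_phi_ge {P Q : ℂ → ℂ} {r K : ℝ} (z : ℂ) : -K ≤ IG_phi P Q r K z := by
  unfold IG_phi
  split_ifs
  · exact le_max_right _ _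
  · exact le_rfl

theorem IG_g_nonneg {P Q : ℂ → ℂ} {r K : ℝ} (z : ℂ) : 0 ≤ IG_g P Q r K z := by
  unfold IG_g
  split_ifs
  · unfold sph
    have h1 := Complex.normSq_nonneg (Wr P Q z)
    positivity
  · exact le_rfl

theorem IG_touch (hGT : GT_stmt) {P Q : ℂ → ℂ} {E r : ℝ} (hA : Adm P Q) (hE : 1 ≤ E)
    (hU : ∀ z ∈ ball (0 : ℂ) 1, |Up P Q z| ≤ E) (hr : 0 < r) (hr1 : r < 1) {R : ℝ} (hR0 : 0 < R) (hR : R < 1)
    (K : ℝ) :
    ∃ δ : ℝ, 0 < δ ∧ R + δ < 1 ∧ ∀ z ∈ ball (0 : ℂ) R, ∃ T : ℂ → ℝ, ContDiffOn ℝ ∞ T (ball z δ) ∧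
      T z = IG_phi P Q r K z ∧ (∀ x ∈ ball z δ, T x ≤ IG_phi P Q r K x ∧ 0 ≤ lap T x) ∧ IG_g P Q r K z ≤ lap T z := by
  obtain ⟨δ, hδ, hRδ, h⟩ := hGT P Q E r R K hA hE hU hr hr1 hR0 hR
  refine ⟨δ, hδ, hRδ, ?_⟩
  intro z hz
  have hz1 : z ∈ ball (0 : ℂ) 1 := ball_subset_ball hR.le hz
  have hsub : ball z δ ⊆ ball (0 : ℂ) 1 := by
    intro x hx
    have h1 : ‖x - z‖ < δ := by simpa [dist_eq_norm] using hx
    have h2 : ‖z‖ < R := by simpa using hz
    simp only [mem_ball, dist_zero_right]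
    calc ‖x‖ = ‖(x - z) + z‖ := by ring_nf
      _ ≤ ‖x - z‖ + ‖z‖ := norm_add_le _ _
      _ < 1 := by linarith
  by_cases hw : Wr P Q z ≠ 0 ∧ -K < Gr P Q r z
  · obtain ⟨T, hT1, hT2, hT3, hT4⟩ := h z hz hw.1 hw.2
    refine ⟨T, hT1, ?_, ?_, ?_⟩
    · rw [hT2]
      unfold IG_phi
      rw [if_pos ⟨hz1, hw.1⟩, max_eq_left hw.2.le]
    · intro x hx
      obtain ⟨a, b, c⟩ := hT3 x hx
      refine ⟨?_, c⟩
      unfold IG_phi
      rw [if_pos ⟨hsub hx, a⟩]
      exact b.trans (le_max_left _ _)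
    · unfold IG_g
      split_ifs with h5
      · have h6 := hT4 h5.2.2.1
        rw [div_le_iff₀ (by positivity)]
        linarith
      · exact (hT3 z (mem_ball_self hδ)).2.2
  · refine ⟨fun _ => -K, contDiffOn_const, ?_, ?_, ?_⟩
    · unfold IG_phi
      split_ifs with h5
      · push Not at hw
        exact (max_eq_right (hw h5.2)).symm
      · rfl
    · intro x _
      refine ⟨IG_phi_ge x, ?_⟩
      have : lap (fun _ : ℂ => -K) x = 0 := by
        unfold lap
        rw [iteratedFDeriv_const_of_ne (by norm_num)]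
        simp
      rw [this]
    · have : lap (fun _ : ℂ => -K) z = 0 := by
        unfold lap
        rw [iteratedFDeriv_const_of_ne (by norm_num)]
        simp
      rw [this]
      unfold IG_g
      rw [if_neg]
      rintro ⟨-, a, -, b⟩
      exact hw ⟨a, b⟩

theorem IG_fat (hAVG : AVG_stmt) (hFAT : FAT_stmt) (hBRO : BRO_stmt) (hGB : GB_stmt) (hGT : GT_stmt)
    {P Q : ℂ → ℂ} {E r : ℝ} (hA : Adm P Q) (hE : 1 ≤ E)
    (hU : ∀ z ∈ ball (0 : ℂ) 1, |Up P Q z| ≤ E) (hr : 0 < r) (hr1 : r < 1) {R : ℝ} (hR0 : 0 < R) (hR : R < 1)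
    {K : ℝ} (hK : 0 ≤ K) {e : ℝ} (he : 0 ≤ e) {χ : ℂ → ℝ} (hχ : ContDiff ℝ ∞ χ) (hc : HasCompactSupport χ)
    (hs : tsupport χ ⊆ ball 0 R) (h0 : ∀ z, 0 ≤ χ z) :
    ∫⁻ z, ENNReal.ofReal (χ z * (IG_g P Q r K z + e)) ≤
      ENNReal.ofReal (∫ z, lap χ z * (IG_phi P Q r K z + e * Complex.normSq z)) := by
  obtain ⟨δ, hδ, hRδ, htouch⟩ := IG_touch hGT hA hE hU hr hr1 hR0 hR K
  obtain ⟨M, hM0, hM⟩ := IG_phi_bdd hGB hA hE hU hr hr1 hRδ hK
  have hsq : ∀ z ∈ ball (0 : ℂ) (R + δ), Complex.normSq z ≤ 1 := by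
    intro z hz
    have h1 : ‖z‖ < R + δ := by simpa using hz
    rw [Complex.normSq_eq_norm_sq]
    have h2 := norm_nonneg z
    nlinarith
  have hb : ∀ z ∈ ball (0 : ℂ) (R + δ), |IG_phi P Q r K z + e * Complex.normSq z| ≤ M + e := by
    intro z hz
    have h1 := hM z hz
    have h2 := hsq z hz
    have h3 := Complex.normSq_nonneg z
    have h4 : |e * Complex.normSq z| ≤ e := by
      rw [abs_of_nonneg (by positivity)]
      nlinarith
    exact (abs_add_le _ _).trans (by linarith)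
  have hφm : Measurable (fun z => IG_phi P Q r K z + e * Complex.normSq z) :=
    (IG_phi_meas hBRO hA r K).add (measurable_const.mul Complex.continuous_normSq.measurable)
  have hφi : IntegrableOn (fun z => IG_phi P Q r K z + e * Complex.normSq z) (ball 0 (R + δ)) := by
    refine Measure.integrableOn_of_bounded (M := M + e) measure_ball_lt_top.ne hφm.aestronglyMeasurable ?_
    rw [ae_restrict_iff' measurableSet_ball]
    exact Eventually.of_forall (fun z hz => by rw [Real.norm_eq_abs]; exact hb z hz)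
  have hsub : ∀ z ∈ ball (0 : ℂ) R, ∀ s : ℝ, s < δ → ball z s ⊆ ball (0 : ℂ) (R + δ) := by
    intro z hz s hs x hx
    have h1 : ‖x - z‖ < s := by simpa [dist_eq_norm] using hx
    have h2 : ‖z‖ < R := by simpa using hz
    simp only [mem_ball, dist_zero_right]
    calc ‖x‖ = ‖(x - z) + z‖ := by ring_nf
      _ ≤ ‖x - z‖ + ‖z‖ := norm_add_le _ _
      _ < R + δ := by linarith
  have key : ∀ z ∈ ball (0 : ℂ) R, ∃ T : ℂ → ℝ, ContDiffOn ℝ ∞ T (ball z δ) ∧
      T z = IG_phi P Q r K z + e * Complex.normSq z ∧ (∀ x ∈ ball z δ, 0 ≤ lap T x) ∧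
      IG_g P Q r K z + e ≤ lap T z ∧
      ∀ s : ℝ, 0 < s → s < δ → (⨍ x in ball z s, T x) ≤ ⨍ x in ball z s, (IG_phi P Q r K x + e * Complex.normSq x) := by
    intro z hz
    obtain ⟨T, hT1, hT2, hT3, hT4⟩ := htouch z hz
    have hlap : ∀ x ∈ ball z δ, lap (fun x => T x + e * Complex.normSq x) x = lap T x + e := by
      intro x hx
      rw [IG_lap_add ((hT1.contDiffAt (isOpen_ball.mem_nhds hx)).of_le (WithTop.coe_le_coe.2 le_top))
        ((IG_normSq_smooth e).of_le (WithTop.coe_le_coe.2 le_top)).contDiffAt, IG_lap_normSq]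
    have hsm : ContDiffOn ℝ ∞ (fun x => T x + e * Complex.normSq x) (ball z δ) :=
      hT1.add (IG_normSq_smooth e).contDiffOn
    refine ⟨fun x => T x + e * Complex.normSq x, hsm, by simp only [hT2], ?_, ?_, ?_⟩
    · intro x hx
      rw [hlap x hx]
      linarith [(hT3 x hx).2]
    · rw [hlap z (mem_ball_self hδ)]
      linarith
    · intro s hs0 hsδ
      rw [setAverage_eq, setAverage_eq]
      have hv : 0 ≤ (volume.real (ball z s))⁻¹ := inv_nonneg.2 measureReal_nonneg
      rw [smul_eq_mul, smul_eq_mul]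
      refine mul_le_mul_of_nonneg_left ?_ hv
      refine setIntegral_mono_on ?_ (hφi.mono_set (hsub z hz s hsδ)) measurableSet_ball ?_
      · have h1 : ContinuousOn (fun x => T x + e * Complex.normSq x) (closedBall z s) :=
          hsm.continuousOn.mono (closedBall_subset_ball hsδ)
        exact (h1.integrableOn_compact (isCompact_closedBall z s)).mono_set ball_subset_closedBall
      · intro x hx
        have := (hT3 x (ball_subset_ball hsδ.le hx)).1
        linarith
  refine hFAT (ball 0 R) (fun z => IG_phi P Q r K z + e * Complex.normSq z) (fun z => IG_g P Q r K z + e) (M + e)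
    isOpen_ball hφm ((IG_g_meas hBRO hA r K).add measurable_const) ?_ ?_ ?_ ?_ χ hχ hc hs h0
  · intro z hz
    exact hb z (ball_subset_ball (by linarith) hz)
  · intro z _
    exact add_nonneg (IG_g_nonneg z) he
  · intro C _ hC
    refine ⟨δ, hδ, ?_⟩
    intro z hz s hs0 hsδ
    obtain ⟨T, hT1, hT2, hT3, hT4, hT5⟩ := key z (hC hz)
    have h1 := hAVG.1 T z δ hT1 hT3 s hs0 hsδ
    rw [hT2] at h1
    exact h1.trans (hT5 s hs0 hsδ)
  · intro z hz ε hε
    obtain ⟨T, hT1, hT2, hT3, hT4, hT5⟩ := key z hz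
    obtain ⟨s0, hs0, h1⟩ := hAVG.2.1 T z δ hδ hT1 (ε / 2) (by positivity)
    refine ⟨min s0 δ, lt_min hs0 hδ, ?_⟩
    intro s hs hss
    have h2 := h1 s hs (hss.trans_le (min_le_left _ _))
    have h3 := hT5 s hs (hss.trans_le (min_le_right _ _))
    rw [abs_le] at h2
    have h4 : (IG_g P Q r K z + e) * s ^ 2 ≤ lap T z * s ^ 2 :=
      mul_le_mul_of_nonneg_right hT4 (by positivity)
    rw [← hT2]
    nlinarith [h2.1]

/-! ### The theorem -/

theorem IG (hAVG : AVG_stmt) (hFAT : FAT_stmt) (hLGA : LGA_stmt) (hBRO : BRO_stmt) (hGB : GB_stmt)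
    (hGT : GT_stmt) : IG_stmt := by
  classical
  intro P Q E r hA hE hU hr hr1 hne
  have hWae := IG_Wr_ae hA hne
  have hint : ∀ R : ℝ, R < 1 → IntegrableOn (Gr P Q r) (ball 0 R) := by
    intro R hR
    obtain ⟨M, hM0, hM⟩ := IG_bound hGB hA hE hU hr hr1 hR
    have h1 := IG_logint hLGA hA hne hR
    have h2 : IntegrableOn (fun z => M + 4 * |Real.log ‖Wr P Q z‖|) (ball 0 R) :=
      (integrableOn_const measure_ball_lt_top.ne).add (h1.abs.const_mul 4)
    refine Integrable.mono' h2 ?_ ?_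
    · refine (IG_Gb_meas hBRO hA r).aestronglyMeasurable.congr ?_
      filter_upwards [ae_restrict_mem measurableSet_ball] with z hz
      unfold IG_Gb
      rw [indicator_of_mem (ball_subset_ball hR.le hz)]
    · have h3 := ae_restrict_of_ae_restrict_of_subset (ball_subset_ball hR.le) hWae
      filter_upwards [h3, ae_restrict_mem measurableSet_ball] with z hw hz
      rw [Real.norm_eq_abs]
      exact (hM z hz hw).2
  refine ⟨hint, ?_⟩
  intro χ hχ hc hs h0
  obtain ⟨R, ⟨hR0, hR1⟩, hsR⟩ := exists_pos_lt_subset_ball one_pos (isClosed_tsupport χ) hs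
  have hlc : Continuous (lap χ) := IG_lap_cont hχ
  have hlz : ∀ z, z ∉ ball (0 : ℂ) R → lap χ z = 0 := fun z hz => IG_lap_supp (fun h => hz (hsR h))
  obtain ⟨C, hC⟩ : ∃ C : ℝ, ∀ z, ‖lap χ z‖ ≤ C := by
    obtain ⟨C, hC⟩ := (isCompact_closedBall (0 : ℂ) R).exists_bound_of_continuousOn hlc.continuousOn
    refine ⟨max C 0, fun z => ?_⟩
    by_cases hz : z ∈ closedBall (0 : ℂ) R
    · exact (hC z hz).trans (le_max_left _ _)
    · rw [hlz z (fun h => hz (ball_subset_closedBall h)), norm_zero]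
      exact le_max_right _ _
  have hmul : ∀ f : ℂ → ℝ, IntegrableOn f (ball 0 R) → Integrable (fun z => lap χ z * f z) := by
    intro f hf
    have h1 : IntegrableOn (fun z => lap χ z * f z) (ball 0 R) :=
      hf.bdd_mul hlc.aestronglyMeasurable (Eventually.of_forall hC)
    refine (integrableOn_iff_integrable_of_support_subset ?_).1 h1
    intro z hz
    by_contra h
    exact hz (by simp only [hlz z h, zero_mul])
  have hphi : ∀ n : ℕ, IntegrableOn (IG_phi P Q r n) (ball 0 R) := by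
    intro n
    obtain ⟨M, hM0, hM⟩ := IG_phi_bdd (K := (n : ℝ)) hGB hA hE hU hr hr1 hR1 (Nat.cast_nonneg n)
    refine Measure.integrableOn_of_bounded (M := M) measure_ball_lt_top.ne
      (IG_phi_meas hBRO hA r n).aestronglyMeasurable ?_
    rw [ae_restrict_iff' measurableSet_ball]
    exact Eventually.of_forall (fun z hz => by rw [Real.norm_eq_abs]; exact hM z hz)
  have hnsq : IntegrableOn (fun z : ℂ => Complex.normSq z) (ball 0 R) :=
    (Complex.continuous_normSq.continuousOn.integrableOn_compact (isCompact_closedBall (0 : ℂ) R)).mono_set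
      ball_subset_closedBall
  have hJ : ∀ (n : ℕ) (e : ℝ), ∫ z, lap χ z * (IG_phi P Q r n z + e * Complex.normSq z) =
      (∫ z, lap χ z * IG_phi P Q r n z) + e * ∫ z, lap χ z * Complex.normSq z := by
    intro n e
    rw [← integral_const_mul, ← integral_add (hmul _ (hphi n)) ((hmul _ hnsq).const_mul e)]
    refine integral_congr_ae (Eventually.of_forall fun z => ?_)
    simp only
    ring
  have hfat := fun (n : ℕ) (e : ℝ) (he : 0 ≤ e) =>
    IG_fat (K := (n : ℝ)) hAVG hFAT hBRO hGB hGT hA hE hU hr hr1 hR0 hR1 (Nat.cast_nonneg n) he hχ hc hsR h0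
  -- nonnegativity
  have hI0 : ∀ n : ℕ, 0 ≤ ∫ z, lap χ z * IG_phi P Q r n z := by
    intro n
    by_cases hz : ∀ z, χ z = 0
    · have e1 : ∀ z, lap χ z = 0 := by
        intro z
        refine IG_lap_supp ?_
        have : χ = 0 := funext hz
        rw [this]
        simp
      simp [e1]
    · push Not at hz
      obtain ⟨z0, hz0⟩ := hz
      have hpos : ∀ e : ℝ, 0 < e → 0 < (∫ z, lap χ z * IG_phi P Q r n z) + e * ∫ z, lap χ z * Complex.normSq z := by
        intro e he
        have h1 := hfat n e he.le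
        rw [hJ] at h1
        have h2 : 0 < ∫⁻ z, ENNReal.ofReal (χ z * (IG_g P Q r n z + e)) := by
          rw [lintegral_pos_iff_support]
          · have hop : IsOpen {z | 0 < χ z} := isOpen_lt continuous_const hχ.continuous
            have hne' : ({z | 0 < χ z} : Set ℂ).Nonempty := ⟨z0, lt_of_le_of_ne (h0 z0) (Ne.symm hz0)⟩
            refine lt_of_lt_of_le (hop.measure_pos volume hne') (measure_mono ?_)
            intro z hz
            rw [Function.mem_support]
            have hz' : 0 < χ z := hz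
            have h3 : 0 < IG_g P Q r n z + e := by
              have := IG_g_nonneg (P := P) (Q := Q) (r := r) (K := (n : ℝ)) z
              linarith
            exact (ENNReal.ofReal_pos.2 (mul_pos hz' h3)).ne'
          · exact (hχ.continuous.measurable.mul ((IG_g_meas hBRO hA r n).add measurable_const)).ennreal_ofReal
        exact ENNReal.ofReal_pos.1 (lt_of_lt_of_le h2 h1)
      by_contra hneg
      push Not at hneg
      set I := ∫ z, lap χ z * IG_phi P Q r n z
      set J := ∫ z, lap χ z * Complex.normSq z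
      have h1 := hpos (-I / (|J| + 1)) (div_pos (by linarith) (by positivity))
      have h2 : -I / (|J| + 1) * J ≤ -I := by
        rw [div_mul_eq_mul_div, div_le_iff₀ (by positivity)]
        have h3 := le_abs_self J
        have h4 := abs_nonneg J
        nlinarith
      linarith
  have hI1 : ∀ n : ℕ, ∫⁻ z, ENNReal.ofReal (χ z * IG_g P Q r n z) ≤
      ENNReal.ofReal (∫ z, lap χ z * IG_phi P Q r n z) := by
    intro n
    have h1 := hfat n 0 le_rfl
    rw [hJ, zero_mul, add_zero] at h1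
    simpa using h1
  -- the limit of the right hand side
  have hGI : Integrable (fun z => lap χ z * Gr P Q r z) := hmul _ (hint R hR1)
  have hlim : Tendsto (fun n : ℕ => ∫ z, lap χ z * IG_phi P Q r n z) atTop (𝓝 (∫ z, lap χ z * Gr P Q r z)) := by
    have hWae2 : ∀ᵐ z : ℂ, z ∈ ball (0 : ℂ) 1 → Wr P Q z ≠ 0 := (ae_restrict_iff' measurableSet_ball).1 hWae
    refine tendsto_integral_of_dominated_convergence (fun z => ‖lap χ z * Gr P Q r z‖) ?_ hGI.norm ?_ ?_
    · intro n
      exact (hmul _ (hphi n)).aestronglyMeasurable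
    · intro n
      filter_upwards [hWae2] with z hz
      by_cases hzR : z ∈ ball (0 : ℂ) R
      · have hz1 := ball_subset_ball hR1.le hzR
        rw [norm_mul, norm_mul]
        refine mul_le_mul_of_nonneg_left ?_ (norm_nonneg _)
        unfold IG_phi
        rw [if_pos ⟨hz1, hz hz1⟩, Real.norm_eq_abs, Real.norm_eq_abs, abs_le]
        have hn : (0 : ℝ) ≤ n := Nat.cast_nonneg n
        constructor
        · exact (neg_abs_le _).trans (le_max_left _ _)
        · refine max_le (le_abs_self _) ?_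
          linarith [abs_nonneg (Gr P Q r z)]
      · rw [hlz z hzR]
        simp
    · filter_upwards [hWae2] with z hz
      by_cases hzR : z ∈ ball (0 : ℂ) R
      · have hz1 := ball_subset_ball hR1.le hzR
        refine tendsto_const_nhds.congr' ?_
        obtain ⟨N, hN⟩ := exists_nat_ge (-(Gr P Q r z))
        filter_upwards [eventually_ge_atTop N] with n hn
        unfold IG_phi
        rw [if_pos ⟨hz1, hz hz1⟩, max_eq_left]
        have : (N : ℝ) ≤ n := by exact_mod_cast hn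
        linarith
      · simp only [hlz z hzR, zero_mul]
        exact tendsto_const_nhds
  have hI : 0 ≤ ∫ z, lap χ z * Gr P Q r z := ge_of_tendsto' hlim hI0
  -- the limit of the left hand side
  set ginf : ℂ → ℝ := fun z => if z ∈ ball (0 : ℂ) 1 ∧ rh P Q z ≤ r then sph P Q z / (16 * r ^ 2) else 0 with hginf
  have hsph : ∀ z, Wr P Q z = 0 → sph P Q z = 0 := by
    intro z hz
    unfold sph
    rw [hz]
    simp
  have hgt : ∀ z, ∀ᶠ n : ℕ in atTop, ginf z = IG_g P Q r n z := by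
    intro z
    by_cases hz : z ∈ ball (0 : ℂ) 1 ∧ rh P Q z ≤ r
    · by_cases hw : Wr P Q z = 0
      · refine Eventually.of_forall fun n => ?_
        rw [hginf]
        simp only
        rw [if_pos hz, hsph z hw]
        unfold IG_g
        rw [if_neg (fun h => h.2.1 hw), zero_div]
      · obtain ⟨N, hN⟩ := exists_nat_gt (-(Gr P Q r z))
        filter_upwards [eventually_ge_atTop N] with n hn
        rw [hginf]
        simp only
        have : (N : ℝ) ≤ n := by exact_mod_cast hn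
        unfold IG_g
        rw [if_pos hz, if_pos ⟨hz.1, hw, hz.2, by linarith⟩]
    · refine Eventually.of_forall fun n => ?_
      rw [hginf]
      simp only
      unfold IG_g
      rw [if_neg hz, if_neg (fun h => hz ⟨h.1, h.2.2.1⟩)]
  have hgm : Measurable ginf := by
    refine measurable_of_tendsto_metrizable (fun n : ℕ => IG_g_meas hBRO hA r n) ?_
    rw [tendsto_pi_nhds]
    intro z
    exact tendsto_const_nhds.congr' (hgt z)
  have hg0 : ∀ z, 0 ≤ ginf z := by
    intro z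
    obtain ⟨n, hn⟩ := (hgt z).exists
    rw [hn]
    exact IG_g_nonneg z
  have hL : ∫⁻ z, ENNReal.ofReal (χ z * ginf z) ≤ ENNReal.ofReal (∫ z, lap χ z * Gr P Q r z) := by
    have h1 : Tendsto (fun n : ℕ => ∫⁻ z, ENNReal.ofReal (χ z * IG_g P Q r n z)) atTop
        (𝓝 (∫⁻ z, ENNReal.ofReal (χ z * ginf z))) := by
      refine lintegral_tendsto_of_tendsto_of_monotone ?_ ?_ ?_
      · intro n
        exact (hχ.continuous.measurable.mul (IG_g_meas hBRO hA r n)).ennreal_ofReal.aemeasurable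
      · refine Eventually.of_forall fun z => ?_
        intro m n hmn
        refine ENNReal.ofReal_le_ofReal (mul_le_mul_of_nonneg_left ?_ (h0 z))
        have hmn' : (m : ℝ) ≤ n := by exact_mod_cast hmn
        by_cases h : z ∈ ball (0 : ℂ) 1 ∧ Wr P Q z ≠ 0 ∧ rh P Q z ≤ r ∧ -(m : ℝ) < Gr P Q r z
        · unfold IG_g
          rw [if_pos h, if_pos ⟨h.1, h.2.1, h.2.2.1, by linarith [h.2.2.2]⟩]
        · have : IG_g P Q r m z = 0 := by
            unfold IG_g
            rw [if_neg h]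
          rw [this]
          exact IG_g_nonneg z
      · refine Eventually.of_forall fun z => ?_
        refine tendsto_const_nhds.congr' ?_
        filter_upwards [hgt z] with n hn
        rw [hn]
    exact le_of_tendsto_of_tendsto' h1 (ENNReal.tendsto_ofReal hlim) hI1
  have hSm : MeasurableSet {z : ℂ | z ∈ ball (0 : ℂ) 1 ∧ rh P Q z ≤ r} := by
    have e : {z : ℂ | z ∈ ball (0 : ℂ) 1 ∧ rh P Q z ≤ r} =
        ball (0 : ℂ) 1 ∩ {z | (ball (0 : ℂ) 1).indicator (rh P Q) z ≤ r} := by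
      ext z
      simp only [mem_ofPred_eq, mem_inter_iff]
      constructor
      · rintro ⟨a, b⟩
        refine ⟨a, ?_⟩
        rw [indicator_of_mem a]
        exact b
      · rintro ⟨a, b⟩
        refine ⟨a, ?_⟩
        rw [indicator_of_mem a] at b
        exact b
    rw [e]
    exact measurableSet_ball.inter (measurableSet_le (hBRO P Q hA).2 measurable_const)
  have e1 : ∫ z in {z : ℂ | z ∈ ball (0 : ℂ) 1 ∧ rh P Q z ≤ r}, χ z * sph P Q z =
      16 * r ^ 2 * ∫ z, χ z * ginf z := by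
    rw [← integral_indicator hSm, ← integral_const_mul]
    refine integral_congr_ae (Eventually.of_forall fun z => ?_)
    simp only
    by_cases hz : z ∈ {z : ℂ | z ∈ ball (0 : ℂ) 1 ∧ rh P Q z ≤ r}
    · rw [indicator_of_mem hz, hginf]
      simp only
      rw [if_pos (show z ∈ ball (0 : ℂ) 1 ∧ rh P Q z ≤ r from hz)]
      field_simp
    · rw [indicator_of_notMem hz, hginf]
      simp only
      rw [if_neg (show ¬ (z ∈ ball (0 : ℂ) 1 ∧ rh P Q z ≤ r) from hz)]
      ring
  rw [e1]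
  refine mul_le_mul_of_nonneg_left ?_ (by positivity)
  rw [integral_eq_lintegral_of_nonneg_ae (Eventually.of_forall fun z => mul_nonneg (h0 z) (hg0 z))
    (hχ.continuous.measurable.mul hgm).aestronglyMeasurable]
  exact ENNReal.toReal_le_of_le_ofReal hI hL

end Pool.Agent.P2I
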