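import Pool.Agent.helper26.P2.CUTA

/-!
# Project P2, row CUT, part B: the Cauchy transform of a smooth function of compact support
-/

set_option autoImplicit false

open Complex Metric Set Filter Topology MeasureTheory
open scoped ContDiff Convolution

noncomputable section

namespace Pool.Agent.P2I.CutA

/-- the kernel `1/(π t)` -/
def ker (t : ℂ) : ℂ := (Real.pi : ℂ)⁻¹ * t⁻¹

theorem ker_norm (t : ℂ) : ‖ker t‖ = Real.pi⁻¹ * (1 / ‖t‖) := by
  unfold ker
  rw [norm_mul, norm_inv, norm_inv, Complex.norm_real, Real.norm_of_nonneg Real.pi_pos.le, one_div]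

theorem ker_meas : Measurable ker := by
  unfold ker
  exact measurable_const.mul measurable_inv

theorem ker_int (R : ℝ) : IntegrableOn ker (ball 0 R) := by
  have h1 := (MI_int0 R).const_mul Real.pi⁻¹
  refine Integrable.mono' h1 ker_meas.aestronglyMeasurable (Eventually.of_forall fun t => ?_)
  rw [ker_norm]

theorem ker_li : LocallyIntegrable ker := by
  rw [locallyIntegrable_iff]
  intro K hK
  obtain ⟨R, hR⟩ := hK.isBounded.subset_ball (0 : ℂ)
  exact (ker_int R).mono_set hR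

/-- the Cauchy transform -/
def CTr (F : ℂ → ℂ) : ℂ → ℂ := ker ⋆[ContinuousLinearMap.mul ℝ ℂ, volume] F

theorem CTr_apply (F : ℂ → ℂ) (x : ℂ) : CTr F x = ∫ t, ker t * F (x - t) := rfl

theorem CTr_smooth {F : ℂ → ℂ} (hF : ContDiff ℝ ∞ F) (hc : HasCompactSupport F) : ContDiff ℝ ∞ (CTr F) :=
  hc.contDiff_convolution_right (ContinuousLinearMap.mul ℝ ℂ) ker_li hF

theorem CTr_fderiv {F : ℂ → ℂ} (hF : ContDiff ℝ ∞ F) (hc : HasCompactSupport F) (x v : ℂ) :
    fderiv ℝ (CTr F) x v = ∫ t, ker t * fderiv ℝ F (x - t) v := by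
  have h1 : ContDiff ℝ 1 F := hF.of_le (WithTop.coe_le_coe.2 le_top)
  have h2 := hc.hasFDerivAt_convolution_right (ContinuousLinearMap.mul ℝ ℂ) ker_li h1 x
  have h3 : fderiv ℝ (CTr F) x = _ := h2.fderiv
  rw [h3, convolution_precompR_apply _ ker_li (hc.fderiv ℝ) (h1.continuous_fderiv one_ne_zero)]
  rfl

theorem CTr_exists {F : ℂ → ℂ} (hF : Continuous F) (hc : HasCompactSupport F) (x : ℂ) :
    Integrable (fun t => ker t * F (x - t)) :=
  hc.convolutionExists_right (ContinuousLinearMap.mul ℝ ℂ) ker_li hF x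

theorem CTr_dbar {F : ℂ → ℂ} (hF : ContDiff ℝ ∞ F) (hc : HasCompactSupport F) (x : ℂ) :
    dbar (CTr F) x = F x := by
  have h1 : ContDiff ℝ 1 F := hF.of_le (WithTop.coe_le_coe.2 le_top)
  have hcv : ∀ v : ℂ, Continuous (fun z => fderiv ℝ F z v) := fun v =>
    (h1.continuous_fderiv one_ne_zero).clm_apply continuous_const
  have hsv : ∀ v : ℂ, HasCompactSupport (fun z => fderiv ℝ F z v) := fun v => hc.fderiv_apply (𝕜 := ℝ) v
  have e1 : dbar (CTr F) x = ∫ t, ker t * dbar F (x - t) := by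
    unfold dbar
    rw [CTr_fderiv hF hc, CTr_fderiv hF hc, ← integral_const_mul, ← integral_add (CTr_exists (hcv 1) (hsv 1) x)
      ((CTr_exists (hcv I) (hsv I) x).const_mul I), ← integral_div]
    refine integral_congr_ae (Eventually.of_forall fun t => ?_)
    simp only
    ring
  have e2 : (∫ t, ker t * dbar F (x - t)) = ∫ ζ, ker (x - ζ) * dbar F ζ := by
    rw [← integral_sub_left_eq_self (fun ζ => ker (x - ζ) * dbar F ζ) volume x]
    refine integral_congr_ae (Eventually.of_forall fun t => ?_)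
    simp only [sub_sub_cancel]
  have e3 : (∫ ζ, ker (x - ζ) * dbar F ζ) = ∫ ζ, (-(Real.pi : ℂ)⁻¹) * (dbar F ζ / (ζ - x)) := by
    refine integral_congr_ae (Eventually.of_forall fun t => ?_)
    simp only [ker]
    rw [← neg_sub t x, inv_neg, div_eq_mul_inv]
    ring
  have hpi : (Real.pi : ℂ) ≠ 0 := by exact_mod_cast Real.pi_pos.ne'
  rw [e1, e2, e3, integral_const_mul, (CPF_main F x h1 hc).2]
  field_simp

theorem CTr_bound {F : ℂ → ℂ} {M : ℝ} (hM : ∀ w, ‖F w‖ ≤ M) (hs : ∀ w, w ∉ ball (0 : ℂ) 1 → F w = 0)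
    {x : ℂ} (hx : x ∈ ball (0 : ℂ) 1) : ‖CTr F x‖ ≤ M * ∫ t in ball (0 : ℂ) 2, ‖ker t‖ := by
  have hM0 : 0 ≤ M := (norm_nonneg _).trans (hM 0)
  have hxn : ‖x‖ < 1 := by simpa using hx
  rw [CTr_apply, ← integral_const_mul, ← integral_indicator measurableSet_ball]
  refine norm_integral_le_of_norm_le (f := fun t => ker t * F (x - t))
    ((integrable_indicator_iff measurableSet_ball).2 ((ker_int 2).norm.const_mul M)) (Eventually.of_forall fun t => ?_)
  by_cases ht : t ∈ ball (0 : ℂ) 2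
  · rw [indicator_of_mem ht, norm_mul, mul_comm]
    exact mul_le_mul_of_nonneg_right (hM _) (norm_nonneg _)
  · rw [indicator_of_notMem ht, hs (x - t), mul_zero, norm_zero]
    intro h
    apply ht
    have h1 : ‖x - t‖ < 1 := by simpa using h
    simp only [mem_ball, dist_zero_right]
    calc ‖t‖ = ‖x - (x - t)‖ := by ring_nf
      _ ≤ ‖x‖ + ‖x - t‖ := norm_sub_le _ _
      _ < 2 := by linarith

theorem dbar_zero_diff {G : ℂ → ℂ} {z : ℂ} (hG : DifferentiableAt ℝ G z) (h : dbar G z = 0) :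
    DifferentiableAt ℂ G z := by
  rw [differentiableAt_complex_iff_differentiableAt_real]
  refine ⟨hG, ?_⟩
  unfold dbar at h
  have h1 : fderiv ℝ G z 1 + I * fderiv ℝ G z I = 0 := by
    have h2 := (div_eq_zero_iff.1 h).resolve_right two_ne_zero
    exact h2
  rw [smul_eq_mul]
  linear_combination (-I) * h1 + (fderiv ℝ G z I) * Complex.I_sq

/-- the derivative of the Cauchy transform away from the support -/
theorem CTr_deriv_bound {F : ℂ → ℂ} (hF : ContDiff ℝ ∞ F) (hc : HasCompactSupport F) {M d : ℝ} (hd : 0 < d) {x : ℂ}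
    (hs : ∀ w ∈ closedBall x d, F w = 0) (hM : ∀ w ∈ closedBall x d, ‖CTr F w‖ ≤ M) (v : ℂ) :
    ‖fderiv ℝ (CTr F) x v‖ ≤ M / d * ‖v‖ := by
  have hdiff : ∀ w ∈ closedBall x d, DifferentiableAt ℂ (CTr F) w := by
    intro w hw
    refine dbar_zero_diff ((CTr_smooth hF hc).differentiable (by simp) w) ?_
    rw [CTr_dbar hF hc, hs w hw]
  have h1 : ‖deriv (CTr F) x‖ ≤ M / d := by
    refine Complex.norm_deriv_le_of_forall_mem_sphere_norm_le hd ?_ (fun z hz => hM z (sphere_subset_closedBall hz))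
    refine DifferentiableOn.diffContOnCl ?_
    rw [closure_ball x hd.ne']
    intro w hw
    exact (hdiff w hw).differentiableWithinAt
  have h2 : fderiv ℝ (CTr F) x v = deriv (CTr F) x * v := by
    have h3 := (hdiff x (mem_closedBall_self hd.le))
    rw [h3.fderiv_restrictScalars ℝ]
    simp [mul_comm]
  rw [h2, norm_mul]
  exact mul_le_mul_of_nonneg_right h1 (norm_nonneg _)

end Pool.Agent.P2I.CutA
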