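import Pool.Agent.helper15.P2.SpecI
import Pool.Agent.helper53.P2.MSS
import Pool.Agent.helper26.P2.CUTB
import Pool.Agent.helper26.P2.IG

/-!
# Project P2 (MP_063734_an), row CUT: the cut-off lemma

Proof without mollifiers: `χ lap v = lap (χ v) - 2 lap (χ₁ u) + bounded`, where `u` is the real part of the Cauchy transform of
`v ∂χ/∂z̄` and `χ₁` is a second cut-off.
-/

set_option autoImplicit false

open scoped ContDiff Topology ComplexConjugate
open MeasureTheory Filter Set Metric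

namespace Pool.Agent.P2I

open Pool.Agent.P2

/-- directional derivative -/
noncomputable def CUT_D (v : ℂ) (f : ℂ → ℝ) (z : ℂ) : ℝ := fderiv ℝ f z v

theorem CUT_D_smooth {f : ℂ → ℝ} (hf : ContDiff ℝ ∞ f) (v : ℂ) : ContDiff ℝ ∞ (CUT_D v f) :=
  (hf.fderiv_right (m := ∞) (by simp)).clm_apply contDiff_const

theorem CUT_diff {f : ℂ → ℝ} (hf : ContDiff ℝ ∞ f) : Differentiable ℝ f := hf.differentiable (by simp)

theorem CUT_D_mul {f g : ℂ → ℝ} (hf : ContDiff ℝ ∞ f) (hg : ContDiff ℝ ∞ g) (v z : ℂ) :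
    CUT_D v (fun z => f z * g z) z = f z * CUT_D v g z + g z * CUT_D v f z := by
  unfold CUT_D
  have h1 := ((CUT_diff hf z).hasFDerivAt.mul (CUT_diff hg z).hasFDerivAt)
  have h2 : fderiv ℝ (fun z => f z * g z) z = _ := h1.fderiv
  rw [h2]
  simp

theorem CUT_D_add {f g : ℂ → ℝ} (hf : ContDiff ℝ ∞ f) (hg : ContDiff ℝ ∞ g) (v z : ℂ) :
    CUT_D v (fun z => f z + g z) z = CUT_D v f z + CUT_D v g z := by
  unfold CUT_D
  have h1 := ((CUT_diff hf z).hasFDerivAt.add (CUT_diff hg z).hasFDerivAt)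
  have h2 : fderiv ℝ (fun z => f z + g z) z = _ := h1.fderiv
  rw [h2]
  simp

theorem CUT_D_neg {f : ℂ → ℝ} (hf : ContDiff ℝ ∞ f) (v z : ℂ) :
    CUT_D v (fun z => -f z) z = -CUT_D v f z := by
  unfold CUT_D
  have h1 := (CUT_diff hf z).hasFDerivAt.neg
  have h2 : fderiv ℝ (fun z => -f z) z = _ := h1.fderiv
  rw [h2]
  simp

theorem CUT_D2 {f : ℂ → ℝ} (hf : ContDiff ℝ ∞ f) (v w z : ℂ) :
    CUT_D v (CUT_D w f) z = fderiv ℝ (fderiv ℝ f) z v w := by
  unfold CUT_D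
  have h2 : DifferentiableAt ℝ (fderiv ℝ f) z :=
    ((hf.fderiv_right (m := ∞) (by simp)).differentiable (by simp)) z
  have h4 : HasFDerivAt (fun x => fderiv ℝ f x w) ((fderiv ℝ (fderiv ℝ f) z).flip w) z := by
    have h5 := h2.hasFDerivAt.clm_apply (hasFDerivAt_const w z)
    simpa using h5
  rw [h4.fderiv]
  rfl

theorem CUT_D_symm {f : ℂ → ℝ} (hf : ContDiff ℝ ∞ f) (v w z : ℂ) :
    CUT_D v (CUT_D w f) z = CUT_D w (CUT_D v f) z := by
  rw [CUT_D2 hf, CUT_D2 hf]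
  have h := (hf.contDiffAt (x := z)).isSymmSndFDerivAt
    (by rw [minSmoothness_of_isRCLikeNormedField]; exact WithTop.coe_le_coe.2 le_top)
  exact h v w

theorem CUT_lap {f : ℂ → ℝ} (hf : ContDiff ℝ ∞ f) (z : ℂ) :
    lap f z = (1 / 4) * (CUT_D 1 (CUT_D 1 f) z + CUT_D Complex.I (CUT_D Complex.I f) z) := by
  have h : ContDiffAt ℝ 2 f z := (hf.of_le (WithTop.coe_le_coe.2 le_top)).contDiffAt
  rw [MSS_lap h]
  rfl

theorem CUT_lap_mul {f g : ℂ → ℝ} (hf : ContDiff ℝ ∞ f) (hg : ContDiff ℝ ∞ g) (z : ℂ) :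
    lap (fun z => f z * g z) z = f z * lap g z + g z * lap f z +
      (1 / 2) * (CUT_D 1 f z * CUT_D 1 g z + CUT_D Complex.I f z * CUT_D Complex.I g z) := by
  have h2 : ∀ v z : ℂ, CUT_D v (CUT_D v (fun z => f z * g z)) z =
      f z * CUT_D v (CUT_D v g) z + g z * CUT_D v (CUT_D v f) z + 2 * (CUT_D v f z * CUT_D v g z) := by
    intro v z
    have e : CUT_D v (fun z => f z * g z) = fun z => f z * CUT_D v g z + g z * CUT_D v f z := by
      funext z
      exact CUT_D_mul hf hg v z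
    rw [e, CUT_D_add (f := fun z => f z * CUT_D v g z) (g := fun z => g z * CUT_D v f z)
      (hf.mul (CUT_D_smooth hg v)) (hg.mul (CUT_D_smooth hf v)), CUT_D_mul hf (CUT_D_smooth hg v),
      CUT_D_mul hg (CUT_D_smooth hf v)]
    ring
  rw [CUT_lap (hf.mul hg), CUT_lap hf, CUT_lap hg]
  rw [h2, h2]
  ring

theorem CUT_D_supp {f : ℂ → ℝ} {z : ℂ} (hz : z ∉ tsupport f) (v : ℂ) : CUT_D v f z = 0 := by
  have h1 : fderiv ℝ f z = 0 := by
    by_contra hne
    exact hz (support_fderiv_subset ℝ hne)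
  unfold CUT_D
  rw [h1]
  rfl

/-! ### The potential -/

theorem CUT_re {G : ℂ → ℂ} (hG : ContDiff ℝ ∞ G) (v z : ℂ) :
    CUT_D v (fun z => (G z).re) z = (fderiv ℝ G z v).re := by
  unfold CUT_D
  have h1 := Complex.reCLM.hasFDerivAt.comp z ((hG.differentiable (by simp)) z).hasFDerivAt
  have h2 : fderiv ℝ (fun z => (G z).re) z = _ := h1.fderiv
  rw [h2]
  rfl

theorem CUT_im {G : ℂ → ℂ} (hG : ContDiff ℝ ∞ G) (v z : ℂ) :
    CUT_D v (fun z => (G z).im) z = (fderiv ℝ G z v).im := by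
  unfold CUT_D
  have h1 := Complex.imCLM.hasFDerivAt.comp z ((hG.differentiable (by simp)) z).hasFDerivAt
  have h2 : fderiv ℝ (fun z => (G z).im) z = _ := h1.fderiv
  rw [h2]
  rfl

/-- the function `v ∂χ/∂z̄` -/
noncomputable def CUT_F (χ v : ℂ → ℝ) (z : ℂ) : ℂ :=
  ⟨v z * CUT_D 1 χ z / 2, v z * CUT_D Complex.I χ z / 2⟩

theorem CUT_F_smooth {χ v : ℂ → ℝ} (hχ : ContDiff ℝ ∞ χ) (hv : ContDiff ℝ ∞ v) : ContDiff ℝ ∞ (CUT_F χ v) := by
  have e : CUT_F χ v = fun z => ((v z * CUT_D 1 χ z / 2 : ℝ) : ℂ) + ((v z * CUT_D Complex.I χ z / 2 : ℝ) : ℂ) * Complex.I := by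
    funext z
    unfold CUT_F
    apply Complex.ext <;> simp
  rw [e]
  have h1 : ∀ w : ℂ, ContDiff ℝ ∞ (fun z => ((v z * CUT_D w χ z / 2 : ℝ) : ℂ)) := by
    intro w
    exact Complex.ofRealCLM.contDiff.comp ((hv.mul (CUT_D_smooth hχ w)).div_const 2)
  exact (h1 1).add ((h1 Complex.I).mul contDiff_const)

theorem CUT_pot_eq {χ v : ℂ → ℝ} (hχ : ContDiff ℝ ∞ χ) (hv : ContDiff ℝ ∞ v) {G : ℂ → ℂ} (hG : ContDiff ℝ ∞ G)
    (hd : ∀ z, CutA.dbar G z = CUT_F χ v z) (z : ℂ) :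
    lap (fun z => (G z).re) z = (1 / 4) * (CUT_D 1 v z * CUT_D 1 χ z + CUT_D Complex.I v z * CUT_D Complex.I χ z) +
      v z * lap χ z := by
  set u : ℂ → ℝ := fun z => (G z).re with hu
  set w : ℂ → ℝ := fun z => (G z).im with hw
  have hus : ContDiff ℝ ∞ u := Complex.reCLM.contDiff.comp hG
  have hws : ContDiff ℝ ∞ w := Complex.imCLM.contDiff.comp hG
  have h0 : ∀ z, fderiv ℝ G z 1 + Complex.I * fderiv ℝ G z Complex.I = 2 * CUT_F χ v z := by
    intro z
    have := hd z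
    unfold CutA.dbar at this
    rw [← this]
    ring
  have h1 : ∀ z, CUT_D 1 u z - CUT_D Complex.I w z = v z * CUT_D 1 χ z := by
    intro z
    have h := congrArg Complex.re (h0 z)
    rw [hu, hw, CUT_re hG, CUT_im hG]
    simp only [Complex.add_re, Complex.mul_re, Complex.I_re, Complex.I_im, zero_mul, one_mul, CUT_F,
      Complex.re_ofNat, Complex.im_ofNat] at h
    linarith
  have h2 : ∀ z, CUT_D 1 w z + CUT_D Complex.I u z = v z * CUT_D Complex.I χ z := by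
    intro z
    have h := congrArg Complex.im (h0 z)
    rw [hu, hw, CUT_re hG, CUT_im hG]
    simp only [Complex.add_im, Complex.mul_im, Complex.I_re, Complex.I_im, zero_mul, one_mul, CUT_F,
      Complex.re_ofNat, Complex.im_ofNat] at h
    linarith
  have e1 : CUT_D 1 u = fun z => CUT_D Complex.I w z + v z * CUT_D 1 χ z := by
    funext z
    linarith [h1 z]
  have e2 : CUT_D Complex.I u = fun z => -CUT_D 1 w z + v z * CUT_D Complex.I χ z := by
    funext z
    linarith [h2 z]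
  have hx1 := CUT_D_smooth hχ 1
  have hx2 := CUT_D_smooth hχ Complex.I
  rw [CUT_lap hus, e1, e2, CUT_D_add (f := CUT_D Complex.I w) (CUT_D_smooth hws _) (hv.mul hx1),
    CUT_D_add (f := fun z => -CUT_D 1 w z) (CUT_D_smooth hws _).neg (hv.mul hx2), CUT_D_neg (CUT_D_smooth hws _),
    CUT_D_mul hv hx1, CUT_D_mul hv hx2, CUT_D_symm hws 1 Complex.I, CUT_lap hχ]
  ring

theorem CUT_bdd {f : ℂ → ℝ} (hf : Continuous f) {R : ℝ} (h0 : ∀ z, z ∉ ball (0 : ℂ) R → f z = 0) :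
    ∃ C : ℝ, 0 ≤ C ∧ ∀ z, |f z| ≤ C := by
  obtain ⟨C, hC⟩ := (isCompact_closedBall (0 : ℂ) R).exists_bound_of_continuousOn hf.continuousOn
  refine ⟨max C 0, le_max_right _ _, fun z => ?_⟩
  by_cases hz : z ∈ closedBall (0 : ℂ) R
  · exact (hC z hz).trans (le_max_left _ _)
  · rw [h0 z (fun h => hz (ball_subset_closedBall h)), abs_zero]
    exact le_max_right _ _

theorem CUT_pot {χ : ℂ → ℝ} (hχ : ContDiff ℝ ∞ χ) {R d : ℝ} (hR1 : R + 2 * d ≤ 4 / 5) (hd : 0 < d) (hd1 : d ≤ 4 / 15)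
    (hs : tsupport χ ⊆ ball 0 R) :
    ∃ c : ℝ, 0 ≤ c ∧ ∀ (v : ℂ → ℝ) (B : ℝ), 0 ≤ B → ContDiff ℝ ∞ v → (∀ z, |v z| ≤ B) →
      ∃ u : ℂ → ℝ, ContDiff ℝ ∞ u ∧ (∀ z ∈ ball (0 : ℂ) 1, |u z| ≤ c * B) ∧
        (∀ z, R + d ≤ ‖z‖ → ‖z‖ ≤ 4 / 5 → |CUT_D 1 u z| ≤ c * B ∧ |CUT_D Complex.I u z| ≤ c * B) ∧
        (∀ z, lap u z = (1 / 4) * (CUT_D 1 v z * CUT_D 1 χ z + CUT_D Complex.I v z * CUT_D Complex.I χ z) +
          v z * lap χ z) := by
  have hR5 : R < 4 / 5 := by linarith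
  have hz0 : ∀ (w z : ℂ), z ∉ ball (0 : ℂ) R → CUT_D w χ z = 0 := fun w z hz => CUT_D_supp (fun h => hz (hs h)) w
  obtain ⟨C1, hC10, hC1⟩ := CUT_bdd (CUT_D_smooth hχ 1).continuous (hz0 1)
  obtain ⟨C2, hC20, hC2⟩ := CUT_bdd (CUT_D_smooth hχ Complex.I).continuous (hz0 Complex.I)
  set c0 : ℝ := (C1 + C2) * ∫ t in ball (0 : ℂ) 2, ‖CutA.ker t‖ with hc0
  have hint0 : 0 ≤ ∫ t in ball (0 : ℂ) 2, ‖CutA.ker t‖ := integral_nonneg fun _ => norm_nonneg _
  have hc00 : 0 ≤ c0 := mul_nonneg (by linarith) hint0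
  have hdd : 0 ≤ 2 * c0 / d := by positivity
  refine ⟨c0 + 2 * c0 / d, by linarith, ?_⟩
  intro v B hB hv hvB
  have hFs := CUT_F_smooth hχ hv
  have hFn : ∀ z, ‖CUT_F χ v z‖ ≤ (C1 + C2) * B := by
    intro z
    refine (Complex.norm_le_abs_re_add_abs_im _).trans ?_
    simp only [CUT_F]
    have h1 : |v z * CUT_D 1 χ z / 2| ≤ B * C1 / 2 := by
      rw [abs_div, abs_mul, abs_two]
      exact div_le_div_of_nonneg_right (mul_le_mul (hvB z) (hC1 z) (abs_nonneg _) hB) two_pos.le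
    have h2 : |v z * CUT_D Complex.I χ z / 2| ≤ B * C2 / 2 := by
      rw [abs_div, abs_mul, abs_two]
      exact div_le_div_of_nonneg_right (mul_le_mul (hvB z) (hC2 z) (abs_nonneg _) hB) two_pos.le
    nlinarith [mul_nonneg hB hC10, mul_nonneg hB hC20]
  have hF0 : ∀ z, z ∉ ball (0 : ℂ) R → CUT_F χ v z = 0 := by
    intro z hz
    unfold CUT_F
    rw [hz0 1 z hz, hz0 Complex.I z hz]
    apply Complex.ext <;> simp
  have hFc : HasCompactSupport (CUT_F χ v) := by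
    refine HasCompactSupport.of_support_subset_isCompact (isCompact_closedBall (0 : ℂ) R) ?_
    intro z hz
    by_contra h
    exact hz (hF0 z (fun h' => h (ball_subset_closedBall h')))
  set G := CutA.CTr (CUT_F χ v) with hG
  have hGs : ContDiff ℝ ∞ G := CutA.CTr_smooth hFs hFc
  have hGd : ∀ z, CutA.dbar G z = CUT_F χ v z := CutA.CTr_dbar hFs hFc
  have hGb : ∀ z ∈ ball (0 : ℂ) 1, ‖G z‖ ≤ c0 * B := by
    intro z hz
    have h := CutA.CTr_bound hFn (fun w hw => hF0 w (fun h => hw (ball_subset_ball (by linarith) h))) hz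
    rw [hc0]
    calc ‖G z‖ ≤ (C1 + C2) * B * ∫ t in ball (0 : ℂ) 2, ‖CutA.ker t‖ := h
      _ = _ := by ring
  have hGdd : ∀ z, R + d ≤ ‖z‖ → ‖z‖ ≤ 4 / 5 → ∀ w : ℂ, ‖fderiv ℝ G z w‖ ≤ c0 * B / (d / 2) * ‖w‖ := by
    intro z hz1 hz2 w
    refine CutA.CTr_deriv_bound hFs hFc (by positivity) ?_ ?_ w
    · intro y hy
      refine hF0 y ?_
      intro h
      have h1 : ‖y‖ < R := by simpa using h
      have h2 : ‖y - z‖ ≤ d / 2 := by simpa [dist_eq_norm] using hy
      have h3 : ‖z‖ ≤ ‖y‖ + ‖y - z‖ := by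
        calc ‖z‖ = ‖y - (y - z)‖ := by ring_nf
          _ ≤ ‖y‖ + ‖y - z‖ := norm_sub_le _ _
      linarith
    · intro y hy
      refine hGb y ?_
      have h2 : ‖y - z‖ ≤ d / 2 := by simpa [dist_eq_norm] using hy
      simp only [mem_ball, dist_zero_right]
      have h3 : ‖y‖ ≤ ‖z‖ + ‖y - z‖ := by
        calc ‖y‖ = ‖z + (y - z)‖ := by ring_nf
          _ ≤ ‖z‖ + ‖y - z‖ := norm_add_le _ _
      linarith
  have hc1 : ∀ z, R + d ≤ ‖z‖ → ‖z‖ ≤ 4 / 5 → ∀ w : ℂ, ‖w‖ = 1 → ‖fderiv ℝ G z w‖ ≤ (c0 + 2 * c0 / d) * B := by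
    intro z h1 h2 w hw
    refine (hGdd z h1 h2 w).trans ?_
    rw [hw, mul_one]
    have e : c0 * B / (d / 2) = 2 * c0 / d * B := by
      field_simp
    rw [e]
    nlinarith [mul_nonneg hc00 hB]
  refine ⟨fun z => (G z).re, Complex.reCLM.contDiff.comp hGs, ?_, ?_, ?_⟩
  · intro z hz
    refine (Complex.abs_re_le_norm _).trans ((hGb z hz).trans ?_)
    nlinarith [mul_nonneg hdd hB]
  · intro z h1 h2
    rw [CUT_re hGs, CUT_re hGs]
    exact ⟨(Complex.abs_re_le_norm _).trans (hc1 z h1 h2 1 (by simp)),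
      (Complex.abs_re_le_norm _).trans (hc1 z h1 h2 Complex.I (by simp))⟩
  · exact CUT_pot_eq hχ hv hGs hGd

/-! ### Positivity -/

theorem CUT_smul {f : ℂ → ℝ} (hf : ContDiff ℝ ∞ f) (c : ℝ) (z : ℂ) : lap (fun z => c * f z) z = c * lap f z := by
  rw [CUT_lap_mul (f := fun _ => c) contDiff_const hf]
  have h1 : lap (fun _ : ℂ => c) z = 0 := by
    unfold lap
    rw [iteratedFDeriv_const_of_ne (by norm_num)]
    simp
  have h2 : ∀ w : ℂ, CUT_D w (fun _ : ℂ => c) z = 0 := by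
    intro w
    unfold CUT_D
    simp
  rw [h1, h2, h2]
  ring

theorem CUT_lap_add {f g : ℂ → ℝ} (hf : ContDiff ℝ ∞ f) (hg : ContDiff ℝ ∞ g) (z : ℂ) :
    lap (fun z => f z + g z) z = lap f z + lap g z :=
  IG_lap_add (hf.of_le (WithTop.coe_le_coe.2 le_top)).contDiffAt (hg.of_le (WithTop.coe_le_coe.2 le_top)).contDiffAt

theorem CUT_int {f S : ℂ → ℝ} (hf : Continuous f) (h0 : ∀ z, z ∉ ball (0 : ℂ) (4 / 5) → f z = 0)
    (hS : IntegrableOn S (ball 0 (4 / 5))) : Integrable (fun z => f z * S z) := by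
  obtain ⟨C, -, hC⟩ := CUT_bdd hf h0
  have h1 : IntegrableOn (fun z => f z * S z) (ball 0 (4 / 5)) :=
    hS.bdd_mul hf.aestronglyMeasurable (Eventually.of_forall hC)
  refine (integrableOn_iff_integrable_of_support_subset ?_).1 h1
  intro z hz
  by_contra h
  exact hz (by simp only [h0 z h, zero_mul])

theorem CUT_lap0 {κ : ℂ → ℝ} (hs : tsupport κ ⊆ ball 0 (4 / 5)) : ∀ z, z ∉ ball (0 : ℂ) (4 / 5) → lap κ z = 0 :=
  fun _ hz => IG_lap_supp (fun h => hz (hs h))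

theorem CUT_pos {S κ ψ : ℂ → ℝ} {A M c : ℝ} (hM : 0 ≤ M) (hc : 0 ≤ c) (hS : IntegrableOn S (ball 0 (4 / 5)))
    (hSA : ∫ z in ball (0 : ℂ) (4 / 5), |S z| ≤ A)
    (hpos : ∀ κ : ℂ → ℝ, ContDiff ℝ ∞ κ → HasCompactSupport κ → tsupport κ ⊆ ball 0 (4 / 5) → (∀ z, 0 ≤ κ z) →
        0 ≤ ∫ z, lap κ z * S z)
    (hκ : ContDiff ℝ ∞ κ) (hκc : HasCompactSupport κ) (hκs : tsupport κ ⊆ ball 0 (4 / 5))
    (hψ : ContDiff ℝ ∞ ψ) (hψc : HasCompactSupport ψ) (hψs : tsupport ψ ⊆ ball 0 (4 / 5))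
    (hb : ∀ z, |κ z| ≤ M * ψ z) (hl : ∀ z, |lap ψ z| ≤ c) : |∫ z, lap κ z * S z| ≤ M * c * A := by
  have hiκ := CUT_int (IG_lap_cont hκ) (CUT_lap0 hκs) hS
  have hiψ := CUT_int (IG_lap_cont hψ) (CUT_lap0 hψs) hS
  have h1 : ∫ z, lap ψ z * S z ≤ c * A := by
    have e : ∫ z, lap ψ z * S z = ∫ z in ball (0 : ℂ) (4 / 5), lap ψ z * S z := by
      refine (setIntegral_eq_integral_of_forall_compl_eq_zero ?_).symm
      intro z hz
      rw [CUT_lap0 hψs z hz, zero_mul]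
    rw [e]
    calc ∫ z in ball (0 : ℂ) (4 / 5), lap ψ z * S z ≤ ∫ z in ball (0 : ℂ) (4 / 5), c * |S z| := by
          refine setIntegral_mono hiψ.integrableOn (hS.abs.const_mul c) fun z => ?_
          calc lap ψ z * S z ≤ |lap ψ z * S z| := le_abs_self _
            _ = |lap ψ z| * |S z| := abs_mul _ _
            _ ≤ c * |S z| := mul_le_mul_of_nonneg_right (hl z) (abs_nonneg _)
      _ = c * ∫ z in ball (0 : ℂ) (4 / 5), |S z| := integral_const_mul _ _
      _ ≤ c * A := mul_le_mul_of_nonneg_left hSA hc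
  have key : ∀ e : ℝ, |e| = 1 → 0 ≤ M * (∫ z, lap ψ z * S z) + e * ∫ z, lap κ z * S z := by
    intro e he
    have hs1 : ContDiff ℝ ∞ (fun z => M * ψ z + e * κ z) := (contDiff_const.mul hψ).add (contDiff_const.mul hκ)
    have hts : tsupport (fun z => M * ψ z + e * κ z) ⊆ tsupport ψ ∪ tsupport κ := by
      refine closure_minimal ?_ ((isClosed_tsupport ψ).union (isClosed_tsupport κ))
      intro z hz
      by_contra h
      rw [mem_union, not_or] at h
      apply hz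
      simp only [image_eq_zero_of_notMem_tsupport h.1, image_eq_zero_of_notMem_tsupport h.2, mul_zero, add_zero]
    have hcs : HasCompactSupport (fun z => M * ψ z + e * κ z) :=
      HasCompactSupport.of_support_subset_isCompact (hψc.isCompact.union hκc.isCompact)
        ((subset_tsupport _).trans hts)
    have h2 := hpos (fun z => M * ψ z + e * κ z) hs1 hcs (hts.trans (union_subset hψs hκs)) (by
      intro z
      have h3 := hb z
      have h4 : |e * κ z| ≤ M * ψ z := by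
        rw [abs_mul, he, one_mul]
        exact h3
      have h5 := neg_abs_le (e * κ z)
      linarith)
    have e1 : (fun z => lap (fun z => M * ψ z + e * κ z) z * S z) =
        fun z => M * (lap ψ z * S z) + e * (lap κ z * S z) := by
      funext z
      rw [CUT_lap_add (f := fun z => M * ψ z) (g := fun z => e * κ z) (contDiff_const.mul hψ) (contDiff_const.mul hκ),
        CUT_smul hψ, CUT_smul hκ]
      ring
    rw [e1, integral_add (hiψ.const_mul M) (hiκ.const_mul e), integral_const_mul, integral_const_mul] at h2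
    exact h2
  have k1 := key 1 (by simp)
  have k2 := key (-1) (by simp)
  have h3 : M * (∫ z, lap ψ z * S z) ≤ M * c * A := by
    rw [mul_assoc]
    exact mul_le_mul_of_nonneg_left h1 hM
  rw [abs_le]
  constructor <;> linarith

/-! ### The theorem -/

theorem CUT_congr {f g : ℂ → ℝ} {z : ℂ} (h : f =ᶠ[𝓝 z] g) : lap f z = lap g z := by
  have h1 := (h.iteratedFDeriv (𝕜 := ℝ) 2).self_of_nhds
  unfold lap
  rw [h1]

theorem CUT_ext {b v : ℂ → ℝ} (hb : ContDiff ℝ ∞ b) (hs : tsupport b ⊆ ball 0 1) (hv : ContDiffOn ℝ ∞ v (ball 0 1)) :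
    ContDiff ℝ ∞ (fun z => b z * v z) := by
  rw [contDiff_iff_contDiffAt]
  intro x
  by_cases hx : x ∈ tsupport b
  · exact hb.contDiffAt.mul (hv.contDiffAt (isOpen_ball.mem_nhds (hs hx)))
  · have h1 : (fun z => b z * v z) =ᶠ[𝓝 x] fun _ => 0 := by
      filter_upwards [notMem_tsupport_iff_eventuallyEq.1 hx] with z hz
      rw [hz, Pi.zero_apply, zero_mul]
    exact (contDiffAt_const (c := (0 : ℝ))).congr_of_eventuallyEq h1

theorem CUT_supp_mul {f g : ℂ → ℝ} : tsupport (fun z => f z * g z) ⊆ tsupport f := tsupport_mul_subset_left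

theorem CUT : CUT_stmt := by
  intro χ hχ hχc hχs hχ0
  obtain ⟨R, ⟨hR0, hR1⟩, hsR⟩ := exists_pos_lt_subset_ball (by norm_num : (0 : ℝ) < 4 / 5) (isClosed_tsupport χ) hχs
  set d : ℝ := (4 / 5 - R) / 3 with hd
  have hd0 : 0 < d := by rw [hd]; linarith
  have hd1 : d ≤ 4 / 15 := by rw [hd]; linarith
  have hRd : R + 2 * d < 4 / 5 := by rw [hd]; linarith
  let b1 : ContDiffBump (0 : ℂ) := ⟨R + d, R + 2 * d, by linarith, by linarith⟩
  let b2 : ContDiffBump (0 : ℂ) := ⟨4 / 5, 9 / 10, by norm_num, by norm_num⟩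
  have hb1s : ContDiff ℝ ∞ (b1 : ℂ → ℝ) := b1.contDiff
  have hb2s : ContDiff ℝ ∞ (b2 : ℂ → ℝ) := b2.contDiff
  have hb1t : tsupport (b1 : ℂ → ℝ) = closedBall 0 (R + 2 * d) := b1.tsupport_eq
  have hb2t : tsupport (b2 : ℂ → ℝ) = closedBall 0 (9 / 10) := b2.tsupport_eq
  have hb1c : HasCompactSupport (b1 : ℂ → ℝ) := b1.hasCompactSupport
  have hb1t' : tsupport (b1 : ℂ → ℝ) ⊆ ball 0 (4 / 5) := by
    rw [hb1t]
    exact closedBall_subset_ball hRd
  have hb2t' : tsupport (b2 : ℂ → ℝ) ⊆ ball 0 1 := by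
    rw [hb2t]
    exact closedBall_subset_ball (by norm_num)
  have hb1one : ∀ z ∈ closedBall (0 : ℂ) (R + d), b1 z = 1 := fun z hz => b1.one_of_mem_closedBall hz
  have hb2one : ∀ z ∈ closedBall (0 : ℂ) (4 / 5), b2 z = 1 := fun z hz => b2.one_of_mem_closedBall hz
  obtain ⟨c1, hc10, hc1⟩ := CUT_bdd (IG_lap_cont hχ) (CUT_lap0 hχs)
  obtain ⟨c2, hc20, hc2⟩ := CUT_bdd (IG_lap_cont hb1s) (CUT_lap0 hb1t')
  have hDb : ∀ (w z : ℂ), z ∉ ball (0 : ℂ) (4 / 5) → CUT_D w b1 z = 0 :=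
    fun w z hz => CUT_D_supp (fun h => hz (hb1t' h)) w
  obtain ⟨c3, hc30, hc3⟩ := CUT_bdd (CUT_D_smooth hb1s 1).continuous (hDb 1)
  obtain ⟨c4, hc40, hc4⟩ := CUT_bdd (CUT_D_smooth hb1s Complex.I).continuous (hDb Complex.I)
  obtain ⟨c, hc0, hpot⟩ := CUT_pot hχ hRd.le hd0 hd1 hsR
  set V0 : ℝ := volume.real (ball (0 : ℂ) (4 / 5)) with hV0
  have hV00 : 0 ≤ V0 := measureReal_nonneg
  set m : ℝ := c1 + 2 * c * c2 + (c3 + c4) * c with hm
  have hm0 : 0 ≤ m := by positivity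
  refine ⟨2 * c1 + 4 * c * c2 + m * V0 + 1, by positivity, ?_⟩
  intro S₁ S₂ v l A B hl hA hB hS1 hS2 hA1 hA2 hpos hH hv hvB
  -- replace v by V
  set V : ℂ → ℝ := fun z => b2 z * v z with hV
  have hVs : ContDiff ℝ ∞ V := CUT_ext hb2s hb2t' hv
  have hVB : ∀ z, |V z| ≤ B := by
    intro z
    rw [hV]
    simp only
    by_cases hz : z ∈ ball (0 : ℂ) 1
    · rw [abs_mul, abs_of_nonneg b2.nonneg]
      calc b2 z * |v z| ≤ 1 * B := mul_le_mul b2.le_one (hvB z hz) (abs_nonneg _) zero_le_one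
        _ = B := one_mul B
    · rw [image_eq_zero_of_notMem_tsupport (fun h => hz (hb2t' h)), zero_mul, abs_zero]
      exact hB
  have hVv : ∀ z ∈ ball (0 : ℂ) (4 / 5), lap V z = lap v z := by
    intro z hz
    refine CUT_congr ?_
    filter_upwards [isOpen_ball.mem_nhds hz] with y hy
    rw [hV]
    simp only
    rw [hb2one y (ball_subset_closedBall hy), one_mul]
  obtain ⟨u, hus, hub, hud, hul⟩ := hpot V B hB hVs hVB
  -- the two test functions
  have hκ1 : ContDiff ℝ ∞ (fun z => χ z * V z) := hχ.mul hVs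
  have hκ1c : HasCompactSupport (fun z => χ z * V z) := hχc.mul_right
  have hκ1t : tsupport (fun z => χ z * V z) ⊆ ball 0 (4 / 5) := CUT_supp_mul.trans hχs
  have hκ2 : ContDiff ℝ ∞ (fun z => b1 z * u z) := hb1s.mul hus
  have hκ2c : HasCompactSupport (fun z => b1 z * u z) := hb1c.mul_right
  have hκ2t : tsupport (fun z => b1 z * u z) ⊆ ball 0 (4 / 5) := CUT_supp_mul.trans hb1t'
  -- the bounded remainder
  set b : ℂ → ℝ := fun z => V z * lap χ z + 2 * (u z * lap b1 z) +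
    (CUT_D 1 b1 z * CUT_D 1 u z + CUT_D Complex.I b1 z * CUT_D Complex.I u z) with hb
  have hbc : Continuous b := by
    have h1 := IG_lap_cont hχ
    have h2 := IG_lap_cont hb1s
    have h3 := fun w : ℂ => (CUT_D_smooth hb1s w).continuous
    have h4 := fun w : ℂ => (CUT_D_smooth hus w).continuous
    exact ((hVs.continuous.mul h1).add (continuous_const.mul (hus.continuous.mul h2))).add
      (((h3 1).mul (h4 1)).add ((h3 _).mul (h4 _)))
  have hb0 : ∀ z, z ∉ ball (0 : ℂ) (4 / 5) → b z = 0 := by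
    intro z hz
    rw [hb]
    simp only
    rw [CUT_lap0 hχs z hz, CUT_lap0 hb1t' z hz, hDb 1 z hz, hDb Complex.I z hz]
    ring
  have hident : ∀ z, χ z * lap V z = lap (fun z => χ z * V z) z - 2 * lap (fun z => b1 z * u z) z + b z := by
    intro z
    have h1 := CUT_lap_mul hχ hVs z
    have h2 := CUT_lap_mul hb1s hus z
    have h3 := hul z
    have h4 : b1 z * lap u z = lap u z := by
      by_cases hz : z ∈ ball (0 : ℂ) R
      · have h5 : ‖z‖ < R := by simpa using hz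
        rw [hb1one z (by simp only [mem_closedBall, dist_zero_right]; linarith), one_mul]
      · have h5 : z ∉ tsupport χ := fun h => hz (hsR h)
        have h6 : lap u z = 0 := by
          rw [h3, CUT_D_supp h5, CUT_D_supp h5, IG_lap_supp h5]
          ring
        rw [h6, mul_zero]
    rw [h1, h2, h4, h3, hb]
    simp only
    ring
  have hbm : ∀ z, |b z| ≤ m * B := by
    intro z
    by_cases hz : z ∈ ball (0 : ℂ) (4 / 5)
    · have hz1 : z ∈ ball (0 : ℂ) 1 := ball_subset_ball (by norm_num) hz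
      have hzn : ‖z‖ < 4 / 5 := by simpa using hz
      have t1 : |V z * lap χ z| ≤ B * c1 := by
        rw [abs_mul]
        exact mul_le_mul (hVB z) (hc1 z) (abs_nonneg _) hB
      have t2 : |2 * (u z * lap b1 z)| ≤ 2 * (c * B * c2) := by
        rw [abs_mul, abs_two, abs_mul]
        exact mul_le_mul_of_nonneg_left (mul_le_mul (hub z hz1) (hc2 z) (abs_nonneg _) (by positivity)) two_pos.le
      have t3 : |CUT_D 1 b1 z * CUT_D 1 u z + CUT_D Complex.I b1 z * CUT_D Complex.I u z| ≤ (c3 + c4) * (c * B) := by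
        by_cases hzd : R + d ≤ ‖z‖
        · obtain ⟨a1, a2⟩ := hud z hzd hzn.le
          have h1 : |CUT_D 1 b1 z * CUT_D 1 u z| ≤ c3 * (c * B) := by
            rw [abs_mul]
            exact mul_le_mul (hc3 z) a1 (abs_nonneg _) hc30
          have h2 : |CUT_D Complex.I b1 z * CUT_D Complex.I u z| ≤ c4 * (c * B) := by
            rw [abs_mul]
            exact mul_le_mul (hc4 z) a2 (abs_nonneg _) hc40
          refine (abs_add_le _ _).trans ?_
          linarith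
        · push Not at hzd
          have h1 : (b1 : ℂ → ℝ) =ᶠ[𝓝 z] fun _ => 1 := by
            have h2 : z ∈ ball (0 : ℂ) (R + d) := by simpa using hzd
            filter_upwards [isOpen_ball.mem_nhds h2] with y hy
            exact hb1one y (ball_subset_closedBall hy)
          have h2 : ∀ w : ℂ, CUT_D w b1 z = 0 := by
            intro w
            unfold CUT_D
            rw [h1.fderiv_eq]
            simp
          rw [h2, h2, zero_mul, zero_mul, add_zero, abs_zero]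
          positivity
      calc |b z| ≤ |V z * lap χ z| + |2 * (u z * lap b1 z)| +
            |CUT_D 1 b1 z * CUT_D 1 u z + CUT_D Complex.I b1 z * CUT_D Complex.I u z| := abs_add_three _ _ _
        _ ≤ B * c1 + 2 * (c * B * c2) + (c3 + c4) * (c * B) := by linarith
        _ = m * B := by rw [hm]; ring
    · rw [hb0 z hz, abs_zero]
      positivity
  -- the integrals
  set H : ℂ → ℝ := fun z => l * (S₁ z - S₂ z) with hHd
  have hHi : IntegrableOn H (ball 0 (4 / 5)) := (hS1.sub hS2).const_mul l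
  have hlc1 := IG_lap_cont hκ1
  have hlc2 := IG_lap_cont hκ2
  have i1 := CUT_int hlc1 (CUT_lap0 hκ1t) hHi
  have i2 := CUT_int hlc2 (CUT_lap0 hκ2t) hHi
  have i3 := CUT_int hbc hb0 hHi
  have e0 : ∫ z, χ z * (l * (S₁ z - S₂ z)) * lap v z =
      (∫ z, lap (fun z => χ z * V z) z * H z) - 2 * (∫ z, lap (fun z => b1 z * u z) z * H z) + ∫ z, b z * H z := by
    have j1 := integral_add (μ := (volume : Measure ℂ)) (f := fun z => lap (fun z => χ z * V z) z * H z -
      2 * (lap (fun z => b1 z * u z) z * H z)) (g := fun z => b z * H z) (i1.sub (i2.const_mul 2)) i3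
    have j2 := integral_sub (μ := (volume : Measure ℂ)) i1 (i2.const_mul 2)
    have j3 : ∫ z, 2 * (lap (fun z => b1 z * u z) z * H z) = 2 * ∫ z, lap (fun z => b1 z * u z) z * H z :=
      integral_const_mul _ _
    rw [← j3, ← j2, ← j1]
    refine integral_congr_ae (Eventually.of_forall fun z => ?_)
    simp only
    by_cases hz : z ∈ ball (0 : ℂ) (4 / 5)
    · rw [← hVv z hz]
      have := hident z
      calc χ z * (l * (S₁ z - S₂ z)) * lap V z = (χ z * lap V z) * H z := by rw [hHd]; ring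
        _ = _ := by rw [this]; ring
    · rw [image_eq_zero_of_notMem_tsupport (fun h => hz (hχs h)), CUT_lap0 hκ1t z hz, CUT_lap0 hκ2t z hz, hb0 z hz]
      ring
  have hsplit : ∀ κ : ℂ → ℝ, ContDiff ℝ ∞ κ → tsupport κ ⊆ ball 0 (4 / 5) →
      ∫ z, lap κ z * H z = l * ((∫ z, lap κ z * S₁ z) - ∫ z, lap κ z * S₂ z) := by
    intro κ hκ hκt
    rw [← integral_sub (CUT_int (IG_lap_cont hκ) (CUT_lap0 hκt) hS1) (CUT_int (IG_lap_cont hκ) (CUT_lap0 hκt) hS2),
      ← integral_const_mul]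
    refine integral_congr_ae (Eventually.of_forall fun z => ?_)
    simp only [hHd]
    ring
  have hp1 := fun (κ : ℂ → ℝ) (a : ContDiff ℝ ∞ κ) (b : HasCompactSupport κ) (c : tsupport κ ⊆ ball 0 (4 / 5))
    (d : ∀ z, 0 ≤ κ z) => (hpos κ a b c d).1
  have hp2 := fun (κ : ℂ → ℝ) (a : ContDiff ℝ ∞ κ) (b : HasCompactSupport κ) (c : tsupport κ ⊆ ball 0 (4 / 5))
    (d : ∀ z, 0 ≤ κ z) => (hpos κ a b c d).2
  have hbd1 : ∀ z, |χ z * V z| ≤ B * χ z := by
    intro z
    rw [abs_mul, abs_of_nonneg (hχ0 z), mul_comm]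
    exact mul_le_mul_of_nonneg_right (hVB z) (hχ0 z)
  have hbd2 : ∀ z, |b1 z * u z| ≤ c * B * b1 z := by
    intro z
    by_cases hz : z ∈ ball (0 : ℂ) 1
    · rw [abs_mul, abs_of_nonneg (b1.nonneg (x := z)), mul_comm]
      exact mul_le_mul_of_nonneg_right (hub z hz) b1.nonneg
    · have h1 : b1 z = 0 :=
        image_eq_zero_of_notMem_tsupport (fun h => hz (ball_subset_ball (by norm_num) (hb1t' h)))
      rw [h1]
      simp
  have q11 := CUT_pos hB hc10 hS1 hA1 hp1 hκ1 hκ1c hκ1t hχ hχc hχs hbd1 hc1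
  have q12 := CUT_pos hB hc10 hS2 hA2 hp2 hκ1 hκ1c hκ1t hχ hχc hχs hbd1 hc1
  have q21 := CUT_pos (mul_nonneg hc0 hB) hc20 hS1 hA1 hp1 hκ2 hκ2c hκ2t hb1s hb1c hb1t' hbd2 hc2
  have q22 := CUT_pos (mul_nonneg hc0 hB) hc20 hS2 hA2 hp2 hκ2 hκ2c hκ2t hb1s hb1c hb1t' hbd2 hc2
  have r1 : |∫ z, lap (fun z => χ z * V z) z * H z| ≤ l * (2 * (B * c1 * A)) := by
    rw [hsplit _ hκ1 hκ1t, abs_mul, abs_of_pos hl]
    refine mul_le_mul_of_nonneg_left ((abs_sub _ _).trans ?_) hl.le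
    linarith
  have r2 : |∫ z, lap (fun z => b1 z * u z) z * H z| ≤ l * (2 * (c * B * c2 * A)) := by
    rw [hsplit _ hκ2 hκ2t, abs_mul, abs_of_pos hl]
    refine mul_le_mul_of_nonneg_left ((abs_sub _ _).trans ?_) hl.le
    linarith
  have r3 : |∫ z, b z * H z| ≤ m * B * V0 := by
    have e : ∫ z, b z * H z = ∫ z in ball (0 : ℂ) (4 / 5), b z * H z := by
      refine (setIntegral_eq_integral_of_forall_compl_eq_zero ?_).symm
      intro z hz
      rw [hb0 z hz, zero_mul]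
    rw [e, ← Real.norm_eq_abs]
    refine norm_setIntegral_le_of_norm_le_const_ae' measure_ball_lt_top ?_
    filter_upwards [hH] with z hz hzb
    obtain ⟨h1, h2⟩ := hz hzb
    rw [Real.norm_eq_abs, abs_mul]
    have h3 : |H z| ≤ 1 := by
      rw [abs_of_nonneg h1]
      exact h2
    calc |b z| * |H z| ≤ m * B * 1 := mul_le_mul (hbm z) h3 (abs_nonneg _) (by positivity)
      _ = m * B := mul_one _
  rw [e0]
  have hlAB : 0 ≤ l * A * B := by positivity
  calc |(∫ z, lap (fun z => χ z * V z) z * H z) - 2 * (∫ z, lap (fun z => b1 z * u z) z * H z) + ∫ z, b z * H z| ≤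
        |∫ z, lap (fun z => χ z * V z) z * H z| + 2 * |∫ z, lap (fun z => b1 z * u z) z * H z| + |∫ z, b z * H z| := by
        refine (abs_add_le _ _).trans ?_
        have h1 := abs_sub (∫ z, lap (fun z => χ z * V z) z * H z) (2 * (∫ z, lap (fun z => b1 z * u z) z * H z))
        rw [abs_mul, abs_two] at h1
        linarith
    _ ≤ l * (2 * (B * c1 * A)) + 2 * (l * (2 * (c * B * c2 * A))) + m * B * V0 := by linarith
    _ ≤ (2 * c1 + 4 * c * c2 + m * V0 + 1) * B * (1 + l * A) := by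
        have k1 : 0 ≤ (2 * c1 + 4 * c * c2) * B := by positivity
        have k2 : 0 ≤ (m * V0 + 1) * (l * A * B) := by positivity
        nlinarith

end Pool.Agent.P2I
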