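import Mathlib

/-!
# Project P2, row CUT, part A: the formula of Cauchy and Pompeiu

A copy of the proofs of helper84 (`BR/CPF.lean`) and helper92 (`MP/MI.lean`), without their imports.
-/

set_option autoImplicit false

open Complex Metric Set Filter Topology MeasureTheory

noncomputable section

namespace Pool.Agent.P2I.CutA

/-- `∂/∂z̄`. -/
def dbar (φ : ℂ → ℂ) (z : ℂ) : ℂ := (fderiv ℝ φ z 1 + I * fderiv ℝ φ z I) / 2

theorem MI_int0 (R : ℝ) : IntegrableOn (fun z : ℂ => 1 / ‖z‖) (ball 0 R) := by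
  rw [integrableOn_fun_norm_addHaar (μ := (volume : Measure ℂ)) (f := fun y : ℝ => 1 / y)]
  have h : EqOn (fun _ : ℝ => (1 : ℝ)) (fun y : ℝ => y ^ (Module.finrank ℝ ℂ - 1) • (1 / y))
      (Ioo 0 R) := by
    intro y hy
    have hy0 : y ≠ 0 := hy.1.ne'
    simp only [Complex.finrank_real_complex, smul_eq_mul]
    norm_num
    field_simp
  refine IntegrableOn.congr_fun ?_ h measurableSet_Ioo
  exact integrableOn_const (by simp) (by simp)

theorem MI_pre (a : ℂ) (R : ℝ) : (fun z : ℂ => z - a) ⁻¹' ball 0 R = ball a R := by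
  ext z
  simp [dist_eq_norm]

theorem MI_int (a : ℂ) (R : ℝ) : IntegrableOn (fun z : ℂ => 1 / ‖z - a‖) (ball a R) := by
  have h := (measurePreserving_sub_right (volume : Measure ℂ) a).integrableOn_comp_preimage
    (MeasurableEquiv.subRight a).measurableEmbedding (f := fun z : ℂ => 1 / ‖z‖) (s := ball 0 R)
  rw [MI_pre] at h
  exact h.2 (MI_int0 R)

/-- the unit vector with argument `t`. -/
def CPF_e (t : ℝ) : ℂ := Real.cos t + Real.sin t * I

/-- radial derivative. -/
def CPF_A (ψ : ℂ → ℂ) (p : ℝ × ℝ) : ℂ := fderiv ℝ ψ (p.1 * CPF_e p.2) (CPF_e p.2)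

/-- angular derivative. -/
def CPF_B (ψ : ℂ → ℂ) (p : ℝ × ℝ) : ℂ := fderiv ℝ ψ (p.1 * CPF_e p.2) (I * CPF_e p.2)

theorem CPF_e_cont : Continuous CPF_e := by
  unfold CPF_e
  fun_prop

theorem CPF_e_norm (t : ℝ) : ‖CPF_e t‖ = 1 := by
  have h : CPF_e t = Complex.exp (t * I) := by
    rw [CPF_e, Complex.exp_mul_I]
    push_cast
    rfl
  rw [h, Complex.norm_exp_ofReal_mul_I]

theorem CPF_e_der (t : ℝ) : HasDerivAt CPF_e (I * CPF_e t) t := by
  have h1 : HasDerivAt (fun t : ℝ => ((Real.cos t : ℝ) : ℂ)) ((-Real.sin t : ℝ) : ℂ) t :=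
    (Real.hasDerivAt_cos t).ofReal_comp
  have h2 : HasDerivAt (fun t : ℝ => ((Real.sin t : ℝ) : ℂ)) ((Real.cos t : ℝ) : ℂ) t :=
    (Real.hasDerivAt_sin t).ofReal_comp
  have h3 := h1.add (h2.mul_const I)
  have h4 : I * CPF_e t = ((-Real.sin t : ℝ) : ℂ) + ((Real.cos t : ℝ) : ℂ) * I := by
    unfold CPF_e
    push_cast
    linear_combination (Complex.sin t) * Complex.I_mul_I
  rw [h4]
  exact h3

theorem CPF_A_cont {ψ : ℂ → ℂ} (h : ContDiff ℝ 1 ψ) : Continuous (CPF_A ψ) := by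
  have h1 := h.continuous_fderiv_apply one_ne_zero
  have h2 : Continuous fun p : ℝ × ℝ => ((p.1 : ℂ) * CPF_e p.2, CPF_e p.2) := by
    have := CPF_e_cont
    fun_prop
  exact h1.comp h2

theorem CPF_B_cont {ψ : ℂ → ℂ} (h : ContDiff ℝ 1 ψ) : Continuous (CPF_B ψ) := by
  have h1 := h.continuous_fderiv_apply one_ne_zero
  have h2 : Continuous fun p : ℝ × ℝ => ((p.1 : ℂ) * CPF_e p.2, I * CPF_e p.2) := by
    have := CPF_e_cont
    fun_prop
  exact h1.comp h2

theorem CPF_supp {ψ : ℂ → ℂ} (h : HasCompactSupport ψ) : ∃ R > (0 : ℝ), (∀ w, R < ‖w‖ → ψ w = 0) ∧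
    ∀ w, R < ‖w‖ → fderiv ℝ ψ w = 0 := by
  obtain ⟨R, hR⟩ := (IsCompact.isBounded h).subset_closedBall (0 : ℂ)
  refine ⟨max R 1, by positivity, fun w hw => ?_, fun w hw => ?_⟩
  · by_contra h0
    have h1 := hR (subset_tsupport ψ h0)
    rw [mem_closedBall_zero_iff] at h1
    exact absurd (lt_of_le_of_lt (le_max_left R 1) hw) (not_lt.2 h1)
  · by_contra h0
    have h1 := hR (support_fderiv_subset ℝ h0)
    rw [mem_closedBall_zero_iff] at h1
    exact absurd (lt_of_le_of_lt (le_max_left R 1) hw) (not_lt.2 h1)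

theorem CPF_norm (r t : ℝ) : ‖(r : ℂ) * CPF_e t‖ = |r| := by
  rw [norm_mul, CPF_e_norm, mul_one, Complex.norm_real, Real.norm_eq_abs]

theorem CPF_io {G : ℝ × ℝ → ℂ} (hG : Continuous G) {R : ℝ} (h0 : ∀ p : ℝ × ℝ, R < |p.1| → G p = 0) :
    IntegrableOn G (Ioi (0 : ℝ) ×ˢ Ioo (-Real.pi) Real.pi) := by
  have h1 : IntegrableOn G (Icc 0 R ×ˢ Icc (-Real.pi) Real.pi) :=
    hG.continuousOn.integrableOn_compact (isCompact_Icc.prod isCompact_Icc)
  refine h1.of_forall_sdiff_eq_zero (measurableSet_Ioi.prod measurableSet_Ioo) ?_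
  rintro ⟨r, t⟩ ⟨⟨hr, ht⟩, h2⟩
  apply h0
  by_contra h3
  apply h2
  have hr' : 0 < r := hr
  refine ⟨⟨hr'.le, ?_⟩, Ioo_subset_Icc_self ht⟩
  have := not_lt.1 h3
  exact (le_abs_self r).trans this

theorem CPF_Aint {ψ : ℂ → ℂ} (h : ContDiff ℝ 1 ψ) (hs : HasCompactSupport ψ) :
    ∫ p in Ioi (0 : ℝ) ×ˢ Ioo (-Real.pi) Real.pi, CPF_A ψ p = -(2 * Real.pi) * ψ 0 := by
  obtain ⟨R, hR, hR1, hR2⟩ := CPF_supp hs
  have hio : IntegrableOn (CPF_A ψ) (Ioi (0 : ℝ) ×ˢ Ioo (-Real.pi) Real.pi) := by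
    refine CPF_io (CPF_A_cont h) (R := R) fun p hp => ?_
    rw [CPF_A, hR2 _ (by rw [CPF_norm]; exact hp)]
    rfl
  have h1 : ∫ p in Ioi (0 : ℝ) ×ˢ Ioo (-Real.pi) Real.pi, CPF_A ψ p =
      ∫ q in Ioo (-Real.pi) Real.pi ×ˢ Ioi (0 : ℝ), CPF_A ψ q.swap := by
    rw [Measure.volume_eq_prod, setIntegral_prod_swap]
  have hio2 : IntegrableOn (fun q : ℝ × ℝ => CPF_A ψ q.swap)
      (Ioo (-Real.pi) Real.pi ×ˢ Ioi (0 : ℝ)) ((volume : Measure ℝ).prod volume) := by
    have h3 : IntegrableOn (CPF_A ψ) (Ioi (0 : ℝ) ×ˢ Ioo (-Real.pi) Real.pi)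
      ((volume : Measure ℝ).prod volume) := hio
    exact h3.swap
  rw [h1, Measure.volume_eq_prod, setIntegral_prod _ hio2]
  have h4 : ∀ t : ℝ, ∫ r in Ioi (0 : ℝ), CPF_A ψ (t, r).swap = -ψ 0 := by
    intro t
    have hd : ∀ r ∈ Ici (0 : ℝ), HasDerivAt (fun r : ℝ => ψ (r * CPF_e t)) (CPF_A ψ (r, t)) r := by
      intro r _
      have hd1 : HasDerivAt (fun r : ℝ => (r : ℂ) * CPF_e t) (1 * CPF_e t) r :=
        (hasDerivAt_id r).ofReal_comp.mul_const _
      rw [one_mul] at hd1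
      have hd2 : HasFDerivAt ψ (fderiv ℝ ψ (r * CPF_e t)) ((fun r : ℝ => (r : ℂ) * CPF_e t) r) :=
        (h.differentiable one_ne_zero _).hasFDerivAt
      exact hd2.comp_hasDerivAt r hd1
    have hint : IntegrableOn (fun r => CPF_A ψ (r, t)) (Ioi (0 : ℝ)) := by
      have hc : Continuous fun r : ℝ => CPF_A ψ (r, t) := (CPF_A_cont h).comp (by fun_prop)
      have h5 : IntegrableOn (fun r => CPF_A ψ (r, t)) (Icc 0 R) :=
        hc.continuousOn.integrableOn_compact isCompact_Icc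
      refine h5.of_forall_sdiff_eq_zero measurableSet_Ioi ?_
      rintro r ⟨hr, h2⟩
      have hr' : 0 < r := hr
      rw [CPF_A, hR2]
      · rfl
      · rw [CPF_norm]
        by_contra h6
        exact h2 ⟨hr'.le, (le_abs_self r).trans (not_lt.1 h6)⟩
    have hlim : Tendsto (fun r : ℝ => ψ (r * CPF_e t)) atTop (𝓝 0) := by
      refine tendsto_const_nhds.congr' ?_
      filter_upwards [eventually_gt_atTop R] with r hr
      rw [hR1]
      rw [CPF_norm]
      exact hr.trans_le (le_abs_self r)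
    have h7 := integral_Ioi_of_hasDerivAt_of_tendsto' hd hint hlim
    simp only [Prod.swap_prod_mk]
    rw [h7]
    simp
  rw [setIntegral_congr_fun measurableSet_Ioo (fun t _ => h4 t)]
  rw [setIntegral_const]
  have h5 : (volume : Measure ℝ).real (Ioo (-Real.pi) Real.pi) = 2 * Real.pi := by
    rw [Real.volume_real_Ioo_of_le (by linarith [Real.pi_pos])]
    ring
  rw [h5, Complex.real_smul]
  push_cast
  ring

theorem CPF_Bint {ψ : ℂ → ℂ} (h : ContDiff ℝ 1 ψ) (hs : HasCompactSupport ψ) :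
    ∫ p in Ioi (0 : ℝ) ×ˢ Ioo (-Real.pi) Real.pi, CPF_B ψ p = 0 := by
  obtain ⟨R, hR, hR1, hR2⟩ := CPF_supp hs
  have hio : IntegrableOn (CPF_B ψ) (Ioi (0 : ℝ) ×ˢ Ioo (-Real.pi) Real.pi)
      ((volume : Measure ℝ).prod volume) := by
    refine CPF_io (CPF_B_cont h) (R := R) fun p hp => ?_
    rw [CPF_B, hR2 _ (by rw [CPF_norm]; exact hp)]
    rfl
  rw [Measure.volume_eq_prod, setIntegral_prod _ hio]
  have h4 : ∀ r ∈ Ioi (0 : ℝ), ∫ t in Ioo (-Real.pi) Real.pi, CPF_B ψ (r, t) = 0 := by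
    intro r hr
    have hr0 : 0 < r := hr
    have hd : ∀ t ∈ uIcc (-Real.pi) Real.pi,
        HasDerivAt (fun t : ℝ => ψ (r * CPF_e t)) (r * CPF_B ψ (r, t)) t := by
      intro t _
      have hd1 : HasDerivAt (fun t : ℝ => (r : ℂ) * CPF_e t) (r * (I * CPF_e t)) t :=
        (CPF_e_der t).const_mul _
      have hd2 : HasFDerivAt ψ (fderiv ℝ ψ (r * CPF_e t)) ((fun t : ℝ => (r : ℂ) * CPF_e t) t) :=
        (h.differentiable one_ne_zero _).hasFDerivAt
      have hd3 := hd2.comp_hasDerivAt t hd1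
      have h5 : (fderiv ℝ ψ (r * CPF_e t)) (r * (I * CPF_e t)) = r * CPF_B ψ (r, t) := by
        have h6 : (r : ℂ) * (I * CPF_e t) = r • (I * CPF_e t) := by rw [Complex.real_smul]
        rw [h6, map_smul, Complex.real_smul]
        rfl
      rw [← h5]
      exact hd3
    have hc : Continuous fun t : ℝ => (r : ℂ) * CPF_B ψ (r, t) :=
      continuous_const.mul ((CPF_B_cont h).comp (by fun_prop))
    have h7 := intervalIntegral.integral_eq_sub_of_hasDerivAt hd (hc.intervalIntegrable _ _)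
    have h8 : CPF_e Real.pi = CPF_e (-Real.pi) := by
      unfold CPF_e
      simp
    rw [h8, sub_self, intervalIntegral.integral_const_mul] at h7
    have h9 := (mul_eq_zero.1 h7).resolve_left (by exact_mod_cast hr0.ne')
    rw [intervalIntegral.integral_of_le (by linarith [Real.pi_pos]),
      integral_Ioc_eq_integral_Ioo] at h9
    exact h9
  rw [setIntegral_congr_fun measurableSet_Ioi h4]
  simp

theorem CPF_dbar {ψ : ℂ → ℂ} (r t : ℝ) (hr : 0 < r) :
    r • (dbar ψ (r * CPF_e t) / (r * CPF_e t)) = (CPF_A ψ (r, t) + I * CPF_B ψ (r, t)) / 2 := by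
  have he : CPF_e t ≠ 0 := by
    intro h
    have := CPF_e_norm t
    rw [h, norm_zero] at this
    norm_num at this
  have hr0 : (r : ℂ) ≠ 0 := by exact_mod_cast hr.ne'
  set L := fderiv ℝ ψ (r * CPF_e t) with hL
  have h1 : L (CPF_e t) = Real.cos t * L 1 + Real.sin t * L I := by
    have h2 : CPF_e t = Real.cos t • (1 : ℂ) + Real.sin t • I := by
      simp [CPF_e, Complex.real_smul]
    rw [h2, map_add, map_smul, map_smul, Complex.real_smul, Complex.real_smul]
  have h3 : L (I * CPF_e t) = Real.cos t * L I - Real.sin t * L 1 := by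
    have h2 : I * CPF_e t = Real.cos t • I + (-Real.sin t) • (1 : ℂ) := by
      simp only [CPF_e, Complex.real_smul]
      push_cast
      linear_combination (Complex.sin t) * Complex.I_mul_I
    rw [h2, map_add, map_smul, map_smul, Complex.real_smul, Complex.real_smul]
    push_cast
    ring
  have h4 : (CPF_e t) * (Real.cos t - Real.sin t * I) = 1 := by
    unfold CPF_e
    have h5 : ((Real.cos t : ℝ) : ℂ) ^ 2 + ((Real.sin t : ℝ) : ℂ) ^ 2 = 1 := by
      rw [← Complex.ofReal_pow, ← Complex.ofReal_pow, ← Complex.ofReal_add]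
      rw [Real.cos_sq_add_sin_sq]
      simp
    linear_combination h5 - ((Real.sin t : ℝ) : ℂ) ^ 2 * Complex.I_sq
  have h6 : CPF_A ψ (r, t) = L (CPF_e t) := rfl
  have h7 : CPF_B ψ (r, t) = L (I * CPF_e t) := rfl
  rw [h6, h7, h1, h3, Complex.real_smul, dbar]
  rw [← hL]
  have h8 : (r : ℂ) * ((L 1 + I * L I) / 2 / (r * CPF_e t)) =
      (L 1 + I * L I) / 2 * (Real.cos t - Real.sin t * I) := by
    have h9 : ((Real.cos t : ℝ) : ℂ) - Real.sin t * I = (CPF_e t)⁻¹ := eq_inv_of_mul_eq_one_right h4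
    rw [h9]
    field_simp
  rw [h8]
  linear_combination (-(((Real.sin t : ℝ) : ℂ) * L I) / 2) * Complex.I_sq

theorem CPF_main (φ : ℂ → ℂ) (z : ℂ) (h : ContDiff ℝ 1 φ) (hs : HasCompactSupport φ) :
    Integrable (fun ζ : ℂ => dbar φ ζ / (ζ - z)) ∧ ∫ ζ : ℂ, dbar φ ζ / (ζ - z) = -Real.pi * φ z := by
  have hdc : Continuous (dbar φ) := by
    unfold dbar
    have h1 := h.continuous_fderiv one_ne_zero
    exact ((h1.clm_apply continuous_const).add
      (continuous_const.mul (h1.clm_apply continuous_const))).div_const 2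
  obtain ⟨R, hR, hR1, hR2⟩ := CPF_supp hs
  have hd0 : ∀ w, R < ‖w‖ → dbar φ w = 0 := by
    intro w hw
    simp [dbar, hR2 w hw]
  refine ⟨?_, ?_⟩
  · have h1 : IntegrableOn (fun ζ : ℂ => dbar φ ζ / (ζ - z)) (ball z (R + ‖z‖ + 1)) := by
      obtain ⟨C, hC⟩ := (isCompact_closedBall z (R + ‖z‖ + 1)).exists_bound_of_continuousOn
        hdc.continuousOn
      have h2 := (MI_int z (R + ‖z‖ + 1)).const_mul C
      refine Integrable.mono' h2 ?_ ?_
      · exact ((hdc.measurable.div (measurable_id.sub_const z))).aestronglyMeasurable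
      · filter_upwards [ae_restrict_mem measurableSet_ball] with w hw
        rw [norm_div, mul_one_div]
        exact div_le_div_of_nonneg_right (hC w (ball_subset_closedBall hw)) (norm_nonneg _)
    have h3 : IntegrableOn (fun ζ : ℂ => dbar φ ζ / (ζ - z)) univ := by
      refine h1.of_forall_sdiff_eq_zero MeasurableSet.univ ?_
      rintro w ⟨-, hw⟩
      rw [hd0, zero_div]
      rw [mem_ball, dist_eq_norm, not_lt] at hw
      have h4 := norm_sub_le w z
      linarith
    exact integrableOn_univ.1 h3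
  · set ψ : ℂ → ℂ := fun w => φ (w + z) with hψ
    have hψc : ContDiff ℝ 1 ψ := h.comp (contDiff_id.add contDiff_const)
    have hψs : HasCompactSupport ψ := hs.comp_homeomorph (Homeomorph.addRight z)
    have hψd : ∀ w, dbar ψ w = dbar φ (w + z) := by
      intro w
      have h1 : fderiv ℝ ψ w = fderiv ℝ φ (w + z) := fderiv_comp_add_right z
      simp only [dbar, h1]
    have h2 : ∫ ζ : ℂ, dbar φ ζ / (ζ - z) = ∫ w : ℂ, dbar ψ w / w := by
      rw [← integral_add_right_eq_self (fun ζ : ℂ => dbar φ ζ / (ζ - z)) z]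
      refine integral_congr_ae (Eventually.of_forall fun w => ?_)
      simp only [hψd, add_sub_cancel_right]
    rw [h2, ← Complex.integral_comp_polarCoord_symm]
    have h3 : ∀ p ∈ Complex.polarCoord.target,
        p.1 • (dbar ψ (Complex.polarCoord.symm p) / (Complex.polarCoord.symm p)) =
        (CPF_A ψ p + I * CPF_B ψ p) / 2 := by
      rintro ⟨r, t⟩ hp
      have hr : 0 < r := by
        rw [Complex.polarCoord_target] at hp
        exact hp.1
      have h4 : Complex.polarCoord.symm (r, t) = r * CPF_e t := by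
        rw [Complex.polarCoord_symm_apply]
        rfl
      rw [h4]
      exact CPF_dbar r t hr
    have hmt : MeasurableSet Complex.polarCoord.target := by
      rw [Complex.polarCoord_target]
      exact measurableSet_Ioi.prod measurableSet_Ioo
    have h5 : ∫ p in polarCoord.target,
        p.1 • (dbar ψ (Complex.polarCoord.symm p) / (Complex.polarCoord.symm p)) =
        ∫ p in Ioi (0 : ℝ) ×ˢ Ioo (-Real.pi) Real.pi, (CPF_A ψ p + I * CPF_B ψ p) / 2 := by
      exact setIntegral_congr_fun hmt h3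
    rw [h5]
    obtain ⟨R', hR', hR1', hR2'⟩ := CPF_supp hψs
    have hioA : IntegrableOn (CPF_A ψ) (Ioi (0 : ℝ) ×ˢ Ioo (-Real.pi) Real.pi) := by
      refine CPF_io (CPF_A_cont hψc) (R := R') fun p hp => ?_
      rw [CPF_A, hR2' _ (by rw [CPF_norm]; exact hp)]
      rfl
    have hioB : IntegrableOn (CPF_B ψ) (Ioi (0 : ℝ) ×ˢ Ioo (-Real.pi) Real.pi) := by
      refine CPF_io (CPF_B_cont hψc) (R := R') fun p hp => ?_
      rw [CPF_B, hR2' _ (by rw [CPF_norm]; exact hp)]
      rfl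
    rw [integral_div, integral_add hioA (hioB.const_mul I), integral_const_mul,
      CPF_Aint hψc hψs, CPF_Bint hψc hψs]
    simp only [hψ, zero_add]
    ring


end Pool.Agent.P2I.CutA
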