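import Pool.Agent.helper83.P2.SpecV

set_option autoImplicit false

open scoped ContDiff Topology
open MeasureTheory Filter Set Metric MvPolynomial Pool.Agent.helper37.QA Pool.Agent.P2

namespace Pool.Agent.P2V

theorem VEN_eta (ξ : ℂ) (h : 4 / 5 ≤ ‖ξ‖) : eta ξ = 0 := by
  apply Real.smoothTransition.zero_of_nonpos
  have h2 : Complex.normSq ξ = ‖ξ‖ ^ 2 := (Complex.sq_norm ξ).symm
  rw [h2]
  nlinarith

theorem VEN_eta0 (ξ : ℂ) : 0 ≤ eta ξ := Real.smoothTransition.nonneg _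

theorem VEN_eta1 (ξ : ℂ) : eta ξ ^ 2 ≤ 1 := by
  have h1 : eta ξ ≤ 1 := Real.smoothTransition.le_one _
  have h0 := VEN_eta0 ξ
  nlinarith

theorem VEN_gp (ι : Fin 2) (c : ℂ) (κ : ℝ) (γ : ℂ → ℂ) (hγ : DifferentiableOn ℂ γ (ball 0 1)) (r : ℝ) :
    ContDiffOn ℝ ∞ (gp ι c κ γ) (ball 0 1 ×ˢ ball 0 r) := by
  have h0 : ContDiffOn ℝ ∞ γ (ball 0 1) := (hγ.contDiffOn isOpen_ball).restrict_scalars ℝ
  have h1 : ContDiffOn ℝ ∞ (fun q : ℂ × ℂ => γ q.1) (ball 0 1 ×ˢ ball 0 r) :=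
    h0.comp contDiff_fst.contDiffOn fun q hq => hq.1
  have h2 : ContDiffOn ℝ ∞ (fun q : ℂ × ℂ => γ q.1 + q.2) (ball 0 1 ×ˢ ball 0 r) := h1.add contDiff_snd.contDiffOn
  have h3 : ContDiffOn ℝ ∞ (fun q : ℂ × ℂ => c + (κ : ℂ) * q.1) (ball 0 1 ×ˢ ball 0 r) :=
    contDiffOn_const.add (contDiffOn_const.mul contDiff_fst.contDiffOn)
  refine contDiffOn_pi.2 fun i => ?_
  unfold gp cht
  split_ifs with h
  · fin_cases i
    · exact contDiffOn_const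
    · exact h3
    · exact h2
  · fin_cases i
    · exact h3
    · exact contDiffOn_const
    · exact h2

theorem VEN_int (K E : ℂ → ℝ) (s : ℝ) (hs : 0 < s) (hK : Continuous K) (hK0 : ∀ v, 2 * s ≤ ‖v‖ → K v = 0) (hE : ContinuousOn E (ball 0 (16 * s))) :
    Integrable (fun v => K v * E v) := by
  have h1 : IntegrableOn (fun v => K v * E v) (closedBall 0 (2 * s)) := by
    refine ContinuousOn.integrableOn_compact (isCompact_closedBall _ _) ?_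
    exact hK.continuousOn.mul (hE.mono (closedBall_subset_ball (by linarith)))
  rw [← integrableOn_iff_integrable_of_support_subset (s := closedBall (0 : ℂ) (2 * s))]
  · exact h1
  · intro v hv
    rw [mem_closedBall_zero_iff]
    by_contra hcon
    push Not at hcon
    exact hv (by simp only [hK0 v hcon.le, zero_mul])

theorem VEN (hENC : ENC_stmt) (hVTR : VTR_stmt) (hVDS : VDS_stmt) (hVCJ : VCJ_stmt) (hVJB : VJB_stmt) : VEN_stmt := by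
  intro d f U hd hG N Ψ B s κ Y ι n A W K hA hs hκ hY hU hι hF hW hKc hK0 hKs
  have hr : (0 : ℝ) < 16 * s := by linarith
  have hI : ∀ a, Is0 Y ι (A a).c κ (A a).g (A a).γ := fun a => by
    have h := (hF.1 a).2
    rw [hι a] at h
    exact h
  have hT := fun a => hVTR d f U hd hG N (16 * s) κ Y ι (A a).c (A a).g (A a).γ hr hκ hY hU (hI a)
  have hgU : ∀ a, ∀ ξ ∈ ball (0 : ℂ) 1, ∀ v ∈ ball (0 : ℂ) (16 * s), gp ι (A a).c κ (A a).γ (ξ, v) ∈ cone U := fun a ξ hξ v hv =>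
    ((hT a).2.2 ξ hξ v hv).1
  have hΘ : ∀ a, ContDiffOn ℝ ∞ (fun p => Ψ (gp ι (A a).c κ (A a).γ p)) (ball 0 1 ×ˢ ball 0 (16 * s)) := fun a =>
    hA.1.comp (VEN_gp ι (A a).c κ (A a).γ (hI a).2.2.1 (16 * s)) fun p hp => hgU a p.1 hp.1 p.2 hp.2
  have hJB := fun a => hVJB d f U hd hG N (16 * s) κ ι (A a).c (A a).γ (fun p => Ψ (gp ι (A a).c κ (A a).γ p)) hr (hI a).2.2.1 (hgU a)
    ((hΘ a).mono (prod_mono (ball_subset_ball (by norm_num)) Subset.rfl))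
  obtain ⟨-, -, hCJ1, hCJ2⟩ := hVCJ d f U hd hG N Ψ B (16 * s) Y ι hA hr hY hU
  -- nonnegativity
  have hGn : ∀ v ∈ ball (0 : ℂ) (16 * s), ∀ z ∈ ball (0 : ℂ) 1, 0 ≤ Gn f N Ψ ι v Y z := by
    intro v hv z hz
    obtain ⟨h1, h2, -⟩ := hENC d f U N Ψ B hd hG hA _ (hU v hv z hz)
    unfold Gn
    rw [h1]
    exact mul_nonneg (Complex.normSq_nonneg _) h2
  have hGn0 : ∀ v ∈ ball (0 : ℂ) (16 * s), ∀ z, 0 ≤ eta z ^ 2 * Gn f N Ψ ι v Y z := by
    intro v hv z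
    by_cases hz : z ∈ ball (0 : ℂ) 1
    · exact mul_nonneg (sq_nonneg _) (hGn v hv z hz)
    · rw [mem_ball_zero_iff, not_lt] at hz
      rw [VEN_eta z (by linarith)]
      simp
  -- one parameter
  have hone : ∀ v ∈ ball (0 : ℂ) (16 * s), ∑ a, W a * (∫ ξ, eta ξ ^ 2 * Ge f N (fun p => Ψ (gp ι (A a).c κ (A a).γ p)) ι (A a).c κ (A a).γ (ξ, v)) ≤
      ∫ z, eta z ^ 2 * Gn f N Ψ ι v Y z := by
    intro v hv
    have hD := hVDS n (fun a => (A a).g) (fun z => eta z ^ 2 * Gn f N Ψ ι v Y z) (fun a => ⟨(hI a).1, (hT a).1, (hI a).2.1⟩) hF.2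
      (fun z _ => hGn0 v hv z) (hCJ2 v hv).2.2.integrableOn
    obtain ⟨hD1, hD2⟩ := hD
    have h3 : ∫ z in ball (0 : ℂ) 1, eta z ^ 2 * Gn f N Ψ ι v Y z ≤ ∫ z, eta z ^ 2 * Gn f N Ψ ι v Y z :=
      setIntegral_le_integral (hCJ2 v hv).2.2 (Eventually.of_forall (hGn0 v hv))
    refine le_trans ?_ (hD2.trans h3)
    refine Finset.sum_le_sum fun a _ => ?_
    rw [← integral_const_mul]
    have h4 : ∫ ξ, W a * (eta ξ ^ 2 * Ge f N (fun p => Ψ (gp ι (A a).c κ (A a).γ p)) ι (A a).c κ (A a).γ (ξ, v)) =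
        ∫ ξ in ball (0 : ℂ) 1, W a * (eta ξ ^ 2 * Ge f N (fun p => Ψ (gp ι (A a).c κ (A a).γ p)) ι (A a).c κ (A a).γ (ξ, v)) := by
      symm
      refine setIntegral_eq_integral_of_forall_compl_eq_zero fun ξ hξ => ?_
      rw [mem_ball_zero_iff, not_lt] at hξ
      rw [VEN_eta ξ (by linarith)]
      simp
    rw [h4]
    refine setIntegral_mono_on ((((hJB a).2 v hv).const_mul (W a)).integrableOn) (hD1 a) measurableSet_ball fun ξ hξ => ?_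
    obtain ⟨-, -, h5⟩ := (hT a).2.2 ξ hξ v hv
    obtain ⟨-, h6, h7⟩ := h5 Ψ B hA
    change W a * (eta ξ ^ 2 * Ge f N (fun p => Ψ (gp ι (A a).c κ (A a).γ p)) ι (A a).c κ (A a).γ (ξ, v)) ≤
      eta ((A a).g ξ) ^ 2 * Gn f N Ψ ι v Y ((A a).g ξ) * Complex.normSq (deriv (A a).g ξ)
    rw [← h7]
    have h8 : 0 ≤ Gn f N Ψ ι v Y ((A a).g ξ) * Complex.normSq (deriv (A a).g ξ) := mul_nonneg h6 (Complex.normSq_nonneg _)
    rw [mul_assoc, ← mul_assoc (W a)]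
    refine mul_le_mul_of_nonneg_right ?_ h8
    by_cases hξ2 : ‖ξ‖ ≤ 4 / 5
    · have h9 := (hW a).2 ξ hξ2
      have h10 := VEN_eta1 ξ
      have h11 := (hW a).1
      nlinarith
    · rw [VEN_eta ξ (by linarith)]
      have : 0 ≤ eta ((A a).g ξ) ^ 2 := sq_nonneg _
      simpa using this
  -- integrate
  have hi : ∀ a, Integrable (fun v => K v * ∫ ξ, eta ξ ^ 2 * Ge f N (fun p => Ψ (gp ι (A a).c κ (A a).γ p)) ι (A a).c κ (A a).γ (ξ, v)) := fun a =>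
    VEN_int K _ s hs hKc hKs (hJB a).1
  have hi2 : Integrable (fun v => K v * ∫ z, eta z ^ 2 * Gn f N Ψ ι v Y z) := VEN_int K _ s hs hKc hKs hCJ1
  have h12 : ∑ a, W a * (∫ v, K v * ∫ ξ, eta ξ ^ 2 * Ge f N (fun p => Ψ (gp ι (A a).c κ (A a).γ p)) ι (A a).c κ (A a).γ (ξ, v)) =
      ∫ v, ∑ a, W a * (K v * ∫ ξ, eta ξ ^ 2 * Ge f N (fun p => Ψ (gp ι (A a).c κ (A a).γ p)) ι (A a).c κ (A a).γ (ξ, v)) := by
    rw [integral_finset_sum _ fun a _ => (hi a).const_mul (W a)]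
    refine Finset.sum_congr rfl fun a _ => ?_
    rw [integral_const_mul]
  rw [h12]
  refine integral_mono (integrable_finset_sum _ fun a _ => (hi a).const_mul (W a)) hi2 fun v => ?_
  change ∑ a, W a * (K v * ∫ ξ, eta ξ ^ 2 * Ge f N (fun p => Ψ (gp ι (A a).c κ (A a).γ p)) ι (A a).c κ (A a).γ (ξ, v)) ≤
    K v * ∫ z, eta z ^ 2 * Gn f N Ψ ι v Y z
  by_cases hv : v ∈ ball (0 : ℂ) (16 * s)
  · have h13 : ∑ a, W a * (K v * ∫ ξ, eta ξ ^ 2 * Ge f N (fun p => Ψ (gp ι (A a).c κ (A a).γ p)) ι (A a).c κ (A a).γ (ξ, v)) =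
        K v * ∑ a, W a * (∫ ξ, eta ξ ^ 2 * Ge f N (fun p => Ψ (gp ι (A a).c κ (A a).γ p)) ι (A a).c κ (A a).γ (ξ, v)) := by
      rw [Finset.mul_sum]
      refine Finset.sum_congr rfl fun a _ => ?_
      ring
    rw [h13]
    exact mul_le_mul_of_nonneg_left (hone v hv) (hK0 v)
  · rw [mem_ball_zero_iff, not_lt] at hv
    have h14 : K v = 0 := hKs v (by linarith)
    simp only [h14, zero_mul, mul_zero, Finset.sum_const_zero]
    exact le_rfl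

end Pool.Agent.P2V
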