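import Pool.Agent.helper83.P2.SpecV

set_option autoImplicit false

open scoped ContDiff Topology
open MeasureTheory Filter Set Metric MvPolynomial Pool.Agent.helper37.QA Pool.Agent.P2

namespace Pool.Agent.P2V

theorem VQL_eta (ξ : ℂ) (h : ξ ∉ ball (0 : ℂ) (9 / 10)) : eta ξ = 0 := by
  apply Real.smoothTransition.zero_of_nonpos
  have h1 : 9 / 10 ≤ ‖ξ‖ := by
    rw [mem_ball_zero_iff, not_lt] at h
    exact h
  have h2 : Complex.normSq ξ = ‖ξ‖ ^ 2 := (Complex.sq_norm ξ).symm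
  rw [h2]
  nlinarith

theorem VQL_vol (s : ℝ) (hs : 0 < s) : volume.real (ball (0 : ℂ) s) = Real.pi * s ^ 2 := by
  rw [measureReal_def, Complex.volume_ball, ENNReal.toReal_mul, ENNReal.toReal_pow, ENNReal.toReal_ofReal hs.le]
  rw [mul_comm]
  rfl

theorem VQL_gpc (ι : Fin 2) (c : ℂ) (κ : ℝ) (γ : ℂ → ℂ) (hγ : DifferentiableOn ℂ γ (ball 0 1)) (r : ℝ) :
    ContinuousOn (gp ι c κ γ) (ball 0 (9 / 10) ×ˢ ball 0 r) := by
  have hsub : ball (0 : ℂ) (9 / 10) ⊆ ball 0 1 := ball_subset_ball (by norm_num)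
  have h1 : ContinuousOn (fun q : ℂ × ℂ => γ q.1) (ball 0 (9 / 10) ×ˢ ball 0 r) :=
    hγ.continuousOn.comp continuousOn_fst fun q hq => hsub hq.1
  have h2 : ContinuousOn (fun q : ℂ × ℂ => γ q.1 + q.2) (ball 0 (9 / 10) ×ˢ ball 0 r) := h1.add continuousOn_snd
  have h3 : ContinuousOn (fun q : ℂ × ℂ => c + (κ : ℂ) * q.1) (ball 0 (9 / 10) ×ˢ ball 0 r) :=
    continuousOn_const.add (continuousOn_const.mul continuousOn_fst)
  refine continuousOn_pi.2 fun i => ?_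
  unfold gp cht
  split_ifs with h
  · fin_cases i
    · exact continuousOn_const
    · exact h3
    · exact h2
  · fin_cases i
    · exact h3
    · exact continuousOn_const
    · exact h2

theorem VQL_QR {d : ℕ} (f : Endo 2 d) (m : ℕ) (Λ s : ℝ) (N : ℕ) (ι : Fin 2) (c : ℂ) (κ : ℝ) (γ : ℂ → ℂ) :
    QR f m Λ s N ι c κ γ = (s ^ 2)⁻¹ * ∫ v in ball (0 : ℂ) s, Ja f N (Lf f m Λ ι c κ γ) ι c κ γ v := rfl

theorem VQL_mono {d : ℕ} (f : Endo 2 d) (N : ℕ) (Θ₁ Θ₂ : ℂ × ℂ → ℝ) (ι : Fin 2) (c : ℂ) (κ : ℝ) (γ : ℂ → ℂ) (v : ℂ)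
    (h0 : ∀ p, 0 ≤ gt f N ι c κ γ p)
    (h1 : Integrable (fun ξ => eta ξ ^ 2 * (Θ₁ (ξ, v) * gt f N ι c κ γ (ξ, v))))
    (h2 : Integrable (fun ξ => eta ξ ^ 2 * (Θ₂ (ξ, v) * gt f N ι c κ γ (ξ, v))))
    (h : ∀ ξ ∈ ball (0 : ℂ) (9 / 10), Θ₁ (ξ, v) ≤ Θ₂ (ξ, v)) : Ja f N Θ₁ ι c κ γ v ≤ Ja f N Θ₂ ι c κ γ v := by
  refine integral_mono h1 h2 fun ξ => ?_
  by_cases hξ : ξ ∈ ball (0 : ℂ) (9 / 10)
  · exact mul_le_mul_of_nonneg_left (mul_le_mul_of_nonneg_right (h ξ hξ) (h0 _)) (sq_nonneg _)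
  · simp only [VQL_eta ξ hξ]
    simp

theorem VQL (hVPH : VPH_stmt) (hVAD : VAD_stmt) (hVJA : VJA_stmt) (hVCP : VCP_stmt) : VQL_stmt := by
  intro d f U κ hd hG hκ hκ1
  obtain ⟨C1, hC1, hJ⟩ := hVJA d f U hd hG
  obtain ⟨C2, hC2, hP⟩ := hVCP d f U κ hd hG hκ hκ1
  obtain ⟨C3, hC3, hA⟩ := hVAD d f U hd hG
  have hpi : 3 < Real.pi := Real.pi_gt_three
  refine ⟨2 * Real.pi * C1 * (C3 + 2 * C2 + 2), ?_, ?_⟩
  · have h1 : 1 ≤ 2 * Real.pi * C1 := by nlinarith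
    nlinarith
  intro Λ s m N ι c γ hΛ hs hs16 hmN hc hγ hU
  have hr0 : (0 : ℝ) < 16 * s := by linarith
  obtain ⟨hgt0, hgtc, hJ1, hJc, hgn, hder⟩ := hJ N (16 * s) κ ι c γ hr0 hs16 hκ hκ1 hc hγ hU
  obtain ⟨hThc, hLfc, hpt, -⟩ := hP Λ m N (16 * s) ι c γ hΛ hmN hr0 hs16 hc hγ hU
  have hAdm := hA Λ m N hΛ hmN
  obtain ⟨hph1, hph2, -, hph4⟩ := hVPH
  -- membership
  have hmem : ∀ p ∈ ball (0 : ℂ) (9 / 10) ×ˢ ball (0 : ℂ) (16 * s), gp ι c κ γ p ∈ cone U := fun p hp =>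
    hU p.1 (ball_subset_ball (by norm_num) hp.1) p.2 hp.2
  have hPsc : ContinuousOn (fun p => Psf f Λ m N (gp ι c κ γ p)) (ball 0 (9 / 10) ×ˢ ball 0 (16 * s)) :=
    hAdm.1.continuousOn.comp (VQL_gpc ι c κ γ hγ (16 * s)) hmem
  have hJL := hJc _ hLfc
  have hJT := hJc _ hThc.continuousOn
  have hJP := hJc _ hPsc
  have hJ1c := hJc (fun _ => 1) continuousOn_const
  set M : ℝ := (C3 + 2 * C2 + 2) * ((1 + Λ) * (m + 1)) with hM
  have hm0 : (0 : ℝ) ≤ m := Nat.cast_nonneg m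
  have hLM : ∀ p ∈ ball (0 : ℂ) (9 / 10) ×ˢ ball (0 : ℂ) (16 * s), Lf f m (Λ * m) ι c κ γ p ≤ M := by
    intro p hp
    obtain ⟨h1, h2, h3⟩ := hpt p hp
    have h4 := hAdm.2.1 _ (hmem p hp)
    have h5 := abs_le.1 h1
    have h6 := abs_le.1 h4
    have h7 : Lf f m (Λ * m) ι c κ γ p ≤ (C3 + Λ) * (m + 1) + (C2 + Λ) * (m + 1) + C2 := by linarith [h5.1, h6.2]
    refine h7.trans ?_
    rw [hM]
    have h8 : (0 : ℝ) ≤ Λ * (m + 1) := mul_nonneg hΛ (by linarith)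
    nlinarith [mul_nonneg h8 (by linarith : (0 : ℝ) ≤ C3), mul_nonneg h8 (by linarith : (0 : ℝ) ≤ C2)]
  have hL0 : ∀ v ∈ ball (0 : ℂ) (16 * s), 0 ≤ Ja f N (Lf f m (Λ * m) ι c κ γ) ι c κ γ v := by
    intro v hv
    refine integral_nonneg fun ξ => ?_
    by_cases hξ : ξ ∈ ball (0 : ℂ) (9 / 10)
    · exact mul_nonneg (sq_nonneg _) (mul_nonneg (hpt (ξ, v) ⟨hξ, hv⟩).2.1 (hgt0 _))
    · simp only [VQL_eta ξ hξ]
      simp
  have h10 : ∀ v ∈ ball (0 : ℂ) (16 * s), 0 ≤ Ja f N (fun _ => 1) ι c κ γ v := by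
    intro v hv
    refine integral_nonneg fun ξ => ?_
    exact mul_nonneg (sq_nonneg _) (mul_nonneg (by norm_num) (hgt0 _))
  have hLb : ∀ v ∈ ball (0 : ℂ) (16 * s), Ja f N (Lf f m (Λ * m) ι c κ γ) ι c κ γ v ≤ M * C1 := by
    intro v hv
    have hM0 : 0 ≤ M := by
      rw [hM]
      positivity
    have h1 : Ja f N (Lf f m (Λ * m) ι c κ γ) ι c κ γ v ≤ Ja f N (fun _ => M) ι c κ γ v :=
      VQL_mono f N _ _ ι c κ γ v hgt0 (hJL.2 v hv) ((hJc (fun _ => M) continuousOn_const).2 v hv) fun ξ hξ => hLM (ξ, v) ⟨hξ, hv⟩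
    have h2 : Ja f N (fun _ => M) ι c κ γ v = M * Ja f N (fun _ => 1) ι c κ γ v := by
      unfold Ja
      rw [← integral_const_mul]
      refine integral_congr_ae (Eventually.of_forall fun ξ => ?_)
      change eta ξ ^ 2 * (M * gt f N ι c κ γ (ξ, v)) = M * (eta ξ ^ 2 * (1 * gt f N ι c κ γ (ξ, v)))
      ring
    rw [h2] at h1
    exact h1.trans (mul_le_mul_of_nonneg_left (hJ1 v hv) hM0)
  have hLD : ∀ v ∈ ball (0 : ℂ) (16 * s), Ja f N (Lf f m (Λ * m) ι c κ γ) ι c κ γ v ≤ Dj f Λ m N ι c κ γ v + C2 * Ja f N (fun _ => 1) ι c κ γ v := by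
    intro v hv
    have hc1 : ContinuousOn (fun p => Psf f Λ m N (gp ι c κ γ p) - Th f Λ m N ι c κ γ p + C2) (ball 0 (9 / 10) ×ˢ ball 0 (16 * s)) :=
      (hPsc.sub hThc.continuousOn).add continuousOn_const
    have h1 : Ja f N (Lf f m (Λ * m) ι c κ γ) ι c κ γ v ≤ Ja f N (fun p => Psf f Λ m N (gp ι c κ γ p) - Th f Λ m N ι c κ γ p + C2) ι c κ γ v :=
      VQL_mono f N _ _ ι c κ γ v hgt0 (hJL.2 v hv) ((hJc _ hc1).2 v hv) fun ξ hξ => (hpt (ξ, v) ⟨hξ, hv⟩).2.2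
    refine h1.trans (le_of_eq ?_)
    unfold Dj Ja
    rw [← integral_const_mul, ← integral_sub (hJP.2 v hv) (hJT.2 v hv)]
    have e := integral_add ((hJP.2 v hv).sub (hJT.2 v hv)) ((hJ1c.2 v hv).const_mul C2)
    refine Eq.trans ?_ e
    refine integral_congr_ae (Eventually.of_forall fun ξ => ?_)
    change eta ξ ^ 2 * ((Psf f Λ m N (gp ι c κ γ (ξ, v)) - Th f Λ m N ι c κ γ (ξ, v) + C2) * gt f N ι c κ γ (ξ, v)) =
      eta ξ ^ 2 * (Psf f Λ m N (gp ι c κ γ (ξ, v)) * gt f N ι c κ γ (ξ, v)) - eta ξ ^ 2 * (Th f Λ m N ι c κ γ (ξ, v) * gt f N ι c κ γ (ξ, v)) +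
        C2 * (eta ξ ^ 2 * (1 * gt f N ι c κ γ (ξ, v)))
    ring
  -- integrability on small balls
  have hint : ∀ t : ℝ, t ≤ s → IntegrableOn (fun v => Ja f N (Lf f m (Λ * m) ι c κ γ) ι c κ γ v) (ball 0 t) := by
    intro t ht
    have h1 : closedBall (0 : ℂ) t ⊆ ball 0 (16 * s) := closedBall_subset_ball (by linarith)
    exact ((hJL.1.mono h1).integrableOn_compact (isCompact_closedBall _ _)).mono_set ball_subset_closedBall
  have hD : ContinuousOn (Dj f Λ m N ι c κ γ) (ball 0 (16 * s)) := hJP.1.sub hJT.1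
  refine ⟨?_, ?_, ?_, ?_⟩
  · rw [VQL_QR]
    have hiL := hph4 (2 * s) (16 * s) _ (by linarith) (by linarith) hJL.1
    have hiD := hph4 (2 * s) (16 * s) _ (by linarith) (by linarith) hD
    have hi1 := hph4 (2 * s) (16 * s) _ (by linarith) (by linarith) hJ1c.1
    obtain ⟨hp1, hp2, hp3, hp4, -⟩ := hph1 (2 * s) (by linarith)
    have hzero : ∀ v, v ∉ ball (0 : ℂ) (16 * s) → phr (2 * s) v = 0 := by
      intro v hv
      apply hp3
      rw [mem_ball_zero_iff, not_lt] at hv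
      linarith
    -- step one
    have hs1 : (s ^ 2)⁻¹ * ∫ v in ball (0 : ℂ) s, Ja f N (Lf f m (Λ * m) ι c κ γ) ι c κ γ v ≤
        2 * Real.pi * ∫ v, phr (2 * s) v * Ja f N (Lf f m (Λ * m) ι c κ γ) ι c κ γ v := by
      rw [← integral_const_mul, ← integral_const_mul]
      have h1 : ∫ v in ball (0 : ℂ) s, (s ^ 2)⁻¹ * Ja f N (Lf f m (Λ * m) ι c κ γ) ι c κ γ v ≤
          ∫ v in ball (0 : ℂ) s, 2 * Real.pi * (phr (2 * s) v * Ja f N (Lf f m (Λ * m) ι c κ γ) ι c κ γ v) := by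
        refine setIntegral_mono_on ((hint s le_rfl).const_mul _) (hiL.const_mul _).integrableOn measurableSet_ball fun v hv => ?_
        have h2 := hph2 s v hs (by simpa using hv)
        have h3 : (s ^ 2)⁻¹ ≤ 2 * Real.pi * phr (2 * s) v := by
          have h4 : (s ^ 2)⁻¹ = 2 * Real.pi * (1 / (2 * Real.pi * s ^ 2)) := by
            field_simp
          rw [h4]
          exact mul_le_mul_of_nonneg_left h2 (by positivity)
        rw [← mul_assoc]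
        exact mul_le_mul_of_nonneg_right h3 (hL0 v (ball_subset_ball (by linarith) hv))
      refine h1.trans ?_
      refine setIntegral_le_integral (hiL.const_mul _) (Eventually.of_forall fun v => ?_)
      change 0 ≤ 2 * Real.pi * (phr (2 * s) v * Ja f N (Lf f m (Λ * m) ι c κ γ) ι c κ γ v)
      by_cases hv : v ∈ ball (0 : ℂ) (16 * s)
      · exact mul_nonneg (by positivity) (mul_nonneg (hp2 v) (hL0 v hv))
      · rw [hzero v hv]
        simp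
    have hs2 : ∫ v, phr (2 * s) v * Ja f N (Lf f m (Λ * m) ι c κ γ) ι c κ γ v ≤
        (∫ v, phr (2 * s) v * Dj f Λ m N ι c κ γ v) + C2 * ∫ v, phr (2 * s) v * Ja f N (fun _ => 1) ι c κ γ v := by
      rw [← integral_const_mul, ← integral_add hiD (hi1.const_mul _)]
      refine integral_mono hiL (hiD.add (hi1.const_mul _)) fun v => ?_
      change phr (2 * s) v * Ja f N (Lf f m (Λ * m) ι c κ γ) ι c κ γ v ≤
        phr (2 * s) v * Dj f Λ m N ι c κ γ v + C2 * (phr (2 * s) v * Ja f N (fun _ => 1) ι c κ γ v)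
      by_cases hv : v ∈ ball (0 : ℂ) (16 * s)
      · have h1 := mul_le_mul_of_nonneg_left (hLD v hv) (hp2 v)
        linarith
      · rw [hzero v hv]
        simp
    have hs3 : ∫ v, phr (2 * s) v * Ja f N (fun _ => 1) ι c κ γ v ≤ C1 := by
      have hpint : Integrable (phr (2 * s)) := by
        by_contra hcon
        rw [integral_undef hcon] at hp4
        exact zero_ne_one hp4
      have h1 : ∫ v, phr (2 * s) v * Ja f N (fun _ => 1) ι c κ γ v ≤ ∫ v, phr (2 * s) v * C1 := by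
        refine integral_mono hi1 (hpint.mul_const _) fun v => ?_
        change phr (2 * s) v * Ja f N (fun _ => 1) ι c κ γ v ≤ phr (2 * s) v * C1
        by_cases hv : v ∈ ball (0 : ℂ) (16 * s)
        · exact mul_le_mul_of_nonneg_left (hJ1 v hv) (hp2 v)
        · rw [hzero v hv]
          simp
      rw [integral_mul_const, hp4, one_mul] at h1
      exact h1
    have h2pi : (0 : ℝ) ≤ 2 * Real.pi := by positivity
    have hs4 := mul_le_mul_of_nonneg_left hs2 h2pi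
    have hs5 := mul_le_mul_of_nonneg_left (mul_le_mul_of_nonneg_left hs3 (by linarith : (0 : ℝ) ≤ C2)) h2pi
    have hs6 : 2 * Real.pi * (C2 * C1) ≤ 2 * Real.pi * C1 * (C3 + 2 * C2 + 2) := by
      have : 0 ≤ 2 * Real.pi * C1 * (C3 + C2 + 2) := by positivity
      nlinarith
    linarith
  · rw [VQL_QR]
    exact mul_nonneg (by positivity) (setIntegral_nonneg measurableSet_ball fun v hv => hL0 v (ball_subset_ball (by linarith) hv))
  · rw [VQL_QR]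
    have h1 : ∫ v in ball (0 : ℂ) s, Ja f N (Lf f m (Λ * m) ι c κ γ) ι c κ γ v ≤ ∫ v in ball (0 : ℂ) s, M * C1 := by
      refine setIntegral_mono_on (hint s le_rfl) (integrableOn_const measure_ball_lt_top.ne) measurableSet_ball fun v hv => ?_
      exact hLb v (ball_subset_ball (by linarith) hv)
    rw [setIntegral_const, VQL_vol s hs, smul_eq_mul] at h1
    have h2 : (s ^ 2)⁻¹ * ∫ v in ball (0 : ℂ) s, Ja f N (Lf f m (Λ * m) ι c κ γ) ι c κ γ v ≤ (s ^ 2)⁻¹ * (Real.pi * s ^ 2 * (M * C1)) :=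
      mul_le_mul_of_nonneg_left h1 (by positivity)
    refine h2.trans ?_
    have h3 : (s ^ 2)⁻¹ * (Real.pi * s ^ 2 * (M * C1)) = Real.pi * M * C1 := by
      field_simp
    rw [h3, hM]
    have h4 : 0 ≤ Real.pi * ((C3 + 2 * C2 + 2) * ((1 + Λ) * (m + 1))) * C1 := by positivity
    nlinarith
  · intro s' hs' hs's hss'
    rw [VQL_QR, VQL_QR]
    have h1 : ∫ v in ball (0 : ℂ) s', Ja f N (Lf f m (Λ * m) ι c κ γ) ι c κ γ v ≤ ∫ v in ball (0 : ℂ) s, Ja f N (Lf f m (Λ * m) ι c κ γ) ι c κ γ v := by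
      refine setIntegral_mono_set (hint s le_rfl) ?_ (ball_subset_ball hs's).eventuallyLE
      rw [EventuallyLE, ae_restrict_iff' measurableSet_ball]
      exact Eventually.of_forall fun v hv => hL0 v (ball_subset_ball (by linarith) hv)
    have h0 : 0 ≤ ∫ v in ball (0 : ℂ) s, Ja f N (Lf f m (Λ * m) ι c κ γ) ι c κ γ v :=
      setIntegral_nonneg measurableSet_ball fun v hv => hL0 v (ball_subset_ball (by linarith) hv)
    have h2 : (s' ^ 2)⁻¹ ≤ 4 * (s ^ 2)⁻¹ := by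
      rw [← div_eq_mul_inv, inv_eq_one_div, div_le_div_iff₀ (by positivity) (by positivity)]
      nlinarith
    calc (s' ^ 2)⁻¹ * ∫ v in ball (0 : ℂ) s', Ja f N (Lf f m (Λ * m) ι c κ γ) ι c κ γ v
        ≤ (s' ^ 2)⁻¹ * ∫ v in ball (0 : ℂ) s, Ja f N (Lf f m (Λ * m) ι c κ γ) ι c κ γ v := mul_le_mul_of_nonneg_left h1 (by positivity)
      _ ≤ 4 * (s ^ 2)⁻¹ * ∫ v in ball (0 : ℂ) s, Ja f N (Lf f m (Λ * m) ι c κ γ) ι c κ γ v := mul_le_mul_of_nonneg_right h2 h0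
      _ = _ := by ring

end Pool.Agent.P2V
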