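import Pool.Agent.helper83.P2.SpecV
import Pool.Agent.helper30.P2.IS4

set_option autoImplicit false

open scoped ContDiff Topology
open MeasureTheory Filter Set Metric MvPolynomial Pool.Agent.helper37.QA Pool.Agent.P2

namespace Pool.Agent.P2V

/-! ### one island -/

theorem VWT_wr (u v : ℂ → ℂ) (c : ℂ) (κ : ℝ) (ξ : ℂ) (hu : DifferentiableAt ℂ u ξ)
    (hv : v =ᶠ[𝓝 ξ] fun w => u w * (c + κ * w)) : v ξ * deriv u ξ - u ξ * deriv v ξ = -(κ * u ξ ^ 2) := by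
  have h1 : HasDerivAt (fun w : ℂ => u w * (c + κ * w)) (deriv u ξ * (c + κ * ξ) + u ξ * ((κ : ℂ) * 1)) ξ := by
    have h2 : HasDerivAt (fun w : ℂ => c + (κ : ℂ) * w) ((κ : ℂ) * 1) ξ := ((hasDerivAt_id ξ).const_mul (κ : ℂ)).const_add c
    exact hu.hasDerivAt.mul h2
  have h3 : deriv v ξ = deriv u ξ * (c + κ * ξ) + u ξ * ((κ : ℂ) * 1) := by
    rw [hv.deriv_eq]
    exact h1.deriv
  rw [h3, hv.eq_of_nhds]
  ring

theorem VWT_comp {Y : ℂ → E3} {ι : Fin 2} {c : ℂ} {κ : ℝ} {g γ : ℂ → ℂ} (hI : Is0 Y ι c κ g γ) (ξ : ℂ) (hξ : ξ ∈ ball (0 : ℂ) 1) :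
    (ι = 0 → Y (g ξ) 0 ≠ 0 ∧ Y (g ξ) 1 = Y (g ξ) 0 * (c + κ * ξ)) ∧ (ι ≠ 0 → Y (g ξ) 1 ≠ 0 ∧ Y (g ξ) 0 = Y (g ξ) 1 * (c + κ * ξ)) := by
  obtain ⟨a, ha, hY⟩ := hI.2.2.2 ξ hξ
  constructor
  · intro hι
    have h0 : Y (g ξ) 0 = a := by
      rw [hY]
      unfold gp cht
      rw [if_pos hι]
      simp
    have h1 : Y (g ξ) 1 = a * (c + κ * ξ) := by
      rw [hY]
      unfold gp cht
      rw [if_pos hι]
      simp
    rw [h0, h1]
    exact ⟨ha, rfl⟩
  · intro hι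
    have h0 : Y (g ξ) 1 = a := by
      rw [hY]
      unfold gp cht
      rw [if_neg hι]
      simp
    have h1 : Y (g ξ) 0 = a * (c + κ * ξ) := by
      rw [hY]
      unfold gp cht
      rw [if_neg hι]
      simp
    rw [h0, h1]
    exact ⟨ha, rfl⟩

theorem VWT_inj {Y : ℂ → E3} {ι : Fin 2} {c : ℂ} {κ : ℝ} {g γ : ℂ → ℂ} (hκ : 0 < κ) (hI : Is0 Y ι c κ g γ) : InjOn g (ball 0 1) := by
  intro ξ hξ ξ' hξ' he
  have hκ0 : (κ : ℂ) ≠ 0 := by exact_mod_cast hκ.ne'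
  have hfin : ∀ u : ℂ, u ≠ 0 → u * (c + κ * ξ) = u * (c + κ * ξ') → ξ = ξ' := by
    intro u hu h
    have h1 := mul_left_cancel₀ hu h
    have h2 : (κ : ℂ) * ξ = κ * ξ' := by linear_combination h1
    exact mul_left_cancel₀ hκ0 h2
  by_cases hι : ι = 0
  · obtain ⟨h1, h2⟩ := (VWT_comp hI ξ hξ).1 hι
    obtain ⟨h3, h4⟩ := (VWT_comp hI ξ' hξ').1 hι
    rw [← he] at h4
    exact hfin _ h1 (h2.symm.trans h4)
  · obtain ⟨h1, h2⟩ := (VWT_comp hI ξ hξ).2 hι
    obtain ⟨h3, h4⟩ := (VWT_comp hI ξ' hξ').2 hι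
    rw [← he] at h4
    exact hfin _ h1 (h2.symm.trans h4)

theorem VWT_It0 {d : ℕ} (f : Endo 2 d) (Z : E3) : It f 0 Z = Z := pmap_iter_zero f.F Z

theorem VWT_alg (κ X u : ℝ) (hu : 0 < u) (hX : 0 ≤ X) : (1 / 2) * (κ ^ 2 * u ^ 2) / (u * (1 + X)) ^ 2 = (1 / 2) * κ ^ 2 / (1 + X) ^ 2 := by
  have : 0 < 1 + X := by linarith
  field_simp

theorem VWT_tau {d : ℕ} (f : Endo 2 d) {Y : ℂ → E3} (hY : DifferentiableOn ℂ Y (ball 0 1)) {ι : Fin 2} {c : ℂ} {κ : ℝ} {g γ : ℂ → ℂ} (hI : Is0 Y ι c κ g γ)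
    (ξ : ℂ) (hξ : ξ ∈ ball (0 : ℂ) 1) :
    tau f 0 Y (g ξ) * Complex.normSq (deriv g ξ) = (1 / 2) * κ ^ 2 / (1 + Complex.normSq (c + κ * ξ)) ^ 2 := by
  have hgξ : g ξ ∈ ball (0 : ℂ) 1 := hI.2.1 ξ hξ
  have hYd : DifferentiableAt ℂ Y (g ξ) := hY.differentiableAt (isOpen_ball.mem_nhds hgξ)
  have hYi : ∀ i, DifferentiableAt ℂ (fun z => Y z i) (g ξ) := fun i => differentiableAt_pi.1 hYd i
  have hg : DifferentiableAt ℂ g ξ := hI.1.differentiableAt (isOpen_ball.mem_nhds hξ)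
  have hch : ∀ i, deriv (fun w => Y (g w) i) ξ = deriv (fun z => Y z i) (g ξ) * deriv g ξ := by
    intro i
    exact ((hYi i).hasDerivAt.comp ξ hg.hasDerivAt).deriv
  have hdi : ∀ i, DifferentiableAt ℂ (fun w => Y (g w) i) ξ := fun i =>
    ((hYi i).hasDerivAt.comp ξ hg.hasDerivAt).differentiableAt
  have hnb : ∀ᶠ w in 𝓝 ξ, w ∈ ball (0 : ℂ) 1 := isOpen_ball.mem_nhds hξ
  have htau : tau f 0 Y (g ξ) * Complex.normSq (deriv g ξ) =
      (1 / 2) * Complex.normSq (Y (g ξ) 1 * deriv (fun w => Y (g w) 0) ξ - Y (g ξ) 0 * deriv (fun w => Y (g w) 1) ξ) / pq (Y (g ξ)) ^ 2 := by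
    unfold tau
    simp only [VWT_It0, pow_zero, div_one]
    rw [hch 0, hch 1]
    have e1 : Y (g ξ) 1 * (deriv (fun z => Y z 0) (g ξ) * deriv g ξ) - Y (g ξ) 0 * (deriv (fun z => Y z 1) (g ξ) * deriv g ξ) =
        (Y (g ξ) 1 * deriv (fun z => Y z 0) (g ξ) - Y (g ξ) 0 * deriv (fun z => Y z 1) (g ξ)) * deriv g ξ := by ring
    rw [e1, Complex.normSq_mul]
    ring
  rw [htau]
  have hX : 0 ≤ Complex.normSq (c + κ * ξ) := Complex.normSq_nonneg _
  by_cases hι : ι = 0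
  · obtain ⟨h1, h2⟩ := (VWT_comp hI ξ hξ).1 hι
    have h3 := VWT_wr (fun w => Y (g w) 0) (fun w => Y (g w) 1) c κ ξ (hdi 0) (by
      filter_upwards [hnb] with w hw
      exact ((VWT_comp hI w hw).1 hι).2)
    have h3' : Y (g ξ) 1 * deriv (fun w => Y (g w) 0) ξ - Y (g ξ) 0 * deriv (fun w => Y (g w) 1) ξ = -(κ * Y (g ξ) 0 ^ 2) := h3
    rw [h3', Complex.normSq_neg, Complex.normSq_mul, Complex.normSq_ofReal, map_pow]
    have h4 : pq (Y (g ξ)) = Complex.normSq (Y (g ξ) 0) * (1 + Complex.normSq (c + κ * ξ)) := by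
      unfold pq
      rw [h2, Complex.normSq_mul]
      ring
    rw [h4, ← pow_two]
    exact VWT_alg κ _ _ (Complex.normSq_pos.2 h1) hX
  · obtain ⟨h1, h2⟩ := (VWT_comp hI ξ hξ).2 hι
    have h3 := VWT_wr (fun w => Y (g w) 1) (fun w => Y (g w) 0) c κ ξ (hdi 1) (by
      filter_upwards [hnb] with w hw
      exact ((VWT_comp hI w hw).2 hι).2)
    have h3' : Y (g ξ) 1 * deriv (fun w => Y (g w) 0) ξ - Y (g ξ) 0 * deriv (fun w => Y (g w) 1) ξ = κ * Y (g ξ) 1 ^ 2 := by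
      have h5 : Y (g ξ) 0 * deriv (fun w => Y (g w) 1) ξ - Y (g ξ) 1 * deriv (fun w => Y (g w) 0) ξ = -(κ * Y (g ξ) 1 ^ 2) := h3
      linear_combination -h5
    rw [h3', Complex.normSq_mul, Complex.normSq_ofReal, map_pow]
    have h4 : pq (Y (g ξ)) = Complex.normSq (Y (g ξ) 1) * (1 + Complex.normSq (c + κ * ξ)) := by
      unfold pq
      rw [h2, Complex.normSq_mul]
      ring
    rw [h4, ← pow_two]
    exact VWT_alg κ _ _ (Complex.normSq_pos.2 h1) hX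

theorem VWT_low (c ξ : ℂ) (κ : ℝ) (hκ : 0 < κ) (hκ1 : κ ≤ 1 / 10) (hc : ‖c‖ ≤ 2) (hξ : ξ ∈ ball (0 : ℂ) 1) :
    κ ^ 2 / 100 ≤ (1 / 2) * κ ^ 2 / (1 + Complex.normSq (c + κ * ξ)) ^ 2 := by
  have h1 : ‖ξ‖ < 1 := by simpa using hξ
  have h2 : ‖c + κ * ξ‖ ≤ 21 / 10 := by
    refine (norm_add_le _ _).trans ?_
    rw [norm_mul, Complex.norm_real, Real.norm_of_nonneg hκ.le]
    nlinarith [norm_nonneg ξ]
  have h3 : Complex.normSq (c + κ * ξ) ≤ 441 / 100 := by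
    rw [← Complex.sq_norm]
    nlinarith [norm_nonneg (c + κ * ξ)]
  have h4 : 0 ≤ Complex.normSq (c + κ * ξ) := Complex.normSq_nonneg _
  rw [div_le_div_iff₀ (by norm_num) (by positivity)]
  have h5 : (1 + Complex.normSq (c + κ * ξ)) ^ 2 ≤ 50 := by nlinarith
  nlinarith [sq_nonneg κ, mul_le_mul_of_nonneg_left h5 (sq_nonneg κ)]

theorem VWT_tau0 {d : ℕ} (f : Endo 2 d) (Y : ℂ → E3) (z : ℂ) : 0 ≤ tau f 0 Y z := by
  unfold tau
  have := Complex.normSq_nonneg (It f 0 (Y z) 1 * deriv (fun z => It f 0 (Y z) 0) z - It f 0 (Y z) 0 * deriv (fun z => It f 0 (Y z) 1) z)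
  positivity

theorem VWT_tauc {d : ℕ} (f : Endo 2 d) (Y : ℂ → E3) (hY : DifferentiableOn ℂ Y (ball 0 1)) (hp : ∀ z ∈ ball (0 : ℂ) 1, 0 < pq (Y z)) :
    ContinuousOn (tau f 0 Y) (ball 0 1) := by
  have hYi : ∀ i, DifferentiableOn ℂ (fun z => Y z i) (ball 0 1) := fun i => differentiableOn_pi.1 hY i
  have hc : ∀ i, ContinuousOn (fun z => Y z i) (ball 0 1) := fun i => (hYi i).continuousOn
  have hdc : ∀ i, ContinuousOn (deriv (fun z => Y z i)) (ball 0 1) := fun i => ((hYi i).deriv isOpen_ball).continuousOn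
  have h1 : ContinuousOn (fun z => Y z 1 * deriv (fun z => Y z 0) z - Y z 0 * deriv (fun z => Y z 1) z) (ball 0 1) :=
    ((hc 1).mul (hdc 0)).sub ((hc 0).mul (hdc 1))
  have h2 : ContinuousOn (fun z => Complex.normSq (Y z 1 * deriv (fun z => Y z 0) z - Y z 0 * deriv (fun z => Y z 1) z)) (ball 0 1) :=
    Complex.continuous_normSq.comp_continuousOn h1
  have h3 : ContinuousOn (fun z => pq (Y z)) (ball 0 1) :=
    (Complex.continuous_normSq.comp_continuousOn (hc 0)).add (Complex.continuous_normSq.comp_continuousOn (hc 1))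
  have h4 : tau f 0 Y = fun z => (1 / 2) * Complex.normSq (Y z 1 * deriv (fun z => Y z 0) z - Y z 0 * deriv (fun z => Y z 1) z) / pq (Y z) ^ 2 := by
    funext z
    unfold tau
    simp only [VWT_It0, pow_zero, div_one]
  rw [h4]
  exact (continuousOn_const.mul h2).div (h3.pow 2) fun z hz => (pow_pos (hp z hz) 2).ne'

/-! ### cut-offs -/

theorem VWT_lapc {χ : ℂ → ℝ} (hχ : ContDiff ℝ 2 χ) : Continuous (lap χ) := by
  unfold lap
  have h1 : Continuous (fun z => iteratedFDeriv ℝ 2 χ z) := hχ.continuous_iteratedFDeriv (m := 2) le_rfl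
  have h2 : ∀ m : Fin 2 → ℂ, Continuous (fun z => iteratedFDeriv ℝ 2 χ z m) := fun m =>
    (ContinuousMultilinearMap.apply ℝ (fun _ : Fin 2 => ℂ) ℝ m).continuous.comp h1
  exact continuous_const.mul ((h2 _).add (h2 _))

theorem VWT_laps {χ : ℂ → ℝ} (z : ℂ) (hz : z ∉ tsupport χ) : lap χ z = 0 := by
  have h1 : iteratedFDeriv ℝ 2 χ z = 0 := by
    by_contra h
    exact hz (support_iteratedFDeriv_subset (𝕜 := ℝ) 2 h)
  unfold lap
  rw [h1]
  simp

theorem VWT_eta0 (ξ : ℂ) : 0 ≤ eta ξ := Real.smoothTransition.nonneg _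

theorem VWT_eta1 (ξ : ℂ) : eta ξ ^ 2 ≤ 1 := by
  have h1 : eta ξ ≤ 1 := Real.smoothTransition.le_one _
  have h0 := VWT_eta0 ξ
  nlinarith

theorem VWT_etas (z : ℂ) (h : eta z ≠ 0) : ‖z‖ < 4 / 5 := by
  by_contra hcon
  push Not at hcon
  apply h
  apply Real.smoothTransition.zero_of_nonpos
  have h2 : Complex.normSq z = ‖z‖ ^ 2 := (Complex.sq_norm z).symm
  rw [h2]
  nlinarith

theorem VWT_etac : ContDiff ℝ ∞ (fun z : ℂ => eta z ^ 2) := by
  have h1 : ContDiff ℝ ∞ (fun z : ℂ => Complex.normSq z) := by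
    have h2 : (fun z : ℂ => Complex.normSq z) = fun z => z.re * z.re + z.im * z.im := by
      funext z
      exact Complex.normSq_apply z
    rw [h2]
    exact (Complex.reCLM.contDiff.mul Complex.reCLM.contDiff).add (Complex.imCLM.contDiff.mul Complex.imCLM.contDiff)
  have h3 : ContDiff ℝ ∞ (fun z : ℂ => eta z) :=
    Real.smoothTransition.contDiff.comp (contDiff_const.sub (contDiff_const.mul h1))
  exact h3.pow 2

theorem VWT_lip : ∃ L : NNReal, LipschitzWith L (fun z : ℂ => eta z ^ 2) := by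
  have hcs : HasCompactSupport (fun z : ℂ => eta z ^ 2) := by
    refine HasCompactSupport.of_support_subset_isCompact (isCompact_closedBall (0 : ℂ) 1) fun z hz => ?_
    rw [mem_closedBall_zero_iff]
    have h1 : eta z ≠ 0 := fun h => hz (by simp only [h]; norm_num)
    have := VWT_etas z h1
    linarith
  exact ContDiff.lipschitzWith_of_hasCompactSupport hcs VWT_etac (by simp)

theorem VWT_vol (s : ℝ) (hs : 0 < s) : volume.real (ball (0 : ℂ) s) = Real.pi * s ^ 2 := by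
  rw [measureReal_def, Complex.volume_ball, ENNReal.toReal_mul, ENNReal.toReal_pow, ENNReal.toReal_ofReal hs.le]
  rw [mul_comm]
  rfl

/-! ### counting -/

theorem VWT_schw (g : ℂ → ℂ) (hg : DifferentiableOn ℂ g (ball 0 1)) (hm : ∀ ξ ∈ ball (0 : ℂ) 1, g ξ ∈ ball (0 : ℂ) 1) (ξ : ℂ) (hξ : ‖ξ‖ < 1 / 50) :
    ‖g ξ - g 0‖ ≤ 1 / 25 := by
  have h0 : g 0 ∈ ball (0 : ℂ) 1 := hm 0 (by simp)
  have h1 : MapsTo g (ball 0 1) (closedBall (g 0) 2) := by
    intro z hz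
    have h2 := hm z hz
    rw [mem_ball_zero_iff] at h0 h2
    rw [mem_closedBall, dist_eq_norm]
    calc ‖g z - g 0‖ ≤ ‖g z‖ + ‖g 0‖ := norm_sub_le _ _
      _ ≤ 2 := by linarith
  have h3 := Complex.dist_le_div_mul_dist_of_mapsTo_ball hg h1 (z := ξ) (by rw [mem_ball_zero_iff]; linarith)
  rw [dist_eq_norm, dist_zero_right] at h3
  linarith

/-- the total area of the images is at most `π` -/
theorem VWT_area (n : ℕ) (g : Fin n → ℂ → ℂ) (h1 : ∀ a, DifferentiableOn ℂ (g a) (ball 0 1) ∧ InjOn (g a) (ball 0 1) ∧ ∀ ξ ∈ ball (0 : ℂ) 1, g a ξ ∈ ball (0 : ℂ) 1)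
    (h2 : ∀ a b, a ≠ b → Disjoint (g a '' ball 0 1) (g b '' ball 0 1)) :
    (∀ a, volume (g a '' ball 0 1) ≠ ⊤) ∧ ∑ a, (volume (g a '' ball 0 1)).toReal ≤ Real.pi := by
  have hpi := Real.pi_pos
  have hball : volume (ball (0 : ℂ) 1) = ENNReal.ofReal Real.pi := by
    rw [Complex.volume_ball, ENNReal.ofReal_one, one_pow, one_mul]
    rw [← NNReal.coe_real_pi, ENNReal.ofReal_coe_nnreal]
  have hsub : ∀ a, g a '' ball 0 1 ⊆ ball (0 : ℂ) 1 := by
    rintro a _ ⟨ξ, hξ, rfl⟩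
    exact (h1 a).2.2 ξ hξ
  have hfin : ∀ a, volume (g a '' ball 0 1) ≠ ⊤ := by
    intro a
    exact ((measure_mono (hsub a)).trans_lt measure_ball_lt_top).ne
  have hmeas : ∀ a, MeasurableSet (g a '' ball 0 1) := by
    intro a
    exact measurableSet_ball.image_of_continuousOn_injOn (h1 a).1.continuousOn (h1 a).2.1
  refine ⟨hfin, ?_⟩
  rw [← ENNReal.toReal_sum (fun a _ => hfin a)]
  have h4 : ∑ a, volume (g a '' ball 0 1) = volume (⋃ a, g a '' ball 0 1) := by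
    rw [measure_iUnion (fun a b hab => h2 a b hab) hmeas, tsum_fintype]
  rw [h4]
  refine ENNReal.toReal_le_of_le_ofReal hpi.le ?_
  rw [← hball]
  exact measure_mono (iUnion_subset hsub)

theorem VWT_dist (g : ℂ → ℂ) (h1 : DifferentiableOn ℂ g (ball 0 1)) (h2 : InjOn g (ball 0 1)) (h3 : volume (g '' ball 0 1) ≠ ⊤) (ξ : ℂ)
    (hξ : ‖ξ‖ ≤ 4 / 5) : ‖g 0 - g ξ‖ ≤ 6 * Real.sqrt (volume (g '' ball 0 1)).toReal := by
  have hr : (3 * (2 / 3 : ℝ) / 2) = 1 := by norm_num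
  have hr2 : (5 * (2 / 3 : ℝ) / 4) = 5 / 6 := by norm_num
  have h5 := P2I.IS4_area (X := g) (r := 2 / 3) (by norm_num) (by rw [hr]; exact h1)
    (by rw [hr]; exact h2) (by rw [hr]; exact h3) (s₁ := 0) (s₂ := ξ)
    (by rw [hr2, mem_ball_zero_iff, norm_zero]; norm_num)
    (by rw [hr2, mem_ball_zero_iff]; linarith)
  rw [hr] at h5
  have h6 : ‖g 0 - g ξ‖ = Real.sqrt (‖g 0 - g ξ‖ ^ 2) := (Real.sqrt_sq (norm_nonneg _)).symm
  rw [h6]
  refine (Real.sqrt_le_sqrt h5).trans (le_of_eq ?_)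
  rw [Real.sqrt_mul (by norm_num)]
  have h7 : Real.sqrt 36 = 6 := by
    rw [show (36 : ℝ) = 6 ^ 2 by norm_num]
    exact Real.sqrt_sq (by norm_num)
  rw [h7]

open Classical in
/-- the number of the islands whose centre is in the support of `eta` -/
theorem VWT_card (hUN1 : UN1_stmt) (hMSS : MSS_stmt) (hVDS : VDS_stmt) (d : ℕ) (f : Endo 2 d) (U : Set (PP 2)) (κ : ℝ) (hd : 2 ≤ d) (hG : Good0 f U)
    (hκ : 0 < κ) (hκ1 : κ ≤ 1 / 10) : ∃ K : ℝ, 0 ≤ K ∧ ∀ (N : ℕ) (Y : ℂ → E3) (H : ℝ) (n : ℕ) (A : Fin n → ID), Dsc U Y → 0 ≤ H →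
    (∀ z ∈ ball (0 : ℂ) 1, |un f N (Y z)| ≤ H) → Fam Y κ A → ((Finset.univ.filter fun a => eta ((A a).g 0) ≠ 0).card : ℝ) ≤ K * (H + 1) := by
  obtain ⟨C1, hC1, hu1, -, hu3, -⟩ := hUN1 d f U hd hG
  obtain ⟨χ, hχ1, hχ2⟩ : ∃ f : ContDiffBump (0 : ℂ), f.rIn = 17 / 20 ∧ f.rOut = 9 / 10 := ⟨⟨17 / 20, 9 / 10, by norm_num, by norm_num⟩, rfl, rfl⟩
  have hχt : tsupport (χ : ℂ → ℝ) = closedBall 0 (9 / 10) := by
    rw [χ.tsupport_eq, hχ2]
  have hχc : ContDiff ℝ ∞ (χ : ℂ → ℝ) := χ.contDiff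
  have hlc : Continuous (lap (χ : ℂ → ℝ)) := VWT_lapc (hχc.of_le (WithTop.coe_le_coe.2 (le_top : (2 : ℕ∞) ≤ ⊤)))
  have hlcs : HasCompactSupport (lap (χ : ℂ → ℝ)) := by
    refine HasCompactSupport.of_support_subset_isCompact (isCompact_closedBall (0 : ℂ) (9 / 10)) fun z hz => ?_
    rw [← hχt]
    by_contra h
    exact hz (VWT_laps z h)
  have hli : Integrable (lap (χ : ℂ → ℝ)) := hlc.integrable_of_hasCompactSupport hlcs
  set I0 : ℝ := ∫ z, |lap (χ : ℂ → ℝ) z| with hI0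
  have hI00 : 0 ≤ I0 := integral_nonneg fun z => abs_nonneg _
  have hpi := Real.pi_pos
  refine ⟨(1 + C1) * I0 * (250000 / (Real.pi * κ ^ 2)), by positivity, ?_⟩
  intro N Y H n A hY hH hun hF
  have hccl : ∀ W : E3, W ∈ cone U → W ∈ cone (closure U) := fun W ⟨h1, h2⟩ => ⟨h1, subset_closure h2⟩
  have hpq : ∀ z ∈ ball (0 : ℂ) 1, 0 < pq (Y z) := by
    intro z hz
    have h := (hu3 0 (Y z) (hccl _ (hY.2 z hz))).1
    rw [VWT_It0] at h
    exact h
  have htc := VWT_tauc f Y hY.1 hpq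
  have ht0 := VWT_tau0 f Y
  -- the upper bound
  have hun0 : ∀ z ∈ ball (0 : ℂ) 1, |un f 0 (Y z)| ≤ H + C1 := by
    intro z hz
    have h1 := hu1 0 N (Nat.zero_le _) (Y z) (hccl _ (hY.2 z hz))
    rw [pow_zero, div_one] at h1
    have h2 := hun z hz
    have h3 : un f 0 (Y z) = un f N (Y z) - (un f N (Y z) - un f 0 (Y z)) := by ring
    rw [h3]
    exact (abs_sub _ _).trans (add_le_add h2 h1)
  have hup : ∫ z, χ z * tau f 0 Y z ≤ (H + C1) * I0 := by
    rw [(hMSS d f U hd hG Y hY 0).2 χ hχc (by rw [hχt]; exact closedBall_subset_ball (by norm_num))]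
    refine (le_abs_self _).trans ?_
    rw [← Real.norm_eq_abs, hI0, ← integral_const_mul]
    refine norm_integral_le_of_norm_le (hli.abs.const_mul _) (Eventually.of_forall fun z => ?_)
    by_cases hz : z ∈ ball (0 : ℂ) 1
    · rw [Real.norm_eq_abs, abs_mul, mul_comm]
      exact mul_le_mul_of_nonneg_right (hun0 z hz) (abs_nonneg _)
    · have h1 : lap (χ : ℂ → ℝ) z = 0 := by
        apply VWT_laps
        rw [hχt, mem_closedBall_zero_iff]
        rw [mem_ball_zero_iff] at hz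
        intro h
        exact hz (by linarith)
      rw [h1]
      simp
  have hchit : Integrable (fun z => χ z * tau f 0 Y z) := by
    rw [← integrableOn_iff_integrable_of_support_subset (s := closedBall (0 : ℂ) (9 / 10))]
    · refine ContinuousOn.integrableOn_compact (isCompact_closedBall _ _) ?_
      exact hχc.continuous.continuousOn.mul (htc.mono (closedBall_subset_ball (by norm_num)))
    · intro z hz
      rw [← hχt]
      by_contra h
      exact hz (by simp only [image_eq_zero_of_notMem_tsupport h, zero_mul])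
  have htint : IntegrableOn (tau f 0 Y) (ball 0 (17 / 20)) :=
    (ContinuousOn.integrableOn_compact (isCompact_closedBall (0 : ℂ) (17 / 20)) (htc.mono (closedBall_subset_ball (by norm_num)))).mono_set
      ball_subset_closedBall
  have hup2 : ∫ z in ball (0 : ℂ) (17 / 20), tau f 0 Y z ≤ (H + C1) * I0 := by
    refine le_trans ?_ hup
    have h1 : ∫ z in ball (0 : ℂ) (17 / 20), tau f 0 Y z = ∫ z in ball (0 : ℂ) (17 / 20), χ z * tau f 0 Y z := by
      refine setIntegral_congr_fun measurableSet_ball fun z hz => ?_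
      have h2 : χ z = 1 := χ.one_of_mem_closedBall (by rw [hχ1]; exact ball_subset_closedBall hz)
      simp only [h2, one_mul]
    rw [h1]
    exact setIntegral_le_integral hchit (Eventually.of_forall fun z => mul_nonneg χ.nonneg (ht0 z))
  -- the lower bound
  set G : ℂ → ℝ := (ball (0 : ℂ) (17 / 20)).indicator (tau f 0 Y) with hGdef
  have hG0 : ∀ z, 0 ≤ G z := fun z => indicator_nonneg (fun z _ => ht0 z) z
  have hGi : Integrable G := htint.integrable_indicator measurableSet_ball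
  have hIs : ∀ a, Is0 Y (A a).ι (A a).c κ (A a).g (A a).γ := fun a => (hF.1 a).2
  obtain ⟨hD1, hD2⟩ := hVDS n (fun a => (A a).g) G (fun a => ⟨(hIs a).1, VWT_inj hκ (hIs a), (hIs a).2.1⟩) hF.2 (fun z _ => hG0 z) hGi.integrableOn
  have hGle : ∫ z in ball (0 : ℂ) 1, G z ≤ (H + C1) * I0 := by
    refine le_trans ?_ hup2
    refine (setIntegral_le_integral hGi (Eventually.of_forall hG0)).trans (le_of_eq ?_)
    exact integral_indicator measurableSet_ball
  set S : Finset (Fin n) := Finset.univ.filter fun a => eta ((A a).g 0) ≠ 0 with hS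
  have hlow : ∀ a ∈ S, Real.pi * (1 / 50) ^ 2 * (κ ^ 2 / 100) ≤ ∫ ξ in ball (0 : ℂ) 1, G ((A a).g ξ) * Complex.normSq (deriv (A a).g ξ) := by
    intro a ha
    have ha1 : eta ((A a).g 0) ≠ 0 := (Finset.mem_filter.1 ha).2
    have ha2 := VWT_etas _ ha1
    have hnn : ∀ ξ, 0 ≤ G ((A a).g ξ) * Complex.normSq (deriv (A a).g ξ) := fun ξ => mul_nonneg (hG0 _) (Complex.normSq_nonneg _)
    have h1 : ∫ ξ in ball (0 : ℂ) (1 / 50), G ((A a).g ξ) * Complex.normSq (deriv (A a).g ξ) ≤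
        ∫ ξ in ball (0 : ℂ) 1, G ((A a).g ξ) * Complex.normSq (deriv (A a).g ξ) :=
      setIntegral_mono_set (hD1 a) (Eventually.of_forall hnn) (ball_subset_ball (by norm_num)).eventuallyLE
    refine le_trans ?_ h1
    have h2 : ∫ ξ in ball (0 : ℂ) (1 / 50), κ ^ 2 / 100 ≤ ∫ ξ in ball (0 : ℂ) (1 / 50), G ((A a).g ξ) * Complex.normSq (deriv (A a).g ξ) := by
      refine setIntegral_mono_on (integrableOn_const measure_ball_lt_top.ne) ((hD1 a).mono_set (ball_subset_ball (by norm_num))) measurableSet_ball fun ξ hξ => ?_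
      rw [mem_ball_zero_iff] at hξ
      have h3 := VWT_schw (A a).g (hIs a).1 (hIs a).2.1 ξ hξ
      have h4 : (A a).g ξ ∈ ball (0 : ℂ) (17 / 20) := by
        rw [mem_ball_zero_iff]
        have h5 : (A a).g ξ = ((A a).g ξ - (A a).g 0) + (A a).g 0 := by ring
        rw [h5]
        refine (norm_add_le _ _).trans_lt ?_
        linarith
      have hξ1 : ξ ∈ ball (0 : ℂ) 1 := by
        rw [mem_ball_zero_iff]
        linarith
      rw [hGdef, indicator_of_mem h4, VWT_tau f hY.1 (hIs a) ξ hξ1]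
      exact VWT_low (A a).c ξ κ hκ hκ1 (hF.1 a).1 hξ1
    rw [setIntegral_const, VWT_vol _ (by norm_num), smul_eq_mul] at h2
    exact h2
  have hsum : (S.card : ℝ) * (Real.pi * (1 / 50) ^ 2 * (κ ^ 2 / 100)) ≤ (H + C1) * I0 := by
    refine le_trans ?_ hGle
    refine le_trans ?_ hD2
    rw [← nsmul_eq_mul]
    refine (Finset.card_nsmul_le_sum S _ _ hlow).trans ?_
    refine Finset.sum_le_sum_of_subset_of_nonneg (Finset.subset_univ _) fun a _ _ => ?_
    exact setIntegral_nonneg measurableSet_ball fun ξ _ => mul_nonneg (hG0 _) (Complex.normSq_nonneg _)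
  have h9 : (H + C1) * I0 ≤ (1 + C1) * I0 * (H + 1) := by
    have h10 : H + C1 ≤ (1 + C1) * (H + 1) := by nlinarith
    calc (H + C1) * I0 ≤ (1 + C1) * (H + 1) * I0 := mul_le_mul_of_nonneg_right h10 hI00
      _ = _ := by ring
  have h11 : (S.card : ℝ) ≤ (1 + C1) * I0 * (H + 1) / (Real.pi * (1 / 50) ^ 2 * (κ ^ 2 / 100)) := by
    rw [le_div_iff₀ (by positivity)]
    exact hsum.trans h9
  refine h11.trans (le_of_eq ?_)
  have h12 : Real.pi * (1 / 50) ^ 2 * (κ ^ 2 / 100) = (Real.pi * κ ^ 2) / 250000 := by ring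
  rw [h12]
  field_simp

open Classical in
theorem VWT (hUN1 : UN1_stmt) (hMSS : MSS_stmt) (hVDS : VDS_stmt) : VWT_stmt := by
  intro d f U κ hd hG hκ hκ1
  obtain ⟨K, hK, hcard⟩ := VWT_card hUN1 hMSS hVDS d f U κ hd hG hκ hκ1
  obtain ⟨L, hL⟩ := VWT_lip
  have hpi := Real.pi_pos
  have hL0 : (0 : ℝ) ≤ L := L.2
  refine ⟨1 + K + 6 * L * Real.sqrt (K * Real.pi), ?_, ?_⟩
  · have : 0 ≤ 6 * L * Real.sqrt (K * Real.pi) := by positivity
    linarith
  intro N Y H n A hY hH hun hF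
  have hIs : ∀ a, Is0 Y (A a).ι (A a).c κ (A a).g (A a).γ := fun a => (hF.1 a).2
  have hcard1 := hcard N Y H n A hY hH hun hF
  set S : Finset (Fin n) := Finset.univ.filter fun a => eta ((A a).g 0) ≠ 0 with hS
  -- minimum points
  have hmin : ∀ a, ∃ ξ0 ∈ closedBall (0 : ℂ) (4 / 5), ∀ ξ ∈ closedBall (0 : ℂ) (4 / 5), eta ((A a).g ξ0) ^ 2 ≤ eta ((A a).g ξ) ^ 2 := by
    intro a
    have h1 : ContinuousOn (fun ξ => eta ((A a).g ξ) ^ 2) (closedBall 0 (4 / 5)) :=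
      VWT_etac.continuous.comp_continuousOn ((hIs a).1.continuousOn.mono (closedBall_subset_ball (by norm_num)))
    obtain ⟨ξ0, h2, h3⟩ := (isCompact_closedBall (0 : ℂ) (4 / 5)).exists_isMinOn ⟨0, by simp; norm_num⟩ h1
    exact ⟨ξ0, h2, fun ξ hξ => h3 hξ⟩
  choose ξ0 hξ0 hξm using hmin
  have h0m : (0 : ℂ) ∈ closedBall (0 : ℂ) (4 / 5) := by
    rw [mem_closedBall_zero_iff, norm_zero]
    norm_num
  have hle : ∀ a, eta ((A a).g (ξ0 a)) ^ 2 ≤ eta ((A a).g 0) ^ 2 := fun a => hξm a 0 h0m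
  have hH1 : (0 : ℝ) < H + 1 := by linarith
  refine ⟨fun a => eta ((A a).g (ξ0 a)) ^ 2, ?_, hle, ?_, ?_⟩
  · intro a
    exact ⟨sq_nonneg _, fun ξ hξ => hξm a ξ (by rw [mem_closedBall_zero_iff]; exact hξ)⟩
  · have h1 : ∑ a, eta ((A a).g (ξ0 a)) ^ 2 ≤ (S.card : ℝ) := by
      rw [hS, Finset.card_filter, Nat.cast_sum]
      refine Finset.sum_le_sum fun a _ => ?_
      by_cases ha : eta ((A a).g 0) = 0
      · have h2 := hle a
        rw [ha] at h2
        simp only [ne_eq, ha, not_true_eq_false, if_false, Nat.cast_zero]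
        linarith
      · simp only [ne_eq, ha, not_false_eq_true, if_true, Nat.cast_one]
        exact VWT_eta1 _
    refine (h1.trans hcard1).trans ?_
    refine mul_le_mul_of_nonneg_right ?_ hH1.le
    have : 0 ≤ 6 * L * Real.sqrt (K * Real.pi) := by positivity
    linarith
  · obtain ⟨hfin, harea⟩ := VWT_area n (fun a => (A a).g) (fun a => ⟨(hIs a).1, VWT_inj hκ (hIs a), (hIs a).2.1⟩) hF.2
    have h1 : ∑ a, (eta ((A a).g 0) ^ 2 - eta ((A a).g (ξ0 a)) ^ 2) ≤ ∑ a ∈ S, 6 * L * Real.sqrt (volume ((A a).g '' ball 0 1)).toReal := by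
      have h2 : ∑ a, (eta ((A a).g 0) ^ 2 - eta ((A a).g (ξ0 a)) ^ 2) = ∑ a ∈ S, (eta ((A a).g 0) ^ 2 - eta ((A a).g (ξ0 a)) ^ 2) := by
        symm
        refine Finset.sum_subset (Finset.subset_univ _) fun a _ ha => ?_
        have h3 : eta ((A a).g 0) = 0 := by
          by_contra h
          exact ha (Finset.mem_filter.2 ⟨Finset.mem_univ _, h⟩)
        have h4 := hle a
        rw [h3] at h4 ⊢
        have h5 : 0 ≤ eta ((A a).g (ξ0 a)) ^ 2 := sq_nonneg _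
        linarith
      rw [h2]
      refine Finset.sum_le_sum fun a _ => ?_
      have h6 := hL.dist_le_mul ((A a).g 0) ((A a).g (ξ0 a))
      rw [Real.dist_eq, dist_eq_norm] at h6
      have h7 := VWT_dist (A a).g (hIs a).1 (VWT_inj hκ (hIs a)) (hfin a) (ξ0 a) (by
        have := hξ0 a
        rwa [mem_closedBall_zero_iff] at this)
      calc eta ((A a).g 0) ^ 2 - eta ((A a).g (ξ0 a)) ^ 2 ≤ |eta ((A a).g 0) ^ 2 - eta ((A a).g (ξ0 a)) ^ 2| := le_abs_self _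
        _ ≤ L * ‖(A a).g 0 - (A a).g (ξ0 a)‖ := h6
        _ ≤ L * (6 * Real.sqrt (volume ((A a).g '' ball 0 1)).toReal) := mul_le_mul_of_nonneg_left h7 hL0
        _ = _ := by ring
    refine h1.trans ?_
    rw [← Finset.mul_sum]
    have h8 : ∑ a ∈ S, Real.sqrt (volume ((A a).g '' ball 0 1)).toReal ≤ Real.sqrt (K * Real.pi) * (H + 1) ^ (1 / 2 : ℝ) := by
      have h9 : (∑ a ∈ S, Real.sqrt (volume ((A a).g '' ball 0 1)).toReal) ^ 2 ≤ K * (H + 1) * Real.pi := by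
        refine (sq_sum_le_card_mul_sum_sq).trans ?_
        refine mul_le_mul hcard1 ?_ (Finset.sum_nonneg fun a _ => sq_nonneg _) (by positivity)
        refine le_trans ?_ harea
        refine (Finset.sum_le_sum_of_subset_of_nonneg (Finset.subset_univ S) fun a _ _ => sq_nonneg _).trans (le_of_eq ?_)
        exact Finset.sum_congr rfl fun a _ => Real.sq_sqrt ENNReal.toReal_nonneg
      have h10 := Real.le_sqrt_of_sq_le h9
      refine h10.trans (le_of_eq ?_)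
      rw [← Real.sqrt_eq_rpow, ← Real.sqrt_mul (by positivity)]
      ring_nf
    have h11 : (0 : ℝ) ≤ (H + 1) ^ (1 / 2 : ℝ) := by positivity
    calc 6 * L * ∑ a ∈ S, Real.sqrt (volume ((A a).g '' ball 0 1)).toReal
        ≤ 6 * L * (Real.sqrt (K * Real.pi) * (H + 1) ^ (1 / 2 : ℝ)) := mul_le_mul_of_nonneg_left h8 (by positivity)
      _ = 6 * L * Real.sqrt (K * Real.pi) * (H + 1) ^ (1 / 2 : ℝ) := by ring
      _ ≤ (1 + K + 6 * L * Real.sqrt (K * Real.pi)) * (H + 1) ^ (1 / 2 : ℝ) := mul_le_mul_of_nonneg_right (by linarith) h11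

end Pool.Agent.P2V
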