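import Pool.Agent.helper56.P2.SpecW

set_option autoImplicit false

open scoped ContDiff Topology ComplexConjugate ENNReal
open MeasureTheory Filter Set Metric MvPolynomial Pool.Agent.helper37.QA

namespace Pool.Agent.P2W

open Pool.Agent.P2

theorem WDT_mem (ξ0 : ℂ) (ρ κ τ : ℝ) (p : ℂ × ℂ) (h0 : ‖ξ0‖ ≤ 1 / 16) (hρ : 0 < ρ) (hρ1 : ρ ≤ 1 / 16) (hκ : 0 < κ) (hτ : κ * ρ ≤ τ)
    (hp : p ∈ P2U.TB 4 1) : Sc ξ0 ρ κ p ∈ P2U.TB (3 / 4) τ := by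
  have hp1 : ‖p.1‖ < 4 := hp.1
  have hp2 : ‖p.2‖ < 1 := hp.2
  constructor
  · have h1 : ‖ξ0 + (ρ : ℂ) * p.1‖ ≤ ‖ξ0‖ + ‖(ρ : ℂ) * p.1‖ := norm_add_le _ _
    have h2 : ‖(ρ : ℂ) * p.1‖ = ρ * ‖p.1‖ := by
      rw [norm_mul, Complex.norm_real, Real.norm_of_nonneg hρ.le]
    have h3 : ρ * ‖p.1‖ ≤ 1 / 16 * 4 := mul_le_mul hρ1 hp1.le (norm_nonneg _) (by norm_num)
    change ‖ξ0 + (ρ : ℂ) * p.1‖ < 3 / 4
    linarith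
  · change ‖(κ : ℂ) * ((ρ : ℂ) * p.2)‖ < τ
    have h2 : ‖(κ : ℂ) * ((ρ : ℂ) * p.2)‖ = κ * ρ * ‖p.2‖ := by
      rw [norm_mul, norm_mul, Complex.norm_real, Complex.norm_real, Real.norm_of_nonneg hρ.le, Real.norm_of_nonneg hκ.le]
      ring
    rw [h2]
    have h3 : κ * ρ * ‖p.2‖ < κ * ρ * 1 := mul_lt_mul_of_pos_left hp2 (mul_pos hκ hρ)
    linarith

theorem WDT_sub (ξ0 : ℂ) (ρ κ : ℝ) (p p' : ℂ × ℂ) (hρ : 0 < ρ) (hρ1 : ρ ≤ 1 / 16) (hκ : 0 < κ) (hκ1 : κ ≤ 1 / 10) :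
    ‖Sc ξ0 ρ κ p - Sc ξ0 ρ κ p'‖ ≤ ‖p - p'‖ := by
  have h1 : Sc ξ0 ρ κ p - Sc ξ0 ρ κ p' = ((ρ : ℂ) * (p - p').1, (κ : ℂ) * ((ρ : ℂ) * (p - p').2)) := by
    unfold Sc
    rw [Prod.mk_sub_mk, Prod.fst_sub, Prod.snd_sub]
    ring_nf
  rw [h1, Prod.norm_mk]
  apply max_le
  · rw [norm_mul, Complex.norm_real, Real.norm_of_nonneg hρ.le]
    have h2 : ‖(p - p').1‖ ≤ ‖p - p'‖ := norm_fst_le _
    have h3 : ρ * ‖(p - p').1‖ ≤ 1 * ‖p - p'‖ := mul_le_mul (by linarith) h2 (norm_nonneg _) (by norm_num)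
    linarith
  · rw [norm_mul, norm_mul, Complex.norm_real, Complex.norm_real, Real.norm_of_nonneg hρ.le, Real.norm_of_nonneg hκ.le, ← mul_assoc]
    have h2 : ‖(p - p').2‖ ≤ ‖p - p'‖ := norm_snd_le _
    have h4 : κ * ρ ≤ 1 := by nlinarith
    have h3 : κ * ρ * ‖(p - p').2‖ ≤ 1 * ‖p - p'‖ := mul_le_mul h4 h2 (norm_nonneg _) (by norm_num)
    linarith

theorem WDT_TB (τ : ℝ) (p : ℂ × ℂ) (hp : p ∈ P2U.TB (3 / 4) τ) : p ∈ P2U.TB 1 τ := by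
  have h1 : ‖p.1‖ < 3 / 4 := hp.1
  have h2 : ‖p.2‖ < τ := hp.2
  exact ⟨by linarith, h2⟩

theorem WDT (hWHO : WHO_stmt) : WDT_stmt := by
  intro d f U hd τ κ C0 α hτ hκ hκ1 hC ι c γ hT n ξ0 ρ h0 hρ hρ1 hκρ
  have hho := (hWHO d f ι c κ γ n hT.hd).2 ξ0 ρ h0 hρ hρ1
  have hnz : ∀ p ∈ P2U.TB 4 1, 0 < pq (sF f n ι c κ γ ξ0 ρ p) := by
    intro p hp
    exact (hC.nz ι c γ hT n _ (WDT_TB τ _ (WDT_mem ξ0 ρ κ τ p h0 hρ hρ1 hκ hκρ hp))).1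
  refine ⟨⟨?_, ?_, ?_⟩, ?_, ?_⟩
  · intro p hp
    exact (analyticAt_pi_iff.1 (hho p hp.1)) 0
  · intro p hp
    exact (analyticAt_pi_iff.1 (hho p hp.1)) 1
  · intro p hp
    by_contra hcon
    push Not at hcon
    have h1 := hnz p hp
    unfold pq at h1
    have h2 : sF f n ι c κ γ ξ0 ρ p 0 = 0 := hcon.1
    have h3 : sF f n ι c κ γ ξ0 ρ p 1 = 0 := hcon.2
    rw [h2, h3, map_zero, add_zero] at h1
    exact lt_irrefl _ h1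
  · intro p hp p' hp'
    have h1 := hC.ho ι c γ hT n _ (WDT_mem ξ0 ρ κ τ p h0 hρ hρ1 hκ hκρ hp) _ (WDT_mem ξ0 ρ κ τ p' h0 hρ hρ1 hκ hκρ hp')
    refine h1.trans ?_
    have h2 := WDT_sub ξ0 ρ κ p p' hρ hρ1 hκ hκ1
    have h3 : ‖Sc ξ0 ρ κ p - Sc ξ0 ρ κ p'‖ ^ α ≤ ‖p - p'‖ ^ α := Real.rpow_le_rpow (norm_nonneg _) h2 hC.a0.le
    exact mul_le_mul_of_nonneg_left h3 (by linarith [hC.c1])
  · intro p hp
    have hd0 : ((d : ℝ) ^ n) ≠ 0 := by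
      apply pow_ne_zero
      have : (2 : ℝ) ≤ d := by exact_mod_cast hd
      linarith
    have h1 : (d : ℝ) ^ n * un f n (gp ι c κ γ (Sc ξ0 ρ κ p)) = Real.log (‖sF f n ι c κ γ ξ0 ρ p 0‖ ^ 2 + ‖sF f n ι c κ γ ξ0 ρ p 1‖ ^ 2) / 2 := by
      unfold un pq sF
      rw [Complex.sq_norm, Complex.sq_norm]
      field_simp
    rw [h1, sub_self, abs_zero]
    linarith [hC.c1]

end Pool.Agent.P2W
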