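import Pool.Agent.helper56.P2.SpecW

set_option autoImplicit false

open scoped ContDiff Topology ComplexConjugate ENNReal
open MeasureTheory Filter Set Metric MvPolynomial Pool.Agent.helper37.QA

namespace Pool.Agent.P2W

open Pool.Agent.P2

theorem WHO_gp (ι : Fin 2) (c : ℂ) (κ : ℝ) (γ : ℂ → ℂ) (hγ : DifferentiableOn ℂ γ (ball 0 1)) (p : ℂ × ℂ) (hp : ‖p.1‖ < 1) (i : Fin 3) :
    AnalyticAt ℂ (fun q => gp ι c κ γ q i) p := by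
  have h1 : AnalyticAt ℂ (fun q : ℂ × ℂ => γ q.1) p := by
    have h2 : AnalyticAt ℂ γ p.1 := hγ.analyticAt (isOpen_ball.mem_nhds (by simpa using hp))
    exact h2.fun_comp (f := fun q : ℂ × ℂ => q.1) analyticAt_fst
  have h3 : AnalyticAt ℂ (fun q : ℂ × ℂ => c + (κ : ℂ) * q.1) p :=
    analyticAt_const.add (analyticAt_const.mul analyticAt_fst)
  have h4 : AnalyticAt ℂ (fun q : ℂ × ℂ => γ q.1 + q.2) p := h1.add analyticAt_snd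
  unfold gp cht
  split_ifs with h
  · fin_cases i
    · exact analyticAt_const
    · exact h3
    · exact h4
  · fin_cases i
    · exact h3
    · exact analyticAt_const
    · exact h4

theorem WHO_It (d : ℕ) (f : Endo 2 d) (ι : Fin 2) (c : ℂ) (κ : ℝ) (γ : ℂ → ℂ) (n : ℕ) (hγ : DifferentiableOn ℂ γ (ball 0 1)) (p : ℂ × ℂ)
    (hp : ‖p.1‖ < 1) : AnalyticAt ℂ (fun q => It f n (gp ι c κ γ q)) p := by
  refine AnalyticAt.pi fun i => ?_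
  exact AnalyticAt.aeval_mvPolynomial (f := gp ι c κ γ) (WHO_gp ι c κ γ hγ p hp) (iter f.F n i)

theorem WHO_Sc (ξ0 : ℂ) (ρ κ : ℝ) (p : ℂ × ℂ) : AnalyticAt ℂ (Sc ξ0 ρ κ) p := by
  have h1 : AnalyticAt ℂ (fun q : ℂ × ℂ => ξ0 + (ρ : ℂ) * q.1) p :=
    analyticAt_const.add (analyticAt_const.mul analyticAt_fst)
  have h2 : AnalyticAt ℂ (fun q : ℂ × ℂ => (κ : ℂ) * ((ρ : ℂ) * q.2)) p :=
    analyticAt_const.mul (analyticAt_const.mul analyticAt_snd)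
  exact h1.prod h2

theorem WHO_lt (ξ0 : ℂ) (ρ κ : ℝ) (p : ℂ × ℂ) (h0 : ‖ξ0‖ ≤ 1 / 16) (hρ : 0 < ρ) (hρ1 : ρ ≤ 1 / 16) (hp : ‖p.1‖ < 4) :
    ‖(Sc ξ0 ρ κ p).1‖ < 3 / 4 := by
  have h1 : ‖ξ0 + (ρ : ℂ) * p.1‖ ≤ ‖ξ0‖ + ‖(ρ : ℂ) * p.1‖ := norm_add_le _ _
  have h2 : ‖(ρ : ℂ) * p.1‖ = ρ * ‖p.1‖ := by
    rw [norm_mul, Complex.norm_real, Real.norm_of_nonneg hρ.le]
  have h3 : ρ * ‖p.1‖ ≤ 1 / 16 * 4 := mul_le_mul hρ1 hp.le (norm_nonneg _) (by norm_num)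
  change ‖ξ0 + (ρ : ℂ) * p.1‖ < 3 / 4
  linarith

theorem WHO : WHO_stmt := by
  intro d f ι c κ γ n hγ
  refine ⟨fun p hp => WHO_It d f ι c κ γ n hγ p hp, ?_⟩
  intro ξ0 ρ h0 hρ hρ1 p hp
  have h1 : AnalyticAt ℂ (fun q => It f n (gp ι c κ γ q)) (Sc ξ0 ρ κ p) :=
    WHO_It d f ι c κ γ n hγ _ (by have := WHO_lt ξ0 ρ κ p h0 hρ hρ1 hp; linarith)
  have h2 := h1.fun_comp (WHO_Sc ξ0 ρ κ p)
  exact h2

end Pool.Agent.P2W
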