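import Pool.Agent.helper56.P2.SpecW

set_option autoImplicit false

open scoped ContDiff Topology ComplexConjugate ENNReal
open MeasureTheory Filter Set Metric MvPolynomial Pool.Agent.helper37.QA

namespace Pool.Agent.P2W

open Pool.Agent.P2

/-- the affine map -/
def WSC_S (ξ0 : ℂ) (a b : ℝ) (p : ℂ × ℂ) : ℂ × ℂ := (ξ0 + a * p.1, b * p.2)

theorem WSC_hS (ξ0 : ℂ) (a b : ℝ) (p : ℂ × ℂ) :
    HasFDerivAt (WSC_S ξ0 a b) (((a : ℂ) • ContinuousLinearMap.fst ℂ ℂ ℂ).prod ((b : ℂ) • ContinuousLinearMap.snd ℂ ℂ ℂ)) p := by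
  have h1 : HasFDerivAt (fun q : ℂ × ℂ => ξ0 + (a : ℂ) * q.1) ((a : ℂ) • ContinuousLinearMap.fst ℂ ℂ ℂ) p :=
    (hasFDerivAt_fst.const_mul (a : ℂ)).const_add ξ0
  have h2 : HasFDerivAt (fun q : ℂ × ℂ => (b : ℂ) * q.2) ((b : ℂ) • ContinuousLinearMap.snd ℂ ℂ ℂ) p :=
    hasFDerivAt_snd.const_mul (b : ℂ)
  exact h1.prodMk h2

theorem WSC_fd (F : ℂ × ℂ → ℂ) (ξ0 : ℂ) (a b : ℝ) (p v : ℂ × ℂ) (hF : DifferentiableAt ℂ F (WSC_S ξ0 a b p)) :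
    fderiv ℂ (fun q => F (WSC_S ξ0 a b q)) p v = fderiv ℂ F (WSC_S ξ0 a b p) ((a : ℂ) * v.1, (b : ℂ) * v.2) := by
  have h1 : HasFDerivAt (fun q => F (WSC_S ξ0 a b q)) _ p := hF.hasFDerivAt.comp p (WSC_hS ξ0 a b p)
  rw [h1.fderiv]
  rfl

theorem WSC_cx (P Q : ℂ × ℂ → ℂ) (ξ0 : ℂ) (a b : ℝ) (p : ℂ × ℂ) (hP : DifferentiableAt ℂ P (WSC_S ξ0 a b p))
    (hQ : DifferentiableAt ℂ Q (WSC_S ξ0 a b p)) :
    P2U.cx (fun p => P (WSC_S ξ0 a b p)) (fun p => Q (WSC_S ξ0 a b p)) p = a * P2U.cx P Q (WSC_S ξ0 a b p) := by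
  unfold P2U.cx P2U.dx
  rw [WSC_fd P ξ0 a b p _ hP, WSC_fd Q ξ0 a b p _ hQ]
  have h1 : (((a : ℂ) * ((1 : ℂ), (0 : ℂ)).1, (b : ℂ) * ((1 : ℂ), (0 : ℂ)).2) : ℂ × ℂ) = (a : ℂ) • ((1 : ℂ), (0 : ℂ)) := by
    simp
  rw [h1, map_smul, map_smul, smul_eq_mul, smul_eq_mul]
  ring

theorem WSC_cv (P Q : ℂ × ℂ → ℂ) (ξ0 : ℂ) (a b : ℝ) (p : ℂ × ℂ) (hP : DifferentiableAt ℂ P (WSC_S ξ0 a b p))
    (hQ : DifferentiableAt ℂ Q (WSC_S ξ0 a b p)) :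
    P2U.cv (fun p => P (WSC_S ξ0 a b p)) (fun p => Q (WSC_S ξ0 a b p)) p = b * P2U.cv P Q (WSC_S ξ0 a b p) := by
  unfold P2U.cv P2U.dv
  rw [WSC_fd P ξ0 a b p _ hP, WSC_fd Q ξ0 a b p _ hQ]
  have h1 : (((a : ℂ) * ((0 : ℂ), (1 : ℂ)).1, (b : ℂ) * ((0 : ℂ), (1 : ℂ)).2) : ℂ × ℂ) = (b : ℂ) • ((0 : ℂ), (1 : ℂ)) := by
    simp
  rw [h1, map_smul, map_smul, smul_eq_mul, smul_eq_mul]
  ring

theorem WSC_dcx (P Q : ℂ × ℂ → ℂ) (q : ℂ × ℂ) (hP : AnalyticAt ℂ P q) (hQ : AnalyticAt ℂ Q q) :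
    DifferentiableAt ℂ (P2U.cx P Q) q ∧ DifferentiableAt ℂ (P2U.cv P Q) q := by
  have h1 : ∀ v : ℂ × ℂ, DifferentiableAt ℂ (fun x => fderiv ℂ P x v) q := fun v =>
    hP.fderiv.differentiableAt.clm_apply (differentiableAt_const v)
  have h2 : ∀ v : ℂ × ℂ, DifferentiableAt ℂ (fun x => fderiv ℂ Q x v) q := fun v =>
    hQ.fderiv.differentiableAt.clm_apply (differentiableAt_const v)
  exact ⟨(hQ.differentiableAt.mul (h1 _)).sub (hP.differentiableAt.mul (h2 _)),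
    (hQ.differentiableAt.mul (h1 _)).sub (hP.differentiableAt.mul (h2 _))⟩

theorem WSC_nn (P Q : ℂ × ℂ → ℂ) (ξ0 : ℂ) (a : ℝ) (p : ℂ × ℂ) (hP : AnalyticAt ℂ P (WSC_S ξ0 a a p)) (hQ : AnalyticAt ℂ Q (WSC_S ξ0 a a p)) :
    P2U.nn (fun p => P (WSC_S ξ0 a a p)) (fun p => Q (WSC_S ξ0 a a p)) p = (a : ℂ) ^ 4 * P2U.nn P Q (WSC_S ξ0 a a p) := by
  have hcS : ContinuousAt (WSC_S ξ0 a a) p := (WSC_hS ξ0 a a p).continuousAt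
  have hPe : ∀ᶠ q in 𝓝 p, DifferentiableAt ℂ P (WSC_S ξ0 a a q) :=
    hcS.eventually (hP.eventually_analyticAt.mono fun x hx => hx.differentiableAt)
  have hQe : ∀ᶠ q in 𝓝 p, DifferentiableAt ℂ Q (WSC_S ξ0 a a q) :=
    hcS.eventually (hQ.eventually_analyticAt.mono fun x hx => hx.differentiableAt)
  have hcx : P2U.cx (fun p => P (WSC_S ξ0 a a p)) (fun p => Q (WSC_S ξ0 a a p)) =ᶠ[𝓝 p] fun q => (a : ℂ) * P2U.cx P Q (WSC_S ξ0 a a q) := by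
    filter_upwards [hPe, hQe] with q h1 h2
    exact WSC_cx P Q ξ0 a a q h1 h2
  have hcv : P2U.cv (fun p => P (WSC_S ξ0 a a p)) (fun p => Q (WSC_S ξ0 a a p)) =ᶠ[𝓝 p] fun q => (a : ℂ) * P2U.cv P Q (WSC_S ξ0 a a q) := by
    filter_upwards [hPe, hQe] with q h1 h2
    exact WSC_cv P Q ξ0 a a q h1 h2
  obtain ⟨hd1, hd2⟩ := WSC_dcx P Q _ hP hQ
  have hdS : DifferentiableAt ℂ (WSC_S ξ0 a a) p := (WSC_hS ξ0 a a p).differentiableAt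
  have hf1 : ∀ v : ℂ × ℂ, fderiv ℂ (P2U.cx (fun p => P (WSC_S ξ0 a a p)) (fun p => Q (WSC_S ξ0 a a p))) p v =
      (a : ℂ) ^ 2 * fderiv ℂ (P2U.cx P Q) (WSC_S ξ0 a a p) v := by
    intro v
    have hd3 : DifferentiableAt ℂ (fun q => P2U.cx P Q (WSC_S ξ0 a a q)) p := hd1.comp p hdS
    rw [hcx.fderiv_eq, fderiv_const_mul hd3]
    change (a : ℂ) * fderiv ℂ (fun q => P2U.cx P Q (WSC_S ξ0 a a q)) p v = _
    rw [WSC_fd _ ξ0 a a p v hd1]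
    have h1 : (((a : ℂ) * v.1, (a : ℂ) * v.2) : ℂ × ℂ) = (a : ℂ) • v := rfl
    rw [h1, map_smul, smul_eq_mul]
    ring
  have hf2 : ∀ v : ℂ × ℂ, fderiv ℂ (P2U.cv (fun p => P (WSC_S ξ0 a a p)) (fun p => Q (WSC_S ξ0 a a p))) p v =
      (a : ℂ) ^ 2 * fderiv ℂ (P2U.cv P Q) (WSC_S ξ0 a a p) v := by
    intro v
    have hd3 : DifferentiableAt ℂ (fun q => P2U.cv P Q (WSC_S ξ0 a a q)) p := hd2.comp p hdS
    rw [hcv.fderiv_eq, fderiv_const_mul hd3]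
    change (a : ℂ) * fderiv ℂ (fun q => P2U.cv P Q (WSC_S ξ0 a a q)) p v = _
    rw [WSC_fd _ ξ0 a a p v hd2]
    have h1 : (((a : ℂ) * v.1, (a : ℂ) * v.2) : ℂ × ℂ) = (a : ℂ) • v := rfl
    rw [h1, map_smul, smul_eq_mul]
    ring
  have hef : P2U.ef (fun p => P (WSC_S ξ0 a a p)) (fun p => Q (WSC_S ξ0 a a p)) p = (a : ℂ) • P2U.ef P Q (WSC_S ξ0 a a p) := by
    unfold P2U.ef
    rw [WSC_cx P Q ξ0 a a p hP.differentiableAt hQ.differentiableAt, WSC_cv P Q ξ0 a a p hP.differentiableAt hQ.differentiableAt]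
    rw [Prod.smul_mk, smul_eq_mul, smul_eq_mul, mul_neg]
  unfold P2U.nn
  rw [hf1, hf2, hef, map_smul, map_smul, smul_eq_mul, smul_eq_mul, WSC_cx P Q ξ0 a a p hP.differentiableAt hQ.differentiableAt,
    WSC_cv P Q ξ0 a a p hP.differentiableAt hQ.differentiableAt]
  ring

theorem WSC : WSC_stmt := by
  intro P Q ξ0 a b p ha hb hP hQ
  refine ⟨WSC_cx P Q ξ0 a b p hP.differentiableAt hQ.differentiableAt, WSC_cv P Q ξ0 a b p hP.differentiableAt hQ.differentiableAt, ?_, ?_⟩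
  · unfold P2U.om om
    simp only [Complex.sq_norm]
  · intro hab
    subst hab
    have h1 := WSC_nn P Q ξ0 a p hP hQ
    have h2 := WSC_cx P Q ξ0 a a p hP.differentiableAt hQ.differentiableAt
    have h3 := WSC_cv P Q ξ0 a a p hP.differentiableAt hQ.differentiableAt
    change P2U.Gd (fun p => P (WSC_S ξ0 a a p)) (fun p => Q (WSC_S ξ0 a a p)) p = a ^ 4 * P2U.Gd P Q (WSC_S ξ0 a a p)
    unfold P2U.Gd
    rw [h1, h2, h3, norm_mul, norm_mul, norm_mul, norm_pow, Complex.norm_real, Real.norm_of_nonneg ha.le]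
    have ha0 : a ≠ 0 := ha.ne'
    by_cases hz : ‖P2U.cx P Q (WSC_S ξ0 a a p)‖ ^ 2 + ‖P2U.cv P Q (WSC_S ξ0 a a p)‖ ^ 2 = 0
    · have hz2 : (a * ‖P2U.cx P Q (WSC_S ξ0 a a p)‖) ^ 2 + (a * ‖P2U.cv P Q (WSC_S ξ0 a a p)‖) ^ 2 = 0 := by
        rw [mul_pow, mul_pow, ← mul_add, hz, mul_zero]
      rw [hz, hz2]
      simp
    · have hz2 : (a * ‖P2U.cx P Q (WSC_S ξ0 a a p)‖) ^ 2 + (a * ‖P2U.cv P Q (WSC_S ξ0 a a p)‖) ^ 2 =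
          a ^ 2 * (‖P2U.cx P Q (WSC_S ξ0 a a p)‖ ^ 2 + ‖P2U.cv P Q (WSC_S ξ0 a a p)‖ ^ 2) := by ring
      rw [hz2]
      field_simp

end Pool.Agent.P2W
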